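import Pool.Agent.FDS.Defs

/-! Primitive recursiveness of the state function. -/

set_option autoImplicit false

namespace FDS.Prim

open FDS

variable {C : ℕ → ℕ → ℕ → Bool} {S : List ℕ → Bool}

section aux

variable {α : Type} [Primcodable α]

theorem pr_C (hC : Primrec (fun p : ℕ × ℕ × ℕ => C p.1 p.2.1 p.2.2)) {e n t : α → ℕ}
    (he : Primrec e) (hn : Primrec n) (ht : Primrec t) : Primrec fun a => C (e a) (n a) (t a) :=
  hC.comp (he.pair (hn.pair ht))

theorem pr_fok (hC : Primrec (fun p : ℕ × ℕ × ℕ => C p.1 p.2.1 p.2.2)) {n t : α → ℕ}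
    {G : α → List ℕ} (hn : Primrec n) (ht : Primrec t) (hG : Primrec G) :
    Primrec fun a => fok C (n a) (t a) (G a) := by
  have h : Primrec₂ fun (a : α) (b : ℕ × List ℕ × Bool) =>
      ((if b.1 = 0 then C b.2.1.length (n a) (t a) else true) && b.2.2) := by
    refine Primrec.and.comp₂ ?_ (Primrec.snd.comp (Primrec.snd.comp Primrec.snd)).to₂
    refine Primrec.ite (Primrec.eq.comp (Primrec.fst.comp Primrec.snd) (Primrec.const 0)) ?_
      (Primrec.const true)
    exact pr_C hC (Primrec.list_length.comp (Primrec.fst.comp (Primrec.snd.comp Primrec.snd)))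
      (hn.comp Primrec.fst) (ht.comp Primrec.fst)
  refine (Primrec.list_rec hG (Primrec.const true) h).of_eq fun a => ?_
  induction G a with
  | nil => rfl
  | cons q G ih => simp only [fok]; rw [← ih]

theorem pr_wok (hC : Primrec (fun p : ℕ × ℕ × ℕ => C p.1 p.2.1 p.2.2)) {t : α → ℕ}
    {G : α → List ℕ} (ht : Primrec t) (hG : Primrec G) :
    Primrec fun a => wok C (t a) (G a) := by
  have h : Primrec₂ fun (a : α) (b : ℕ × List ℕ × Bool) =>
      ((if b.1 = 0 then true else !C b.2.1.length (b.1 - 1) (t a)) && b.2.2) := by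
    refine Primrec.and.comp₂ ?_ (Primrec.snd.comp (Primrec.snd.comp Primrec.snd)).to₂
    refine Primrec.ite (Primrec.eq.comp (Primrec.fst.comp Primrec.snd) (Primrec.const 0))
      (Primrec.const true) (Primrec.not.comp ?_)
    exact pr_C hC (Primrec.list_length.comp (Primrec.fst.comp (Primrec.snd.comp Primrec.snd)))
      (Primrec.nat_sub.comp (Primrec.fst.comp Primrec.snd) (Primrec.const 1)) (ht.comp Primrec.fst)
  refine (Primrec.list_rec hG (Primrec.const true) h).of_eq fun a => ?_
  induction G a with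
  | nil => rfl
  | cons q G ih => simp only [wok]; rw [← ih]

theorem pr_inStem {L : α → ℕ} {G : α → List ℕ} (hL : Primrec L) (hG : Primrec G) :
    Primrec fun a => inStem (L a) (G a) := by
  unfold inStem
  exact Primrec.nat_lt.decide.comp hL (Primrec.list_headI.comp hG)

theorem pr_pay {p : α → ℕ} (hp : Primrec p) : Primrec fun a => pay (p a) := by
  unfold pay
  exact (Primrec.ofNat (ℕ × List ℕ)).comp hp

theorem pr_pay1 {p : α → ℕ} (hp : Primrec p) : Primrec fun a => (pay (p a)).1 :=
  Primrec.fst.comp (pr_pay hp)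

theorem pr_pay2 {p : α → ℕ} (hp : Primrec p) : Primrec fun a => (pay (p a)).2 :=
  Primrec.snd.comp (pr_pay hp)

theorem pr_nG {L p : α → ℕ} {G : α → List ℕ} (hL : Primrec L) (hG : Primrec G) (hp : Primrec p) :
    Primrec fun a => nG (L a) (G a) (p a) := by
  have h : Primrec fun a => cond (inStem (L a) (G a)) (G a) ((pay (p a)).1 :: G a) :=
    Primrec.cond (pr_inStem hL hG) hG (Primrec.list_cons.comp (pr_pay1 hp) hG)
  refine h.of_eq fun a => ?_
  unfold nG
  cases inStem (L a) (G a) <;> rfl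

theorem pr_nv {L p : α → ℕ} {G v : α → List ℕ} (hL : Primrec L) (hG : Primrec G)
    (hv : Primrec v) (hp : Primrec p) :
    Primrec fun a => nv (L a) (G a) (v a) (p a) := by
  have h : Primrec fun a => cond (inStem (L a) (G a)) (v a) ((pay (p a)).2 ++ v a) :=
    Primrec.cond (pr_inStem hL hG) hv (Primrec.list_append.comp (pr_pay2 hp) hv)
  refine h.of_eq fun a => ?_
  unfold nv
  cases inStem (L a) (G a) <;> rfl

theorem pr_good (hC : Primrec (fun p : ℕ × ℕ × ℕ => C p.1 p.2.1 p.2.2)) {L t p t' : α → ℕ}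
    {G : α → List ℕ} (hL : Primrec L) (hG : Primrec G) (ht : Primrec t) (hp : Primrec p)
    (ht' : Primrec t') : Primrec fun a => good C (L a) (G a) (t a) (p a) (t' a) := by
  unfold good
  refine Primrec.and.comp (Primrec.and.comp (Primrec.nat_lt.decide.comp ht ht')
    (pr_fok hC (Primrec.succ.comp hL) ht' (pr_nG hL hG hp))) ?_
  refine Primrec.or.comp (Primrec.or.comp (pr_inStem hL hG)
    (Primrec.nat_lt.decide.comp (pr_pay1 hp) (Primrec.const 2))) ?_
  exact pr_C hC (Primrec.list_length.comp hG)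
    (Primrec.nat_sub.comp (pr_pay1 hp) (Primrec.const 2)) ht'

theorem pr_okpay (hS : Primrec S) {L p : α → ℕ} {G v : α → List ℕ} (hL : Primrec L)
    (hG : Primrec G) (hv : Primrec v) (hp : Primrec p) :
    Primrec fun a => okpay S (L a) (G a) (v a) (p a) := by
  have h : Primrec fun a => cond (inStem (L a) (G a)) (decide (p a = 0))
      (decide ((nv (L a) (G a) (v a) (p a)).length = max (max (v a).length (L a + 1)) (pay (p a)).1)
        && S (nv (L a) (G a) (v a) (p a))) := by
    refine Primrec.cond (pr_inStem hL hG) (Primrec.eq.decide.comp hp (Primrec.const 0)) ?_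
    refine Primrec.and.comp (Primrec.eq.decide.comp (Primrec.list_length.comp (pr_nv hL hG hv hp))
      (Primrec.nat_max.comp (Primrec.nat_max.comp (Primrec.list_length.comp hv)
        (Primrec.succ.comp hL)) (pr_pay1 hp))) (hS.comp (pr_nv hL hG hv hp))
  refine h.of_eq fun a => ?_
  unfold okpay
  cases inStem (L a) (G a) <;> rfl

theorem pr_nxt (hC : Primrec (fun p : ℕ × ℕ × ℕ => C p.1 p.2.1 p.2.2)) (hS : Primrec S)
    {x : α → ℕ × ℕ} {s : α → State} (hx : Primrec x) (hs : Primrec s) :
    Primrec fun a => nxt C S (x a) (s a) := by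
  unfold nxt
  have h1 : Primrec fun a => (s a).1 := Primrec.fst.comp hs
  have h2 : Primrec fun a => (s a).2.1 := Primrec.fst.comp (Primrec.snd.comp hs)
  have h3 : Primrec fun a => (s a).2.2.1 :=
    Primrec.fst.comp (Primrec.snd.comp (Primrec.snd.comp hs))
  have h4 : Primrec fun a => (s a).2.2.2.1 :=
    Primrec.fst.comp (Primrec.snd.comp (Primrec.snd.comp (Primrec.snd.comp hs)))
  have h5 : Primrec fun a => (s a).2.2.2.2 :=
    Primrec.snd.comp (Primrec.snd.comp (Primrec.snd.comp (Primrec.snd.comp hs)))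
  have hx1 : Primrec fun a => (x a).1 := Primrec.fst.comp hx
  have hx2 : Primrec fun a => (x a).2 := Primrec.snd.comp hx
  refine Primrec.pair ?_ (Primrec.pair (Primrec.succ.comp h2) (Primrec.pair (pr_nG h2 h3 hx1)
    (Primrec.pair (pr_nv h2 h3 h4 hx1) hx2)))
  refine Primrec.and.comp (Primrec.and.comp h1 (pr_okpay hS h2 h3 h4 hx1)) ?_
  refine Primrec.and.comp (Primrec.and.comp (pr_good hC h2 h3 h5 hx1 hx2)
    (Primrec.not.comp (pr_good hC h2 h3 h5 hx1
      (Primrec.nat_sub.comp hx2 (Primrec.const 1))))) (pr_wok hC hx2 (pr_nG h2 h3 hx1))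

end aux

theorem primrec_st (hC : Primrec (fun p : ℕ × ℕ × ℕ => C p.1 p.2.1 p.2.2)) (hS : Primrec S) :
    Primrec (st C S) := by
  have h : Primrec₂ fun (_ : Node) (b : (ℕ × ℕ) × State) => nxt C S b.1 b.2 :=
    (pr_nxt hC hS Primrec.fst Primrec.snd).comp₂ Primrec₂.right
  exact Primrec.list_foldr Primrec.id (Primrec.const (true, 0, [], [], 0)) h

end FDS.Prim
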