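import Pool.Agent.FDS.Defs
import Pool.Agent.FDS.PrimSt

/-! Primitive recursiveness of the tree, of words and of the operation `Phi`. -/

set_option autoImplicit false

namespace FDS.Prim

open FDS

variable {C : ℕ → ℕ → ℕ → Bool} {S : List ℕ → Bool}

theorem primrec_cc : Primrec₂ (cc : Letter → List Letter → List Letter) := by
  have h : Primrec (fun p : Letter × List Letter =>
      (List.casesOn p.2 [p.1] (fun a t => if a = p.1 then t else p.1 :: p.2) : List Letter)) :=
    Primrec.list_casesOn (f := fun p : Letter × List Letter => p.2) (g := fun p => [p.1])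
      (h := fun p q => if q.1 = p.1 then q.2 else p.1 :: p.2) Primrec.snd
      (Primrec.list_cons.comp Primrec.fst (Primrec.const []))
      (Primrec.ite (Primrec.eq.comp (Primrec.fst.comp Primrec.snd) (Primrec.fst.comp Primrec.fst))
        (Primrec.snd.comp Primrec.snd)
        (Primrec.list_cons.comp (Primrec.fst.comp Primrec.fst) (Primrec.snd.comp Primrec.fst)))
  refine Primrec.of_eq h ?_
  rintro ⟨c, l⟩
  cases l with
  | nil => rfl
  | cons a t => rfl

theorem primrec_app : Primrec₂ (app : List Letter → List Letter → List Letter) := by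
  have h : Primrec (fun p : List Letter × List Letter => p.1.foldr (fun c y => cc c y) p.2) :=
    Primrec.list_foldr (f := fun p : List Letter × List Letter => p.1) (g := fun p => p.2)
      (h := fun _ q => cc q.1 q.2) Primrec.fst Primrec.snd
      (primrec_cc.comp (Primrec.fst.comp Primrec.snd) (Primrec.snd.comp Primrec.snd))
  exact h

theorem primrec_dn : Primrec₂ (dn : ℕ → Letter → Letter) :=
  Primrec.pair (Primrec.list_drop.comp Primrec.fst (Primrec.fst.comp Primrec.snd))
    (Primrec.snd.comp Primrec.snd)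

theorem primrec_rho : Primrec₂ rho := by
  have h : Primrec (fun p : ℕ × List Letter => p.2.foldr (fun c y => cc (dn p.1 c) y) []) :=
    Primrec.list_foldr (f := fun p : ℕ × List Letter => p.2) (g := fun _ => [])
      (h := fun p q => cc (dn p.1 q.1) q.2) Primrec.snd (Primrec.const [])
      (primrec_cc.comp (primrec_dn.comp (Primrec.fst.comp Primrec.fst)
        (Primrec.fst.comp Primrec.snd)) (Primrec.snd.comp Primrec.snd))
  exact h

/-- letterwise restriction -/
theorem primrec_mapdn : Primrec₂ (fun (i : ℕ) (w : List Letter) => w.map (dn i)) :=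
  Primrec.list_map (f := fun p : ℕ × List Letter => p.2) (g := fun p c => dn p.1 c) Primrec.snd
    (primrec_dn.comp (Primrec.fst.comp Primrec.fst) Primrec.snd)

theorem primrec_Tr (hC : Primrec (fun p : ℕ × ℕ × ℕ => C p.1 p.2.1 p.2.2)) (hS : Primrec S) :
    Primrec (Tr C S) :=
  Primrec.fst.comp (primrec_st hC hS)

theorem primrec_VL (hC : Primrec (fun p : ℕ × ℕ × ℕ => C p.1 p.2.1 p.2.2)) (hS : Primrec S)
    (k : ℕ) : Primrec₂ (VL C S k) := by
  have h1 : Primrec (fun p : ℕ × Letter => Tr C S p.2.1) :=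
    (primrec_Tr hC hS).comp (Primrec.fst.comp Primrec.snd)
  have h2 : Primrec (fun p : ℕ × Letter => decide (p.2.1.length = p.1)) :=
    (PrimrecRel.comp Primrec.eq (Primrec.list_length.comp (Primrec.fst.comp Primrec.snd))
      Primrec.fst).decide
  have h3 : Primrec (fun p : ℕ × Letter => decide (p.2.2 + 1 < k)) :=
    (PrimrecRel.comp Primrec.nat_lt (Primrec.succ.comp (Primrec.snd.comp Primrec.snd))
      (Primrec.const k)).decide
  exact Primrec.and.comp (Primrec.and.comp h1 h2) h3

theorem primrec_Red : PrimrecPred (fun w : List Letter => Red w) := by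
  have h : Primrec (fun w : List Letter =>
      (List.recOn w true (fun a t IH => IH && !decide (t.head? = some a)) : Bool)) :=
    Primrec.list_rec (f := fun w : List Letter => w) (g := fun _ => true)
      (h := fun _ q => q.2.2 && !decide (q.2.1.head? = some q.1)) Primrec.id (Primrec.const true)
      (Primrec.and.comp (Primrec.snd.comp (Primrec.snd.comp Primrec.snd))
        (Primrec.not.comp (PrimrecRel.comp Primrec.eq
          (Primrec.list_head?.comp (Primrec.fst.comp (Primrec.snd.comp Primrec.snd)))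
          (Primrec.option_some.comp (Primrec.fst.comp Primrec.snd))).decide))
  have h2 : PrimrecPred (fun w : List Letter =>
      (List.recOn w true (fun a t IH => IH && !decide (t.head? = some a)) : Bool) = true) :=
    PrimrecRel.comp Primrec.eq h (Primrec.const true)
  refine h2.of_eq ?_
  intro w
  induction w with
  | nil => simp [Red]
  | cons a t ih =>
    have e : (List.recOn (a :: t) true
        (fun a t IH => IH && !decide (t.head? = some a)) : Bool) =
        ((List.recOn t true (fun a t IH => IH && !decide (t.head? = some a)) : Bool) &&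
          !decide (t.head? = some a)) := rfl
    rw [e, Bool.and_eq_true, ih]
    cases t with
    | nil => simp [Red]
    | cons b t =>
      simp only [Red, List.isChain_cons_cons, List.head?_cons, Option.some.injEq,
        Bool.not_eq_true', decide_eq_false_iff_not]
      constructor
      · rintro ⟨h1, h2⟩
        exact ⟨fun h => h2 h.symm, h1⟩
      · rintro ⟨h1, h2⟩
        exact ⟨h2, fun h => h1 h.symm⟩

theorem primrec_VW (hC : Primrec (fun p : ℕ × ℕ × ℕ => C p.1 p.2.1 p.2.2)) (hS : Primrec S)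
    (k : ℕ) : PrimrecPred (fun p : ℕ × List Letter => VW C S k p.1 p.2) := by
  have h1 : PrimrecPred (fun p : ℕ × List Letter => Red p.2) :=
    primrec_Red.comp Primrec.snd
  have h2 : PrimrecRel (fun (c : Letter) (n : ℕ) => VL C S k n c = true) :=
    PrimrecRel.comp Primrec.eq ((primrec_VL hC hS k).comp Primrec.snd Primrec.fst)
      (Primrec.const true)
  have h3 : PrimrecPred (fun p : ℕ × List Letter => ∀ c ∈ p.2, VL C S k p.1 c = true) :=
    h2.forall_mem_list.comp Primrec.snd Primrec.fst
  exact h1.and h3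

theorem primrec_bit (hC : Primrec (fun p : ℕ × ℕ × ℕ => C p.1 p.2.1 p.2.2)) (hS : Primrec S) :
    Primrec₂ (bit C S) := by
  have h1 : Primrec (fun p : Node × ℕ => (st C S p.1).2.2.2.1.reverse) :=
    Primrec.list_reverse.comp (Primrec.fst.comp (Primrec.snd.comp (Primrec.snd.comp
      (Primrec.snd.comp ((primrec_st hC hS).comp Primrec.fst)))))
  have h2 : Primrec (fun p : Node × ℕ =>
      ((st C S p.1).2.2.2.1.reverse.getD p.2 0).unpair.1) :=
    Primrec.fst.comp (Primrec.unpair.comp ((Primrec.list_getD 0).comp h1 Primrec.snd))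
  exact (PrimrecRel.comp Primrec.nat_lt (Primrec.const 0) h2).decide

theorem primrec_pos (k : ℕ) : Primrec (fun p : Bool × ℕ × ℕ => pos k p.1 p.2.1 p.2.2) := by
  refine Primrec.ite (PrimrecPred.and ?_ ?_) (Primrec.const k) (Primrec.snd.comp Primrec.snd)
  · exact PrimrecRel.comp Primrec.eq
      (Primrec.nat_mod.comp (Primrec.fst.comp Primrec.snd) (Primrec.const k))
      (Primrec.snd.comp Primrec.snd)
  · exact PrimrecRel.comp Primrec.eq Primrec.fst (Primrec.const true)

theorem primrec_sw (k : ℕ) :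
    Primrec (fun p : Bool × ℕ × ℕ × ℕ => sw k p.1 p.2.1 p.2.2.1 p.2.2.2) := by
  have h1 : Primrec (fun p : Bool × ℕ × ℕ × ℕ => pos k p.1 p.2.1 p.2.2.1) :=
    (primrec_pos k).comp (Primrec.pair Primrec.fst
      (Primrec.pair (Primrec.fst.comp Primrec.snd)
        (Primrec.fst.comp (Primrec.snd.comp Primrec.snd))))
  have h2 : Primrec (fun p : Bool × ℕ × ℕ × ℕ => pos k p.1 p.2.1 (p.2.2.1 + 1)) :=
    (primrec_pos k).comp (Primrec.pair Primrec.fst
      (Primrec.pair (Primrec.fst.comp Primrec.snd)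
        (Primrec.succ.comp (Primrec.fst.comp (Primrec.snd.comp Primrec.snd)))))
  have h3 : Primrec (fun p : Bool × ℕ × ℕ × ℕ => p.2.2.2) :=
    Primrec.snd.comp (Primrec.snd.comp Primrec.snd)
  exact Primrec.ite (PrimrecRel.comp Primrec.eq h3 h1) h2
    (Primrec.ite (PrimrecRel.comp Primrec.eq h3 h2) h1 h3)

theorem primrec_coord (hC : Primrec (fun p : ℕ × ℕ × ℕ => C p.1 p.2.1 p.2.2)) (hS : Primrec S)
    (k : ℕ) : Primrec (fun p : ℕ × List Letter × ℕ => coord C S k p.1 p.2.1 p.2.2) := by
  have h : Primrec (fun p : ℕ × List Letter × ℕ =>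
      p.2.1.foldr (fun c b => sw k (bit C S c.1 p.1) p.1 c.2 b) p.2.2) := by
    refine Primrec.list_foldr (f := fun p : ℕ × List Letter × ℕ => p.2.1) (g := fun p => p.2.2)
      (h := fun p q => sw k (bit C S q.1.1 p.1) p.1 q.1.2 q.2)
      (Primrec.fst.comp Primrec.snd) (Primrec.snd.comp Primrec.snd) ?_
    have hm : Primrec (fun r : (ℕ × List Letter × ℕ) × (Letter × ℕ) => r.1.1) :=
      Primrec.fst.comp Primrec.fst
    have hc : Primrec (fun r : (ℕ × List Letter × ℕ) × (Letter × ℕ) => r.2.1) :=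
      Primrec.fst.comp Primrec.snd
    have hb : Primrec (fun r : (ℕ × List Letter × ℕ) × (Letter × ℕ) => bit C S r.2.1.1 r.1.1) :=
      (primrec_bit hC hS).comp (Primrec.fst.comp hc) hm
    exact (primrec_sw k).comp (Primrec.pair hb (Primrec.pair hm
      (Primrec.pair (Primrec.snd.comp hc) (Primrec.snd.comp Primrec.snd))))
  exact h

theorem primrec_lab : Primrec lab := Primrec.sumInl

theorem primrec_ver : Primrec₂ ver :=
  Primrec.sumInr.comp Primrec.sumInl

theorem primrec_idx (hC : Primrec (fun p : ℕ × ℕ × ℕ => C p.1 p.2.1 p.2.2)) (hS : Primrec S)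
    (k : ℕ) : Primrec (idx C S k) := by
  have hv : Primrec (fun q : ℕ × List Letter => if VW C S k q.1 q.2 then 3 * q.1 else 2) :=
    Primrec.ite (primrec_VW hC hS k) (Primrec.nat_mul.comp (Primrec.const 3) Primrec.fst)
      (Primrec.const 2)
  have hg : Primrec (fun q : ℕ × ℕ => if q.2 ≤ k then 3 * q.1 + 1 else 2) :=
    Primrec.ite (PrimrecRel.comp Primrec.nat_le Primrec.snd (Primrec.const k))
      (Primrec.succ.comp (Primrec.nat_mul.comp (Primrec.const 3) Primrec.fst))
      (Primrec.const 2)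
  have h : Primrec (fun x : El => (Sum.casesOn x (fun _ => 2) (fun y => Sum.casesOn y
      (fun q => if VW C S k q.1 q.2 then 3 * q.1 else 2)
      (fun q => if q.2 ≤ k then 3 * q.1 + 1 else 2)) : ℕ)) :=
    Primrec.sumCasesOn Primrec.id (Primrec.const 2).to₂
      (Primrec.sumCasesOn Primrec.snd (hv.comp Primrec.snd).to₂ (hg.comp Primrec.snd).to₂).to₂
  refine h.of_eq ?_
  rintro (i | ⟨n, w⟩ | ⟨m, a⟩) <;> rfl

theorem primrec_fSucc : Primrec fSucc := by
  have h : Primrec (fun x : El => (Sum.casesOn x (fun i => lab (i + 1)) (fun _ => lab 0) : El)) :=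
    Primrec.sumCasesOn Primrec.id (primrec_lab.comp (Primrec.succ.comp Primrec.snd)).to₂
      (Primrec.const (lab 0)).to₂
  refine h.of_eq ?_
  rintro (i | x) <;> rfl

theorem primrec_fMul (hC : Primrec (fun p : ℕ × ℕ × ℕ => C p.1 p.2.1 p.2.2)) (hS : Primrec S)
    (k : ℕ) : Primrec₂ (fMul C S k) := by
  have hm : Primrec (fun q : (ℕ × List Letter) × ℕ =>
      if VW C S k q.1.1 q.1.2 ∧ VL C S k q.1.1 (Denumerable.ofNat Letter q.2) = true then
        ver q.1.1 (cc (Denumerable.ofNat Letter q.2) q.1.2) else lab 0) := by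
    have hl : Primrec (fun q : (ℕ × List Letter) × ℕ => Denumerable.ofNat Letter q.2) :=
      (Primrec.ofNat Letter).comp Primrec.snd
    refine Primrec.ite (PrimrecPred.and ((primrec_VW hC hS k).comp Primrec.fst) ?_)
      (primrec_ver.comp (Primrec.fst.comp Primrec.fst)
        (primrec_cc.comp hl (Primrec.snd.comp Primrec.fst))) (Primrec.const (lab 0))
    exact PrimrecRel.comp Primrec.eq
      ((primrec_VL hC hS k).comp (Primrec.fst.comp Primrec.fst) hl) (Primrec.const true)
  have h : Primrec (fun p : El × El => (Sum.casesOn p.1 (fun _ => lab 0) (fun y =>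
      Sum.casesOn y (fun q => Sum.casesOn p.2 (fun c =>
        if VW C S k q.1 q.2 ∧ VL C S k q.1 (Denumerable.ofNat Letter c) = true then
          ver q.1 (cc (Denumerable.ofNat Letter c) q.2) else lab 0) (fun _ => lab 0))
      (fun _ => lab 0)) : El)) := by
    refine Primrec.sumCasesOn Primrec.fst (Primrec.const (lab 0)).to₂
      (Primrec.sumCasesOn Primrec.snd
        (Primrec.sumCasesOn (Primrec.snd.comp (Primrec.fst.comp Primrec.fst))
          (hm.comp (Primrec.pair (Primrec.snd.comp Primrec.fst) Primrec.snd)).to₂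
          (Primrec.const (lab 0)).to₂).to₂ (Primrec.const (lab 0)).to₂).to₂
  refine h.of_eq ?_
  rintro ⟨i | ⟨n, w⟩ | ⟨m, a⟩, j | y⟩ <;> rfl

theorem primrec_fDown (hC : Primrec (fun p : ℕ × ℕ × ℕ => C p.1 p.2.1 p.2.2)) (hS : Primrec S)
    (k : ℕ) : Primrec (fDown C S k) := by
  have hm : Primrec (fun q : ℕ × List Letter => if q.1 = 0 then lab 0 else
      if VW C S k q.1 q.2 then ver q.1.pred (rho 1 q.2) else lab 0) :=
    Primrec.ite (PrimrecRel.comp Primrec.eq Primrec.fst (Primrec.const 0)) (Primrec.const (lab 0))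
      (Primrec.ite (primrec_VW hC hS k) (primrec_ver.comp (Primrec.pred.comp Primrec.fst)
        (primrec_rho.comp (Primrec.const 1) Primrec.snd)) (Primrec.const (lab 0)))
  have h : Primrec (fun x : El => (Sum.casesOn x (fun _ => lab 0) (fun y => Sum.casesOn y
      (fun q => if q.1 = 0 then lab 0 else
        if VW C S k q.1 q.2 then ver q.1.pred (rho 1 q.2) else lab 0)
      (fun _ => lab 0)) : El)) :=
    Primrec.sumCasesOn Primrec.id (Primrec.const (lab 0)).to₂
      (Primrec.sumCasesOn Primrec.snd (hm.comp Primrec.snd).to₂ (Primrec.const (lab 0)).to₂).to₂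
  refine h.of_eq ?_
  rintro (i | ⟨n, w⟩ | ⟨m, a⟩)
  · rfl
  · cases n with
    | zero => rfl
    | succ n => rfl
  · rfl

theorem primrec_fCoord (hC : Primrec (fun p : ℕ × ℕ × ℕ => C p.1 p.2.1 p.2.2)) (hS : Primrec S)
    (k : ℕ) : Primrec₂ (fCoord C S k) := by
  have hm : Primrec (fun q : (ℕ × List Letter) × (ℕ × ℕ) =>
      if q.1.1 = q.2.1 + 1 ∧ VW C S k q.1.1 q.1.2 ∧ q.2.2 ≤ k then
        lab (coord C S k q.2.1 q.1.2 q.2.2) else lab 0) := by
    have h1 : PrimrecPred (fun q : (ℕ × List Letter) × (ℕ × ℕ) => q.1.1 = q.2.1 + 1) :=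
      PrimrecRel.comp Primrec.eq (Primrec.fst.comp Primrec.fst)
        (Primrec.succ.comp (Primrec.fst.comp Primrec.snd))
    have h2 : PrimrecPred (fun q : (ℕ × List Letter) × (ℕ × ℕ) => VW C S k q.1.1 q.1.2) :=
      (primrec_VW hC hS k).comp Primrec.fst
    have h3 : PrimrecPred (fun q : (ℕ × List Letter) × (ℕ × ℕ) => q.2.2 ≤ k) :=
      PrimrecRel.comp Primrec.nat_le (Primrec.snd.comp Primrec.snd) (Primrec.const k)
    have h4 : Primrec (fun q : (ℕ × List Letter) × (ℕ × ℕ) => (q.2.1, q.1.2, q.2.2)) :=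
      Primrec.pair (Primrec.fst.comp Primrec.snd) (Primrec.pair (Primrec.snd.comp Primrec.fst)
        (Primrec.snd.comp Primrec.snd))
    have h5 : Primrec (fun q : (ℕ × List Letter) × (ℕ × ℕ) =>
        lab (coord C S k q.2.1 q.1.2 q.2.2)) :=
      primrec_lab.comp (Primrec.comp
        (f := fun p : ℕ × List Letter × ℕ => coord C S k p.1 p.2.1 p.2.2)
        (g := fun q : (ℕ × List Letter) × (ℕ × ℕ) => (q.2.1, q.1.2, q.2.2))
        (primrec_coord hC hS k) h4)
    have h6 : PrimrecPred (fun q : (ℕ × List Letter) × (ℕ × ℕ) =>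
        VW C S k q.1.1 q.1.2 ∧ q.2.2 ≤ k) := PrimrecPred.and h2 h3
    have h7 : PrimrecPred (fun q : (ℕ × List Letter) × (ℕ × ℕ) =>
        q.1.1 = q.2.1 + 1 ∧ VW C S k q.1.1 q.1.2 ∧ q.2.2 ≤ k) := PrimrecPred.and h1 h6
    exact Primrec.ite h7 h5 (Primrec.const (lab 0))
  have h : Primrec (fun p : El × El => (Sum.casesOn p.1 (fun _ => lab 0) (fun y =>
      Sum.casesOn y (fun q => Sum.casesOn p.2 (fun _ => lab 0) (fun z =>
        Sum.casesOn z (fun _ => lab 0) (fun r =>
          if q.1 = r.1 + 1 ∧ VW C S k q.1 q.2 ∧ r.2 ≤ k then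
            lab (coord C S k r.1 q.2 r.2) else lab 0)))
      (fun _ => lab 0)) : El)) := by
    refine Primrec.sumCasesOn Primrec.fst (Primrec.const (lab 0)).to₂
      (Primrec.sumCasesOn Primrec.snd
        (Primrec.sumCasesOn (Primrec.snd.comp (Primrec.fst.comp Primrec.fst))
          (Primrec.const (lab 0)).to₂
          (Primrec.sumCasesOn Primrec.snd (Primrec.const (lab 0)).to₂
            (hm.comp (Primrec.pair (Primrec.snd.comp (Primrec.fst.comp Primrec.fst))
              Primrec.snd)).to₂).to₂).to₂ (Primrec.const (lab 0)).to₂).to₂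
  refine h.of_eq ?_
  rintro ⟨i | ⟨n, w⟩ | ⟨m, a⟩, j | ⟨n', w'⟩ | ⟨m', a'⟩⟩ <;> rfl

theorem primrec_Phi (hC : Primrec (fun p : ℕ × ℕ × ℕ => C p.1 p.2.1 p.2.2)) (hS : Primrec S)
    (k : ℕ) : Primrec (fun p : El × El × El => Phi C S k p.1 p.2.1 p.2.2) := by
  have hx : Primrec (fun p : (El × El × El) × ℕ => p.1.2.1) :=
    Primrec.fst.comp (Primrec.snd.comp Primrec.fst)
  have hy : Primrec (fun p : (El × El × El) × ℕ => p.1.2.2) :=
    Primrec.snd.comp (Primrec.snd.comp Primrec.fst)
  have he : ∀ j : ℕ, PrimrecPred (fun p : (El × El × El) × ℕ => p.2 = j) := fun j =>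
    PrimrecRel.comp Primrec.eq Primrec.snd (Primrec.const j)
  have hm : Primrec (fun p : (El × El × El) × ℕ =>
      if p.2 = 0 then fSucc p.1.2.1 else
      if p.2 = 1 then lab (idx C S k p.1.2.1) else
      if p.2 = 2 then fMul C S k p.1.2.1 p.1.2.2 else
      if p.2 = 3 then fDown C S k p.1.2.1 else
      if p.2 = 4 then fCoord C S k p.1.2.1 p.1.2.2 else lab 0) :=
    Primrec.ite (he 0) (primrec_fSucc.comp hx)
      (Primrec.ite (he 1) (primrec_lab.comp ((primrec_idx hC hS k).comp hx))
        (Primrec.ite (he 2) ((primrec_fMul hC hS k).comp hx hy)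
          (Primrec.ite (he 3) ((primrec_fDown hC hS k).comp hx)
            (Primrec.ite (he 4) ((primrec_fCoord hC hS k).comp hx hy)
              (Primrec.const (lab 0))))))
  have h : Primrec (fun p : El × El × El => (Sum.casesOn p.1 (fun i =>
      if i = 0 then fSucc p.2.1 else
      if i = 1 then lab (idx C S k p.2.1) else
      if i = 2 then fMul C S k p.2.1 p.2.2 else
      if i = 3 then fDown C S k p.2.1 else
      if i = 4 then fCoord C S k p.2.1 p.2.2 else lab 0) (fun _ => lab 0) : El)) :=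
    Primrec.sumCasesOn Primrec.fst hm.to₂ (Primrec.const (lab 0)).to₂
  refine h.of_eq ?_
  rintro ⟨i | z, x, y⟩
  · rcases i with _ | _ | _ | _ | _ | i <;> rfl
  · rfl

end FDS.Prim
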