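import Mathlib

/-! Computability tools. -/

set_option autoImplicit false

namespace FDS.Tool

open Encodable

variable {α β σ : Type} [Primcodable α] [Primcodable β] [Primcodable σ]

theorem cp_and {p q : α → Prop} (hp : ComputablePred p) (hq : ComputablePred q) :
    ComputablePred fun a => p a ∧ q a := by
  classical
  have h1 := hp.decide
  have h2 := hq.decide
  refine Computable.computablePred ?_
  exact (Primrec.and.to_comp.comp h1 h2).of_eq fun a => by simp

theorem cp_or {p q : α → Prop} (hp : ComputablePred p) (hq : ComputablePred q) :
    ComputablePred fun a => p a ∨ q a := by
  classical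
  have h1 := hp.decide
  have h2 := hq.decide
  refine Computable.computablePred ?_
  exact (Primrec.or.to_comp.comp h1 h2).of_eq fun a => by simp

theorem cp_comp {p : β → Prop} (hp : ComputablePred p) {f : α → β} (hf : Computable f) :
    ComputablePred fun a => p (f a) := by
  classical
  exact Computable.computablePred (hp.decide.comp hf)

/-- equality of two computable functions -/
theorem cp_eq {f g : α → β} (hf : Computable f) (hg : Computable g) :
    ComputablePred fun a => f a = g a := by
  classical
  have h0 : ComputablePred fun x : ℕ × ℕ => x.1 = x.2 := by
    refine Computable.computablePred ?_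
    exact (Primrec.beq.to_comp.comp Computable.fst Computable.snd).of_eq fun x => by
      rw [Bool.eq_iff_iff]; simp
  have h1 : Computable fun a : α => (encode (f a), encode (g a)) :=
    (Computable.encode.comp hf).pair (Computable.encode.comp hg)
  exact (cp_comp h0 h1).of_eq fun a => encode_inj

theorem computable_foldr {f : α → List β} {g : α → σ} {h : α → β × σ → σ} (hf : Computable f)
    (hg : Computable g) (hh : Computable₂ h) :
    Computable fun a => (f a).foldr (fun b s => h a (b, s)) (g a) := by
  have key : ∀ (a : α) (k : ℕ), (Nat.rec (g a) (fun i s =>
      Option.casesOn (((f a).reverse)[i]?) s (fun b => h a (b, s))) k : σ) =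
      (((f a).reverse).take k).foldl (fun s b => h a (b, s)) (g a) := by
    intro a k
    induction k with
    | zero => simp
    | succ k ih =>
      rw [List.take_add_one, List.foldl_append]
      simp only [ih]
      cases h2 : ((f a).reverse)[k]? with
      | none => simp
      | some b => simp
  have hrev : Computable fun a => (f a).reverse := Computable.list_reverse.comp hf
  have hstep : Computable₂ fun (a : α) (p : ℕ × σ) =>
      (Option.casesOn (((f a).reverse)[p.1]?) p.2 (fun b => h a (b, p.2)) : σ) := by
    have h1 : Computable fun x : α × (ℕ × σ) => ((f x.1).reverse)[x.2.1]? :=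
      Computable.list_getElem?.comp (hrev.comp Computable.fst)
        (Computable.fst.comp Computable.snd)
    have h2 : Computable fun x : α × (ℕ × σ) => x.2.2 := Computable.snd.comp Computable.snd
    have h3 : Computable₂ fun (x : α × (ℕ × σ)) (b : β) => h x.1 (b, x.2.2) :=
      hh.comp (Computable.fst.comp Computable.fst)
        (Computable.snd.pair ((Computable.snd.comp Computable.snd).comp Computable.fst))
    exact Computable.option_casesOn h1 h2 h3
  have hlen : Computable fun a => ((f a).reverse).length := Computable.list_length.comp hrev
  refine (Computable.nat_rec hlen hg hstep).of_eq fun a => ?_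
  rw [key a, List.take_length, List.foldl_reverse]

theorem computable_map {f : α → List β} {g : α → β → σ} (hf : Computable f)
    (hg : Computable₂ g) : Computable fun a => (f a).map (g a) := by
  have h : Computable₂ fun (a : α) (p : β × List σ) => g a p.1 :: p.2 :=
    Computable.list_cons.comp (hg.comp Computable.fst (Computable.fst.comp Computable.snd))
      (Computable.snd.comp Computable.snd)
  refine (computable_foldr hf (Computable.const ([] : List σ)) h).of_eq fun a => ?_
  induction f a with
  | nil => rfl
  | cons b l ih => simp only [List.foldr_cons, List.map_cons, ih]

/-- bounded quantification over a computable list -/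
theorem cp_forall_mem {p : α → β → Prop} (hp : ComputablePred fun x : α × β => p x.1 x.2)
    {l : α → List β} (hl : Computable l) : ComputablePred fun a => ∀ b ∈ l a, p a b := by
  classical
  have h1 : Computable₂ fun (a : α) (b : β) => decide (p a b) := hp.decide
  have h : Computable₂ fun (a : α) (q : β × Bool) => (decide (p a q.1) && q.2) :=
    Primrec.and.to_comp.comp (h1.comp Computable.fst (Computable.fst.comp Computable.snd))
      (Computable.snd.comp Computable.snd)
  refine Computable.computablePred ?_
  refine (computable_foldr hl (Computable.const true) h).of_eq fun a => ?_
  induction l a with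
  | nil => simp
  | cons b t ih => simp only [List.foldr_cons, ih, List.forall_mem_cons, Bool.decide_and]

/-- if-then-else on a decidable predicate -/
theorem computable_ite {p : α → Prop} [DecidablePred p] (hp : ComputablePred p) {f g : α → σ}
    (hf : Computable f) (hg : Computable g) : Computable fun a => if p a then f a else g a := by
  refine (Computable.cond hp.decide hf hg).of_eq fun a => ?_
  by_cases h : p a <;> simp [h]

/-- Search: a decidable relation with witnesses has a computable choice function. -/
theorem exists_choice {p : α → β → Prop} (hp : ComputablePred fun x : α × β => p x.1 x.2)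
    (h : ∀ a, ∃ b, p a b) : ∃ f : α → β, Computable f ∧ ∀ a, p a (f a) := by
  classical
  have h1 : Computable₂ fun (a : α) (b : β) => decide (p a b) := hp.decide
  let F : α → ℕ → Option β := fun a n =>
    (decode (α := β) n).bind fun b => bif decide (p a b) then some b else none
  have hF : Computable₂ F := by
    have e1 : Computable fun x : α × ℕ => (decode (α := β) x.2) :=
      Computable.decode.comp Computable.snd
    have e2 : Computable₂ fun (x : α × ℕ) (b : β) =>
        (bif decide (p x.1 b) then some b else none : Option β) :=
      Computable.cond (h1.comp (Computable.fst.comp Computable.fst) Computable.snd)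
        (Computable.option_some.comp Computable.snd) (Computable.const none)
    exact Computable.option_bind e1 e2
  have hdom : ∀ a, (Nat.rfindOpt (F a)).Dom := by
    intro a
    rw [Nat.rfindOpt_dom]
    obtain ⟨b, hb⟩ := h a
    exact ⟨encode b, b, by simp [F, hb]⟩
  refine ⟨fun a => (Nat.rfindOpt (F a)).get (hdom a), ?_, fun a => ?_⟩
  · exact (Partrec.rfindOpt hF).of_eq_tot fun a => Part.get_mem (hdom a)
  · obtain ⟨n, hn⟩ := Nat.rfindOpt_spec (Part.get_mem (hdom a))
    show p a ((Nat.rfindOpt (F a)).get (hdom a))
    generalize (Nat.rfindOpt (F a)).get (hdom a) = c at hn ⊢
    simp only [F, Option.mem_def, Option.bind_eq_some_iff] at hn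
    obtain ⟨b, -, hb⟩ := hn
    by_cases hpb : p a b
    · simp only [hpb, decide_true, cond_true, Option.some.injEq] at hb
      rwa [← hb]
    · simp [hpb] at hb

/-- finitely many values do not matter -/
theorem computable_eventually {f g : ℕ → σ} (hf : Computable f) (N : ℕ)
    (h : ∀ n, N ≤ n → g n = f n) : Computable g := by
  have h1 : Computable fun n : ℕ => ((List.range N).map g)[n]? :=
    Computable.list_getElem?.comp (Computable.const _) Computable.id
  refine (Computable.option_getD h1 hf).of_eq fun n => ?_
  by_cases hn : n < N
  · simp [hn]
  · rw [List.getElem?_eq_none (by simp; omega), Option.getD_none, h n (by omega)]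

end FDS.Tool
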