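import Pool.Agent.FDS.Defs

/-! The tree of nodes: unique path and the categoricity criterion. -/

set_option autoImplicit false
set_option linter.unusedSectionVars false

namespace FDS.Tree

open FDS

variable {C : ℕ → ℕ → ℕ → Bool} {S : List ℕ → Bool} {g : ℕ → ℕ}

/-! ### Accessors -/

def sG (C : ℕ → ℕ → ℕ → Bool) (S : List ℕ → Bool) (ξ : Node) : List ℕ := (st C S ξ).2.2.1
def sv (C : ℕ → ℕ → ℕ → Bool) (S : List ℕ → Bool) (ξ : Node) : List ℕ := (st C S ξ).2.2.2.1
def stm (C : ℕ → ℕ → ℕ → Bool) (S : List ℕ → Bool) (ξ : Node) : ℕ := (st C S ξ).2.2.2.2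

theorem st_cons (x : ℕ × ℕ) (ξ : Node) : st C S (x :: ξ) = nxt C S x (st C S ξ) := rfl

theorem sL_eq (ξ : Node) : (st C S ξ).2.1 = ξ.length := by
  induction ξ with
  | nil => rfl
  | cons x ξ ih =>
    rw [st_cons]
    show (st C S ξ).2.1 + 1 = _
    rw [ih, List.length_cons]

theorem sG_cons (x : ℕ × ℕ) (ξ : Node) : sG C S (x :: ξ) = nG ξ.length (sG C S ξ) x.1 := by
  show nG (st C S ξ).2.1 (st C S ξ).2.2.1 x.1 = _
  rw [sL_eq]
  rfl

theorem sv_cons (x : ℕ × ℕ) (ξ : Node) :
    sv C S (x :: ξ) = nv ξ.length (sG C S ξ) (sv C S ξ) x.1 := by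
  show nv (st C S ξ).2.1 (st C S ξ).2.2.1 (st C S ξ).2.2.2.1 x.1 = _
  rw [sL_eq]
  rfl

theorem stm_cons (x : ℕ × ℕ) (ξ : Node) : stm C S (x :: ξ) = x.2 := rfl

theorem sG_nil : sG C S [] = [] := rfl
theorem sv_nil : sv C S [] = [] := rfl
theorem stm_nil : stm C S [] = 0 := rfl

theorem Tr_nil : Tr C S [] = true := rfl

theorem Tr_cons (x : ℕ × ℕ) (ξ : Node) : Tr C S (x :: ξ) = true ↔
    Tr C S ξ = true ∧ okpay S ξ.length (sG C S ξ) (sv C S ξ) x.1 = true ∧
      good C ξ.length (sG C S ξ) (stm C S ξ) x.1 x.2 = true ∧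
      good C ξ.length (sG C S ξ) (stm C S ξ) x.1 (x.2 - 1) = false ∧
      wok C x.2 (nG ξ.length (sG C S ξ) x.1) = true := by
  have h : Tr C S (x :: ξ) = (Tr C S ξ && okpay S (st C S ξ).2.1 (sG C S ξ) (sv C S ξ) x.1 &&
      (good C (st C S ξ).2.1 (sG C S ξ) (stm C S ξ) x.1 x.2 &&
        !good C (st C S ξ).2.1 (sG C S ξ) (stm C S ξ) x.1 (x.2 - 1) &&
        wok C x.2 (nG (st C S ξ).2.1 (sG C S ξ) x.1))) := rfl
  rw [h, sL_eq]
  simp only [Bool.and_eq_true, Bool.not_eq_true']
  tauto

theorem Tr_tail {x : ℕ × ℕ} {ξ : Node} (h : Tr C S (x :: ξ) = true) : Tr C S ξ = true :=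
  ((Tr_cons x ξ).1 h).1

theorem Tr_append {pre ζ : Node} (h : Tr C S (pre ++ ζ) = true) : Tr C S ζ = true := by
  induction pre with
  | nil => exact h
  | cons x pre ih => exact ih (Tr_tail h)

theorem Tr_drop {ξ : Node} (h : Tr C S ξ = true) (i : ℕ) : Tr C S (ξ.drop i) = true := by
  apply Tr_append (pre := ξ.take i)
  rwa [List.take_append_drop]

/-! ### Lists of decisions -/

theorem fok_iff {n t : ℕ} {G : List ℕ} : fok C n t G = true ↔
    ∀ q G', (q :: G') <:+ G → q = 0 → C G'.length n t = true := by
  induction G with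
  | nil => simp [fok]
  | cons q₀ G ih =>
    unfold fok
    rw [Bool.and_eq_true, ih]
    constructor
    · rintro ⟨h1, h2⟩ q G' hs hq
      rw [List.suffix_cons_iff] at hs
      rcases hs with hs | hs
      · injection hs with e1 e2
        subst e1 e2
        rw [if_pos hq] at h1
        exact h1
      · exact h2 q G' hs hq
    · intro h
      refine ⟨?_, fun q G' hs hq => h q G' (hs.trans (List.suffix_cons _ _)) hq⟩
      split_ifs with hq
      · exact h q₀ G (List.suffix_refl _) hq
      · rfl

theorem wok_iff {t : ℕ} {G : List ℕ} : wok C t G = true ↔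
    ∀ q G', (q :: G') <:+ G → q ≠ 0 → C G'.length (q - 1) t = false := by
  induction G with
  | nil => simp [wok]
  | cons q₀ G ih =>
    unfold wok
    rw [Bool.and_eq_true, ih]
    constructor
    · rintro ⟨h1, h2⟩ q G' hs hq
      rw [List.suffix_cons_iff] at hs
      rcases hs with hs | hs
      · injection hs with e1 e2
        subst e1 e2
        rw [if_neg hq] at h1
        simpa using h1
      · exact h2 q G' hs hq
    · intro h
      refine ⟨?_, fun q G' hs hq => h q G' (hs.trans (List.suffix_cons _ _)) hq⟩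
      split_ifs with hq
      · rfl
      · rw [h q₀ G (List.suffix_refl _) hq]
        rfl

theorem nG_stem {L p : ℕ} {G : List ℕ} (h : L < G.headI) : nG L G p = G := by
  unfold nG inStem
  rw [if_pos (decide_eq_true h)]

theorem nG_dec {L p : ℕ} {G : List ℕ} (h : ¬ L < G.headI) : nG L G p = (pay p).1 :: G := by
  unfold nG inStem
  rw [if_neg (by simpa using h)]

theorem nv_stem {L p : ℕ} {G v : List ℕ} (h : L < G.headI) : nv L G v p = v := by
  unfold nv inStem
  rw [if_pos (decide_eq_true h)]

theorem nv_dec {L p : ℕ} {G v : List ℕ} (h : ¬ L < G.headI) : nv L G v p = (pay p).2 ++ v := by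
  unfold nv inStem
  rw [if_neg (by simpa using h)]

theorem okpay_stem {L p : ℕ} {G v : List ℕ} (h : L < G.headI) :
    okpay S L G v p = true ↔ p = 0 := by
  unfold okpay inStem
  rw [if_pos (decide_eq_true h)]
  exact decide_eq_true_iff

theorem okpay_dec {L p : ℕ} {G v : List ℕ} (h : ¬ L < G.headI) :
    okpay S L G v p = true ↔
      ((pay p).2 ++ v).length = max (max v.length (L + 1)) (pay p).1 ∧
        S ((pay p).2 ++ v) = true := by
  unfold okpay
  have h1 : inStem L G = false := by
    unfold inStem
    exact decide_eq_false h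
  rw [h1, nv_dec h]
  simp

theorem suffix_nG (L p : ℕ) (G : List ℕ) : G <:+ nG L G p := by
  unfold nG
  split_ifs
  · exact List.suffix_refl _
  · exact List.suffix_cons _ _

theorem suffix_nv (L p : ℕ) (G v : List ℕ) : v <:+ nv L G v p := by
  unfold nv
  split_ifs
  · exact List.suffix_refl _
  · exact List.suffix_append _ _

theorem sG_suffix (pre ζ : Node) : sG C S ζ <:+ sG C S (pre ++ ζ) := by
  induction pre with
  | nil => exact List.suffix_refl _
  | cons x pre ih =>
    rw [List.cons_append, sG_cons]
    exact ih.trans (suffix_nG _ _ _)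

theorem sG_drop (ξ : Node) (i : ℕ) : sG C S (ξ.drop i) <:+ sG C S ξ := by
  have := sG_suffix (C := C) (S := S) (ξ.take i) (ξ.drop i)
  rwa [List.take_append_drop] at this

theorem sv_suffix (pre ζ : Node) : sv C S ζ <:+ sv C S (pre ++ ζ) := by
  induction pre with
  | nil => exact List.suffix_refl _
  | cons x pre ih =>
    rw [List.cons_append, sv_cons]
    exact ih.trans (suffix_nv _ _ _ _)

/-! ### Facts on valid nodes -/

theorem good_iff {L t p t' : ℕ} {G : List ℕ} : good C L G t p t' = true ↔
    t < t' ∧ fok C (L + 1) t' (nG L G p) = true ∧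
      (L < G.headI ∨ (pay p).1 < 2 ∨ C G.length ((pay p).1 - 2) t' = true) := by
  unfold good inStem
  simp only [Bool.and_eq_true, Bool.or_eq_true, decide_eq_true_eq]
  tauto

theorem good_mono (hy : Hyp C S g) {L t p t₁ t₂ : ℕ} {G : List ℕ} (h : t₁ ≤ t₂)
    (h1 : good C L G t p t₁ = true) : good C L G t p t₂ = true := by
  rw [good_iff] at *
  obtain ⟨a, b, c⟩ := h1
  refine ⟨lt_of_lt_of_le a h, ?_, ?_⟩
  · rw [fok_iff] at *
    intro q G' hs hq
    exact hy.cmono _ _ _ _ h (b q G' hs hq)
  · rcases c with c | c | c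
    · exact Or.inl c
    · exact Or.inr (Or.inl c)
    · exact Or.inr (Or.inr (hy.cmono _ _ _ _ h c))

theorem time_unique (hy : Hyp C S g) {L t p t₁ t₂ : ℕ} {G : List ℕ}
    (h1 : good C L G t p t₁ = true) (h1' : good C L G t p (t₁ - 1) = false)
    (h2 : good C L G t p t₂ = true) (h2' : good C L G t p (t₂ - 1) = false) : t₁ = t₂ := by
  rcases lt_trichotomy t₁ t₂ with h | h | h
  · exfalso
    have := good_mono hy (show t₁ ≤ t₂ - 1 by omega) h1
    rw [h2'] at this
    exact Bool.false_ne_true this
  · exact h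
  · exfalso
    have := good_mono hy (show t₂ ≤ t₁ - 1 by omega) h2
    rw [h1'] at this
    exact Bool.false_ne_true this

theorem stm_mono {x : ℕ × ℕ} {ξ : Node} (h : Tr C S (x :: ξ) = true) : stm C S ξ < x.2 := by
  have := ((Tr_cons x ξ).1 h).2.2.1
  rw [good_iff] at this
  exact this.1

theorem length_le_stm {ξ : Node} (h : Tr C S ξ = true) : ξ.length ≤ stm C S ξ := by
  induction ξ with
  | nil => exact le_rfl
  | cons x ξ ih =>
    have h1 := ih (Tr_tail h)
    have h2 := stm_mono h
    rw [stm_cons, List.length_cons]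
    omega

theorem values {ξ : Node} (h : Tr C S ξ = true) (hS : S [] = true) :
    ξ.length ≤ (sv C S ξ).length ∧ (sG C S ξ).headI ≤ (sv C S ξ).length ∧
      S (sv C S ξ) = true := by
  induction ξ with
  | nil => exact ⟨le_rfl, le_rfl, hS⟩
  | cons x ξ ih =>
    obtain ⟨h1, h2, h3⟩ := ih (Tr_tail h)
    obtain ⟨-, h4, -⟩ := (Tr_cons x ξ).1 h
    rw [sv_cons, sG_cons, List.length_cons]
    by_cases hst : ξ.length < (sG C S ξ).headI
    · rw [nv_stem hst, nG_stem hst]
      exact ⟨by omega, h2, h3⟩
    · rw [nv_dec hst, nG_dec hst]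
      rw [okpay_dec hst] at h4
      obtain ⟨h5, h6⟩ := h4
      refine ⟨?_, ?_, h6⟩
      · rw [h5]
        omega
      · rw [h5]
        show (pay x.1).1 ≤ _
        omega

theorem fok_node {ξ : Node} (h : Tr C S ξ = true) (hne : ξ ≠ []) :
    fok C ξ.length (stm C S ξ) (sG C S ξ) = true := by
  cases ξ with
  | nil => exact absurd rfl hne
  | cons x ξ =>
    obtain ⟨-, -, h3, -⟩ := (Tr_cons x ξ).1 h
    rw [good_iff] at h3
    rw [sG_cons]
    exact h3.2.1

theorem wok_node {ξ : Node} (h : Tr C S ξ = true) : wok C (stm C S ξ) (sG C S ξ) = true := by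
  cases ξ with
  | nil => rfl
  | cons x ξ =>
    obtain ⟨-, -, -, -, h5⟩ := (Tr_cons x ξ).1 h
    rw [sG_cons]
    exact h5

theorem seen_node (hy : Hyp C S g) {ξ : Node} (h : Tr C S ξ = true) :
    ∀ q G', (q :: G') <:+ sG C S ξ → 2 ≤ q → C G'.length (q - 2) (stm C S ξ) = true := by
  induction ξ with
  | nil =>
    intro q G' hs
    rw [sG_nil] at hs
    simp at hs
  | cons x ξ ih =>
    intro q G' hs hq
    have hlt := stm_mono h
    rw [sG_cons] at hs
    by_cases hst : ξ.length < (sG C S ξ).headI
    · rw [nG_stem hst] at hs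
      exact hy.cmono _ _ _ _ hlt.le (ih (Tr_tail h) q G' hs hq)
    · rw [nG_dec hst, List.suffix_cons_iff] at hs
      rcases hs with hs | hs
      · injection hs with e1 e2
        obtain ⟨-, -, h3, -⟩ := (Tr_cons x ξ).1 h
        rw [good_iff] at h3
        rcases h3.2.2 with c | c | c
        · exact absurd c hst
        · omega
        · rw [e1, e2]
          exact c
      · exact hy.cmono _ _ _ _ hlt.le (ih (Tr_tail h) q G' hs hq)

/-! ### Stems -/

theorem stem_G (pre ζ : Node) (h : (pre ++ ζ).length ≤ (sG C S ζ).headI) :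
    sG C S (pre ++ ζ) = sG C S ζ := by
  induction pre with
  | nil => rfl
  | cons x pre ih =>
    rw [List.cons_append, List.length_cons] at h
    have h1 := ih (by omega)
    rw [List.cons_append, sG_cons, nG_stem, h1]
    rw [h1]
    omega

theorem stem_unique (hy : Hyp C S g) (ζ : Node) : ∀ (pre pre' : Node),
    pre.length = pre'.length → (pre ++ ζ).length ≤ (sG C S ζ).headI →
    Tr C S (pre ++ ζ) = true → Tr C S (pre' ++ ζ) = true → pre = pre' := by
  intro pre
  induction pre with
  | nil =>
    intro pre' h _ _ _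
    exact (List.length_eq_zero_iff.1 h.symm).symm
  | cons x pre ih =>
    intro pre' h hl h1 h2
    cases pre' with
    | nil => simp at h
    | cons x' pre' =>
      rw [List.length_cons, List.length_cons] at h
      rw [List.cons_append, List.length_cons] at hl
      have heq : pre = pre' := ih pre' (by omega) (by omega) (Tr_tail h1) (Tr_tail h2)
      subst heq
      have hst : (pre ++ ζ).length < (sG C S (pre ++ ζ)).headI := by
        rw [stem_G pre ζ (by omega)]
        omega
      rw [List.cons_append] at h1 h2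
      obtain ⟨-, a2, a3, a4, -⟩ := (Tr_cons x _).1 h1
      obtain ⟨-, b2, b3, b4, -⟩ := (Tr_cons x' _).1 h2
      rw [okpay_stem hst] at a2 b2
      rw [a2] at a3 a4
      rw [b2] at b3 b4
      have ht : x.2 = x'.2 := time_unique hy a3 a4 b3 b4
      have hx : x = x' := Prod.ext (a2.trans b2.symm) ht
      rw [hx]

/-! ### True statuses -/

open Classical in
/-- `0` if `e` is total, otherwise `m + 1` for the least `m` at which `e` never converges -/
noncomputable def qs (C : ℕ → ℕ → ℕ → Bool) (e : ℕ) : ℕ :=
  if h : ∃ n, ∀ t, C e n t = false then Nat.find h + 1 else 0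

theorem qs_zero {e : ℕ} : qs C e = 0 ↔ ∀ n, ∃ t, C e n t = true := by
  unfold qs
  split_ifs with h
  · constructor
    · intro h1
      exact absurd h1 (by simp)
    · intro h1
      obtain ⟨n, hn⟩ := h
      obtain ⟨t, ht⟩ := h1 n
      rw [hn t] at ht
      exact absurd ht Bool.false_ne_true
  · push Not at h
    constructor
    · intro _ n
      obtain ⟨t, ht⟩ := h n
      exact ⟨t, by simpa using ht⟩
    · intro _
      rfl

theorem qs_succ {e m : ℕ} (h : qs C e = m + 1) : ∀ t, C e m t = false := by
  classical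
  unfold qs at h
  split_ifs at h with h1
  have := Nat.find_spec h1
  have e1 : Nat.find h1 = m := by omega
  rw [e1] at this
  exact this

theorem qs_seen {e m : ℕ} (h : qs C e = m + 1) {n : ℕ} (hn : n < m) :
    ∃ t, C e n t = true := by
  classical
  unfold qs at h
  split_ifs at h with h1
  have e1 : Nat.find h1 = m := by omega
  have := Nat.find_min h1 (m := n) (by omega)
  push Not at this
  obtain ⟨t, ht⟩ := this
  exact ⟨t, by simpa using ht⟩

theorem qs_unique {e m : ℕ} (h1 : ∀ t, C e m t = false)
    (h2 : ∀ n, n < m → ∃ t, C e n t = true) : qs C e = m + 1 := by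
  classical
  have hex : ∃ n, ∀ t, C e n t = false := ⟨m, h1⟩
  unfold qs
  rw [dif_pos hex]
  congr 1
  rw [Nat.find_eq_iff]
  refine ⟨h1, ?_⟩
  intro n hn hc
  obtain ⟨t, ht⟩ := h2 n hn
  rw [hc t] at ht
  exact Bool.false_ne_true ht

/-- level of the `r`-th true decision -/
noncomputable def lv (C : ℕ → ℕ → ℕ → Bool) : ℕ → ℕ
  | 0 => 0
  | r + 1 => max (lv C r + 1) (qs C r)

theorem lv_lt (r : ℕ) : lv C r < lv C (r + 1) := by
  show lv C r < max (lv C r + 1) (qs C r)
  omega

theorem lv_mono {r r' : ℕ} (h : r ≤ r') : lv C r ≤ lv C r' :=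
  monotone_nat_of_le_succ (fun n => (lv_lt n).le) h

theorem gl_length (h : ℕ → ℕ) (n : ℕ) : (gl h n).length = n := by
  induction n with
  | zero => rfl
  | succ n ih => show (h n :: gl h n).length = _; rw [List.length_cons, ih]

theorem headI_gl_le (r : ℕ) : (gl (qs C) r).headI ≤ lv C r := by
  cases r with
  | zero => exact le_rfl
  | succ r =>
    show qs C r ≤ max (lv C r + 1) (qs C r)
    omega

/-- classification of nodes at the levels of the true decisions -/
theorem classify (r : ℕ) : ∀ ξ : Node, ξ.length = lv C r →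
    sG C S ξ = gl (qs C) r ∨ ∃ r', r' < r ∧ ∃ q, q ≠ qs C r' ∧
      sG C S (ξ.drop (ξ.length - (lv C r' + 1))) = q :: gl (qs C) r' := by
  induction r with
  | zero =>
    intro ξ h
    left
    have : ξ = [] := List.length_eq_zero_iff.1 h
    rw [this]
    rfl
  | succ r ih =>
    intro ξ h
    have hlt : lv C r < ξ.length := by rw [h]; exact lv_lt r
    -- restriction to the level `lv r`
    set ζ := ξ.drop (ξ.length - lv C r) with hζ
    have hζl : ζ.length = lv C r := by
      rw [hζ, List.length_drop]
      omega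
    -- restriction to the level `lv r + 1`
    set τ := ξ.drop (ξ.length - (lv C r + 1)) with hτ
    have hτl : τ.length = lv C r + 1 := by
      rw [hτ, List.length_drop]
      omega
    have hτζ : τ.tail = ζ := by
      rw [hτ, hζ, List.tail_drop]
      congr 1
      omega
    obtain ⟨x, hx⟩ : ∃ x, τ = x :: ζ := by
      cases hτ' : τ with
      | nil => rw [hτ'] at hτl; simp at hτl
      | cons x τ' =>
        rw [hτ'] at hτζ
        exact ⟨x, by rw [← hτζ]; rfl⟩
    rcases ih ζ hζl with h1 | ⟨r', hr', q, hq, h2⟩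
    · have hns : ¬ ζ.length < (sG C S ζ).headI := by
        rw [h1, hζl, not_lt]
        exact headI_gl_le r
      have hτG : sG C S τ = (pay x.1).1 :: gl (qs C) r := by
        rw [hx, sG_cons, nG_dec hns, h1]
      by_cases hq : (pay x.1).1 = qs C r
      · left
        have hξ : ξ = ξ.take (ξ.length - (lv C r + 1)) ++ τ := (List.take_append_drop _ _).symm
        have hst : (ξ.take (ξ.length - (lv C r + 1)) ++ τ).length ≤ (sG C S τ).headI ∨
            ξ = τ := by
          by_cases hc : qs C r ≤ lv C r + 1
          · right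
            have hl : lv C (r + 1) = lv C r + 1 := by
              show max (lv C r + 1) (qs C r) = _
              omega
            rw [hτ, h, hl, Nat.sub_self, List.drop_zero]
          · left
            rw [← hξ, hτG, h]
            show max (lv C r + 1) (qs C r) ≤ (pay x.1).1
            omega
        rcases hst with hst | hst
        · rw [hξ, stem_G _ _ hst, hτG, hq]
          rfl
        · rw [hst, hτG, hq]
          rfl
      · right
        exact ⟨r, Nat.lt_succ_self r, _, hq, hτG⟩
    · right
      refine ⟨r', hr'.trans (Nat.lt_succ_self r), q, hq, ?_⟩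
      rw [← h2, hζ, List.drop_drop, List.length_drop]
      congr 2
      have : lv C r' + 1 ≤ lv C r := lv_lt r' |>.trans_le (lv_mono hr')
      omega

/-- classification one level after the `r`-th decision -/
theorem classify_succ (r : ℕ) (ξ : Node) (h : lv C r + 1 ≤ ξ.length) :
    sG C S (ξ.drop (ξ.length - (lv C r + 1))) = gl (qs C) (r + 1) ∨
      ∃ r', r' ≤ r ∧ ∃ q, q ≠ qs C r' ∧
        sG C S (ξ.drop (ξ.length - (lv C r' + 1))) = q :: gl (qs C) r' := by
  set ζ := ξ.drop (ξ.length - lv C r) with hζ
  have hζl : ζ.length = lv C r := by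
    rw [hζ, List.length_drop]
    omega
  set τ := ξ.drop (ξ.length - (lv C r + 1)) with hτ
  have hτl : τ.length = lv C r + 1 := by
    rw [hτ, List.length_drop]
    omega
  have hτζ : τ.tail = ζ := by
    rw [hτ, hζ, List.tail_drop]
    congr 1
    omega
  obtain ⟨x, hx⟩ : ∃ x, τ = x :: ζ := by
    cases hτ' : τ with
    | nil => rw [hτ'] at hτl; simp at hτl
    | cons x τ' =>
      rw [hτ'] at hτζ
      exact ⟨x, by rw [← hτζ]; rfl⟩
  rcases classify (C := C) (S := S) r ζ hζl with h1 | ⟨r', hr', q, hq, h2⟩
  · have hns : ¬ ζ.length < (sG C S ζ).headI := by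
      rw [h1, hζl, not_lt]
      exact headI_gl_le r
    have hτG : sG C S τ = (pay x.1).1 :: gl (qs C) r := by
      rw [hx, sG_cons, nG_dec hns, h1]
    by_cases hq : (pay x.1).1 = qs C r
    · left
      rw [hτG, hq]
      rfl
    · right
      exact ⟨r, le_rfl, _, hq, hτG⟩
  · right
    refine ⟨r', hr'.le, q, hq, ?_⟩
    rw [← h2, hζ, List.drop_drop, List.length_drop]
    congr 2
    have : lv C r' + 1 ≤ lv C r := lv_lt r' |>.trans_le (lv_mono hr')
    omega

/-! ### The criterion -/

theorem criterion_tree (hy : Hyp C S g) (e : ℕ) (he : ∀ n, ∃ t, C e n t = true) :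
    ∃ (B : ℕ) (Gs : List ℕ) (K₀ : ℕ) (E : List ℕ),
      (∀ r ∈ E, ∀ n, ∃ t, C r n t = true) ∧
      (∀ n, B + 1 ≤ n → ∀ ξ : Node, Tr C S ξ = true → ξ.length = n →
        sG C S (ξ.drop (n - (B + 1))) = Gs → C e n (stm C S ξ) = true) ∧
      (∀ n K, B + 1 ≤ n → n ≤ K → K₀ ≤ K → (∀ r ∈ E, C r n K = true) →
        ∀ ξ ξ' : Node, Tr C S ξ = true → Tr C S ξ' = true → ξ.length = K → ξ'.length = K →
          sG C S (ξ.drop (K - (B + 1))) ≠ Gs → sG C S (ξ'.drop (K - (B + 1))) ≠ Gs →
          ξ.drop (K - (B + 1)) = ξ'.drop (K - (B + 1)) → ξ.drop (K - n) = ξ'.drop (K - n)) := by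
  -- constants for the stuck indices
  have hconst : ∀ r, ∃ k, (∀ m, qs C r = m + 1 → m < k) ∧
      ∀ m, qs C r = m + 2 → C r m k = true := by
    intro r
    rcases hqr : qs C r with _ | _ | m
    · exact ⟨0, by intro m h; omega, by intro m h; omega⟩
    · exact ⟨1, by intro m h; omega, by intro m h; omega⟩
    · obtain ⟨t, ht⟩ := qs_seen hqr (n := m) (by omega)
      refine ⟨t + m + 2, by intro m' h; omega, ?_⟩
      intro m' h
      have : m' = m := by omega
      subst this
      exact hy.cmono _ _ _ _ (by omega) ht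
  choose kc hkc1 hkc2 using hconst
  refine ⟨lv C e, gl (qs C) (e + 1), ((List.range (e + 1)).map kc).sum,
    (List.range (e + 1)).filter (fun r => decide (qs C r = 0)), ?_, ?_, ?_⟩
  · intro r hr
    rw [List.mem_filter] at hr
    exact qs_zero.1 (by simpa using hr.2)
  · intro n hn ξ hξ hl hG
    have hsuf : gl (qs C) (e + 1) <:+ sG C S ξ := by
      rw [← hG]
      exact sG_drop ξ _
    have hne : ξ ≠ [] := by
      rintro rfl
      simp at hl
      omega
    have h1 := fok_node hξ hne
    rw [fok_iff] at h1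
    have h2 := h1 (qs C e) (gl (qs C) e) hsuf (qs_zero.2 he)
    rw [gl_length, hl] at h2
    exact h2
  · intro n K hn hnK hK₀ hE ξ ξ' hξ hξ' hl hl' hG hG' heq
    have hkcle : ∀ r, r ≤ e → kc r ≤ K := by
      intro r hr
      refine le_trans (List.single_le_sum (by simp) _ ?_) hK₀
      exact List.mem_map.2 ⟨r, List.mem_range.2 (by omega), rfl⟩
    have hcl := classify_succ (C := C) (S := S) e ξ (by omega)
    rw [hl] at hcl
    rcases hcl with hcl | ⟨r, hr, q, hq, h1⟩
    · exact absurd hcl hG
    have hlvr : lv C r ≤ lv C e := lv_mono hr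
    -- the creation node
    set τ := ξ.drop (K - (lv C r + 1)) with hτ
    have hsuf : (q :: gl (qs C) r) <:+ sG C S ξ := by
      rw [← h1]
      exact sG_drop ξ _
    have htK : K ≤ stm C S ξ := by
      rw [← hl]
      exact length_le_stm hξ
    have hlen : (gl (qs C) r).length = r := gl_length _ _
    have hne : ξ ≠ [] := by
      rintro rfl
      simp at hl
      omega
    have hqn : n < q := by
      by_contra hcon
      rw [not_lt] at hcon
      rcases Nat.eq_zero_or_pos q with h0 | hpos
      · -- `q = 0`, `r` is stuck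
        have h2 := fok_node hξ hne
        rw [fok_iff] at h2
        have h3 := h2 q _ hsuf h0
        rw [hlen, hl] at h3
        rcases hqr : qs C r with _ | m
        · rw [hqr] at hq
          exact hq h0
        · have h4 := hy.canti _ _ m _ (by have := hkc1 r m hqr; have := hkcle r hr; omega) h3
          rw [qs_succ hqr] at h4
          exact Bool.false_ne_true h4
      · have h2 := wok_node hξ
        rw [wok_iff] at h2
        have h3 := h2 q _ hsuf (by omega)
        rw [hlen] at h3
        rcases hqr : qs C r with _ | m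
        · -- total
          have h4 := hE r (by
            rw [List.mem_filter]
            exact ⟨List.mem_range.2 (by omega), by simpa using hqr⟩)
          have h5 := hy.canti _ _ (q - 1) _ (by omega) (hy.cmono _ _ _ _ htK h4)
          rw [h3] at h5
          exact Bool.false_ne_true h5
        · rcases lt_trichotomy (q - 1) m with h | h | h
          · -- killed
            have hm : ∃ m', m = m' + 1 := ⟨m - 1, by omega⟩
            obtain ⟨m', rfl⟩ := hm
            have h4 := hkc2 r m' hqr
            have h5 := hy.canti _ _ (q - 1) _ (by omega)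
              (hy.cmono _ _ _ _ ((hkcle r hr).trans htK) h4)
            rw [h3] at h5
            exact Bool.false_ne_true h5
          · apply hq
            rw [hqr]
            omega
          · -- not seen
            have h4 := seen_node hy hξ q _ hsuf (by omega)
            rw [hlen] at h4
            have h5 := hy.canti _ _ m _ (by omega) h4
            rw [qs_succ hqr] at h5
            exact Bool.false_ne_true h5
    -- both restrictions extend `τ`
    have hτ' : τ = ξ'.drop (K - (lv C r + 1)) := by
      have e1 : K - (lv C r + 1) = (K - (lv C e + 1)) + (lv C e - lv C r) := by omega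
      rw [hτ, e1, ← List.drop_drop, ← List.drop_drop, heq]
    have e2 : K - (lv C r + 1) = (K - n) + (n - (lv C r + 1)) := by omega
    set η := ξ.drop (K - n) with hη
    set η' := ξ'.drop (K - n) with hη'
    have hηl : η.length = n := by
      rw [hη, List.length_drop]
      omega
    have hηl' : η'.length = n := by
      rw [hη', List.length_drop]
      omega
    have h4 : η.drop (n - (lv C r + 1)) = τ := by
      rw [hη, hτ, List.drop_drop, ← e2]
    have h4' : η'.drop (n - (lv C r + 1)) = τ := by
      rw [hη', hτ', List.drop_drop, ← e2]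
    have h5 : η.take (n - (lv C r + 1)) ++ τ = η := by
      rw [← h4]
      exact List.take_append_drop _ _
    have h5' : η'.take (n - (lv C r + 1)) ++ τ = η' := by
      rw [← h4']
      exact List.take_append_drop _ _
    have h6 := stem_unique hy τ (η.take (n - (lv C r + 1))) (η'.take (n - (lv C r + 1)))
      (by rw [List.length_take, List.length_take, hηl, hηl'])
      (by rw [h5, hηl, h1]; exact hqn.le)
      (by rw [h5]; exact Tr_drop hξ _) (by rw [h5']; exact Tr_drop hξ' _)
    rw [← h5, ← h5', h6]

/-! ### The path -/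

theorem gl_suffix (h : ℕ → ℕ) {n m : ℕ} (hnm : n ≤ m) : gl h n <:+ gl h m := by
  induction m with
  | zero =>
    have : n = 0 := by omega
    subst this
    exact List.suffix_refl _
  | succ m ih =>
    rcases Nat.lt_or_ge m n with h1 | h1
    · have : n = m + 1 := by omega
      subst this
      exact List.suffix_refl _
    · exact (ih h1).trans (List.suffix_cons _ _)

theorem mem_suffix_gl (h : ℕ → ℕ) (r : ℕ) {q : ℕ} {G' : List ℕ} (hs : (q :: G') <:+ gl h r) :
    q = h G'.length ∧ G' = gl h G'.length ∧ G'.length < r := by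
  induction r with
  | zero => simp [gl] at hs
  | succ r ih =>
    rw [show gl h (r + 1) = h r :: gl h r from rfl, List.suffix_cons_iff] at hs
    rcases hs with hs | hs
    · injection hs with e1 e2
      subst e2
      rw [gl_length]
      exact ⟨e1, rfl, Nat.lt_succ_self r⟩
    · obtain ⟨a, b, c⟩ := ih hs
      exact ⟨a, b, by omega⟩

theorem gl_getD (h : ℕ → ℕ) (n : ℕ) {m : ℕ} (hm : m < n) : (gl h n).reverse.getD m 0 = h m := by
  induction n with
  | zero => omega
  | succ n ih =>
    rw [show gl h (n + 1) = h n :: gl h n from rfl, List.reverse_cons]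
    rcases Nat.lt_or_ge m n with h1 | h1
    · rw [List.getD_append _ _ _ _ (by rw [List.length_reverse, gl_length]; exact h1)]
      exact ih h1
    · have : m = n := by omega
      subst this
      rw [List.getD_append_right _ _ _ _ (by rw [List.length_reverse, gl_length])]
      rw [List.length_reverse, gl_length]
      simp

theorem bounded_time (hy : Hyp C S g) (n : ℕ) (r : ℕ) :
    ∃ t, ∀ i, i < r → qs C i = 0 → C i n t = true := by
  induction r with
  | zero => exact ⟨0, fun i hi => by omega⟩
  | succ r ih =>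
    obtain ⟨t, ht⟩ := ih
    by_cases hr : qs C r = 0
    · obtain ⟨t', ht'⟩ := qs_zero.1 hr n
      refine ⟨max t t', fun i hi hq => ?_⟩
      rcases Nat.lt_or_ge i r with h | h
      · exact hy.cmono _ _ _ _ (le_max_left _ _) (ht i h hq)
      · have : i = r := by omega
        subst this
        exact hy.cmono _ _ _ _ (le_max_right _ _) ht'
    · refine ⟨t, fun i hi hq => ?_⟩
      rcases Nat.lt_or_ge i r with h | h
      · exact ht i h hq
      · have : i = r := by omega
        subst this
        exact absurd hq hr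

theorem wok_true (r t : ℕ) : wok C t (gl (qs C) r) = true := by
  rw [wok_iff]
  intro q G' hs hq
  obtain ⟨a, -, -⟩ := mem_suffix_gl _ _ hs
  rcases hm : q with _ | m
  · exact absurd hm hq
  · rw [hm] at a
    exact qs_succ a.symm t

/-- one correct step -/
theorem step_exists (hy : Hyp C S g) (ζ : Node) (hT : Tr C S ζ = true)
    (hG : ∃ r, sG C S ζ = gl (qs C) r) (hv : ∃ N, sv C S ζ = gl g N) :
    ∃ x, Tr C S (x :: ζ) = true ∧ (∃ r, sG C S (x :: ζ) = gl (qs C) r) ∧
      ∃ N, sv C S (x :: ζ) = gl g N := by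
  obtain ⟨r, hr⟩ := hG
  obtain ⟨N, hN⟩ := hv
  -- the payload
  obtain ⟨p, r', hp, hG', hN', hthird⟩ : ∃ p r', okpay S ζ.length (sG C S ζ) (sv C S ζ) p = true ∧
      nG ζ.length (sG C S ζ) p = gl (qs C) r' ∧
      (∃ N', nv ζ.length (sG C S ζ) (sv C S ζ) p = gl g N') ∧
      ∃ t₀, ∀ t, t₀ ≤ t → (ζ.length < (sG C S ζ).headI ∨ (pay p).1 < 2 ∨
        C (sG C S ζ).length ((pay p).1 - 2) t = true) := by
    by_cases hst : ζ.length < (sG C S ζ).headI
    · refine ⟨0, r, (okpay_stem hst).2 rfl, ?_, ⟨N, ?_⟩, 0, fun t _ => Or.inl hst⟩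
      · rw [nG_stem hst, hr]
      · rw [nv_stem hst, hN]
    · set N' := max (max N (ζ.length + 1)) (qs C r) with hN'
      have hNN' : N ≤ N' := by omega
      obtain ⟨u, hu⟩ := gl_suffix g hNN'
      set p := Encodable.encode (qs C r, u) with hp
      have hpay : pay p = (qs C r, u) := by
        unfold pay
        rw [hp]
        exact Denumerable.ofNat_encode _
      refine ⟨p, r + 1, ?_, ?_, ⟨N', ?_⟩, ?_⟩
      · rw [okpay_dec hst, hpay, hN, gl_length]
        refine ⟨?_, ?_⟩
        · show (u ++ gl g N).length = _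
          rw [hu, gl_length]
        · show S (u ++ gl g N) = true
          rw [hu]
          exact hy.spath N'
      · rw [nG_dec hst, hpay, hr]
        rfl
      · rw [nv_dec hst, hpay, hN]
        exact hu
      · rw [hpay, hr, gl_length]
        rcases hq : qs C r with _ | _ | m
        · exact ⟨0, fun t _ => Or.inr (Or.inl (by show (0 : ℕ) < 2; omega))⟩
        · exact ⟨0, fun t _ => Or.inr (Or.inl (by show (0 + 1 : ℕ) < 2; omega))⟩
        · obtain ⟨t, ht⟩ := qs_seen hq (n := m) (by omega)
          refine ⟨t, fun t' ht' => Or.inr (Or.inr ?_)⟩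
          exact hy.cmono _ _ _ _ ht' ht
  obtain ⟨t₀, ht₀⟩ := hthird
  obtain ⟨t₁, ht₁⟩ := bounded_time hy (ζ.length + 1) r'
  have hex : ∃ t, good C ζ.length (sG C S ζ) (stm C S ζ) p t = true := by
    refine ⟨max (max t₀ t₁) (stm C S ζ + 1), ?_⟩
    rw [good_iff]
    refine ⟨by omega, ?_, ht₀ _ (by omega)⟩
    rw [hG', fok_iff]
    intro q G'' hs hq
    obtain ⟨a, b, c⟩ := mem_suffix_gl _ _ hs
    exact hy.cmono _ _ _ _ (by omega) (ht₁ _ c (by rw [← a]; exact hq))
  classical
  obtain ⟨N'', hN''⟩ := hN'
  refine ⟨(p, Nat.find hex), ?_, ⟨r', ?_⟩, N'', ?_⟩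
  · rw [Tr_cons]
    refine ⟨hT, hp, Nat.find_spec hex, ?_, ?_⟩
    · have hpos : 0 < Nat.find hex := by
        have := Nat.find_spec hex
        rw [good_iff] at this
        omega
      have := Nat.find_min hex (m := Nat.find hex - 1) (by omega)
      simpa using this
    · show wok C (Nat.find hex) (nG ζ.length (sG C S ζ) p) = true
      rw [hG']
      exact wok_true _ _
  · rw [sG_cons]
    exact hG'
  · rw [sv_cons]
    exact hN''

/-- being a path -/
def IsPath (C : ℕ → ℕ → ℕ → Bool) (S : List ℕ → Bool) (f : ℕ → Node) : Prop :=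
  ∀ n, (f n).length = n ∧ Tr C S (f n) = true ∧ (f (n + 1)).tail = f n

theorem path_cons {f : ℕ → Node} (hf : IsPath C S f) (n : ℕ) : ∃ x, f (n + 1) = x :: f n := by
  have h1 := (hf (n + 1)).1
  have h2 := (hf n).2.2
  cases hx : f (n + 1) with
  | nil => rw [hx] at h1; simp at h1
  | cons x l =>
    rw [hx] at h2
    exact ⟨x, by rw [← h2]; rfl⟩

theorem path_suffix {f : ℕ → Node} (hf : IsPath C S f) {n m : ℕ} (h : n ≤ m) :
    ∃ pre, f m = pre ++ f n := by
  induction m with
  | zero =>
    have : n = 0 := by omega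
    subst this
    exact ⟨[], rfl⟩
  | succ m ih =>
    rcases Nat.lt_or_ge m n with h1 | h1
    · have : n = m + 1 := by omega
      subst this
      exact ⟨[], rfl⟩
    · obtain ⟨pre, hpre⟩ := ih h1
      obtain ⟨x, hx⟩ := path_cons hf m
      exact ⟨x :: pre, by rw [hx, hpre]; rfl⟩

/-- all decisions on a path are correct -/
theorem path_G (hy : Hyp C S g) {f : ℕ → Node} (hf : IsPath C S f) (n : ℕ) :
    ∀ q G', (q :: G') <:+ sG C S (f n) → q = qs C G'.length := by
  intro q G' hs
  have hsN : ∀ N, n ≤ N → (q :: G') <:+ sG C S (f N) := by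
    intro N hN
    obtain ⟨pre, hpre⟩ := path_suffix hf hN
    rw [hpre]
    exact hs.trans (sG_suffix pre _)
  have htm : ∀ N, N ≤ stm C S (f N) := by
    intro N
    have := length_le_stm (hf N).2.1
    rwa [(hf N).1] at this
  rcases hq : q with _ | m
  · symm
    rw [qs_zero]
    intro j
    have hN : n ≤ max n (j + 1) := le_max_left _ _
    have hne : f (max n (j + 1)) ≠ [] := by
      intro h0
      have := (hf (max n (j + 1))).1
      rw [h0] at this
      simp at this
      omega
    have h1 := fok_node (hf (max n (j + 1))).2.1 hne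
    rw [fok_iff] at h1
    have h2 := h1 q G' (hsN _ hN) hq
    rw [(hf _).1] at h2
    exact ⟨_, hy.canti _ _ j _ (by omega) h2⟩
  · symm
    have hne : ∀ t, C G'.length m t = false := by
      intro t
      have hN : n ≤ max n t := le_max_left _ _
      have h1 := wok_node (hf (max n t)).2.1
      rw [wok_iff] at h1
      have h2 := h1 q G' (hsN _ hN) (by omega)
      rw [hq] at h2
      by_contra hc
      have hc' : C G'.length m t = true := by simpa using hc
      have h3 := hy.cmono _ _ _ _ ((le_max_right n t).trans (htm _)) hc'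
      rw [show m + 1 - 1 = m by omega] at h2
      rw [h2] at h3
      exact Bool.false_ne_true h3
    apply qs_unique hne
    intro j hj
    have h1 := seen_node hy (hf n).2.1 q G' hs (by omega)
    exact ⟨_, hy.canti _ _ j _ (by omega) h1⟩

theorem eq_gl_of_suffix {h : ℕ → ℕ} : ∀ {G : List ℕ},
    (∀ q G', (q :: G') <:+ G → q = h G'.length) → G = gl h G.length := by
  intro G
  induction G with
  | nil => intro _; rfl
  | cons q G ih =>
    intro H
    have h1 := ih (fun q' G' hs => H q' G' (hs.trans (List.suffix_cons _ _)))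
    have h2 := H q G (List.suffix_refl _)
    rw [List.length_cons, show gl h (G.length + 1) = h G.length :: gl h G.length from rfl, ← h2,
      ← h1]

theorem S_suffix (hy : Hyp C S g) {v w : List ℕ} (h : v <:+ w) (hw : S w = true) :
    S v = true := by
  obtain ⟨u, rfl⟩ := h
  induction u with
  | nil => exact hw
  | cons a u ih => exact ih (hy.spre a _ hw)

theorem suffix_of_suffix_length_le {a b c : List ℕ} (h1 : a <:+ c) (h2 : b <:+ c)
    (h : a.length ≤ b.length) : a <:+ b := by
  exact List.suffix_of_suffix_length_le h1 h2 h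

/-- the values on a path -/
theorem path_v (hy : Hyp C S g) {f : ℕ → Node} (hf : IsPath C S f) (n : ℕ) :
    sv C S (f n) = gl g (sv C S (f n)).length := by
  have hS : S [] = true := hy.spath 0
  have hlen : ∀ N, N ≤ (sv C S (f N)).length := by
    intro N
    have := (values (hf N).2.1 hS).1
    rwa [(hf N).1] at this
  have hsuf : ∀ {N M}, N ≤ M → sv C S (f N) <:+ sv C S (f M) := by
    intro N M h
    obtain ⟨pre, hpre⟩ := path_suffix hf h
    rw [hpre]
    exact sv_suffix pre _
  -- the limit
  let h : ℕ → ℕ := fun m => (sv C S (f (m + 1))).reverse.getD m 0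
  have hval : ∀ N q G', (q :: G') <:+ sv C S (f N) → q = h G'.length := by
    intro N q G' hs
    -- compare with level `G'.length + 1`
    have key : ∀ M, (q :: G') <:+ sv C S (f M) →
        (sv C S (f M)).reverse.getD G'.length 0 = q := by
      intro M hM
      obtain ⟨u, hu⟩ := hM
      rw [← hu, List.reverse_append, List.reverse_cons]
      rw [List.append_assoc, List.getD_append_right _ _ _ _ (by rw [List.length_reverse])]
      rw [List.length_reverse]
      simp
    have hM : (q :: G') <:+ sv C S (f (G'.length + 1)) := by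
      rcases Nat.le_total N (G'.length + 1) with hc | hc
      · exact hs.trans (hsuf hc)
      · apply suffix_of_suffix_length_le hs (hsuf hc)
        have := hlen (G'.length + 1)
        rw [List.length_cons]
        exact this
    exact (key _ hM).symm
  have hgl : ∀ N, sv C S (f N) = gl h (sv C S (f N)).length := fun N =>
    eq_gl_of_suffix (hval N)
  have hh : h = g := by
    apply hy.suniq
    intro N
    apply S_suffix hy _ (values (hf N).2.1 hS).2.2
    rw [hgl N]
    exact gl_suffix h (hlen N)
  rw [← hh]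
  exact hgl n

theorem exists_path (hy : Hyp C S g) : ∃ f, IsPath C S f := by
  let P := {ζ : Node // Tr C S ζ = true ∧ (∃ r, sG C S ζ = gl (qs C) r) ∧
    ∃ N, sv C S ζ = gl g N}
  have hstep : ∀ z : P, ∃ z' : P, ∃ x, z'.1 = x :: z.1 := by
    rintro ⟨ζ, h1, h2, h3⟩
    obtain ⟨x, hx1, hx2, hx3⟩ := step_exists hy ζ h1 h2 h3
    exact ⟨⟨x :: ζ, hx1, hx2, hx3⟩, x, rfl⟩
  choose nx hnx using hstep
  let F : ℕ → P := fun n => Nat.rec ⟨[], rfl, ⟨0, rfl⟩, 0, rfl⟩ (fun _ z => nx z) n
  have hF : ∀ n, F (n + 1) = nx (F n) := fun n => rfl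
  refine ⟨fun n => (F n).1, ?_⟩
  intro n
  refine ⟨?_, (F n).2.1, ?_⟩
  · induction n with
    | zero => rfl
    | succ n ih =>
      obtain ⟨x, hx⟩ := hnx (F n)
      show (F (n + 1)).1.length = _
      rw [hF, hx, List.length_cons, ih]
  · obtain ⟨x, hx⟩ := hnx (F n)
    show (F (n + 1)).1.tail = _
    rw [hF, hx]
    rfl

theorem path_unique (hy : Hyp C S g) {f f' : ℕ → Node} (hf : IsPath C S f)
    (hf' : IsPath C S f') : f = f' := by
  have hG : ∀ {f : ℕ → Node}, IsPath C S f → ∀ n,
      sG C S (f n) = gl (qs C) (sG C S (f n)).length := fun hf n =>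
    eq_gl_of_suffix (path_G hy hf n)
  funext n
  induction n with
  | zero =>
    rw [List.length_eq_zero_iff.1 (hf 0).1, List.length_eq_zero_iff.1 (hf' 0).1]
  | succ n ih =>
    obtain ⟨x, hx⟩ := path_cons hf n
    obtain ⟨x', hx'⟩ := path_cons hf' n
    rw [← ih] at hx'
    have h1 := (hf (n + 1)).2.1
    have h2 := (hf' (n + 1)).2.1
    rw [hx] at h1
    rw [hx'] at h2
    obtain ⟨-, a2, a3, a4, -⟩ := (Tr_cons x _).1 h1
    obtain ⟨-, b2, b3, b4, -⟩ := (Tr_cons x' _).1 h2
    have hp : x.1 = x'.1 := by
      by_cases hst : (f n).length < (sG C S (f n)).headI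
      · rw [okpay_stem hst] at a2 b2
        rw [a2, b2]
      · rw [okpay_dec hst] at a2 b2
        have g1 := hG hf (n + 1)
        have g2 := hG hf' (n + 1)
        rw [hx, sG_cons, nG_dec hst] at g1
        rw [hx', sG_cons, nG_dec hst] at g2
        have q1 : (pay x.1).1 = qs C (sG C S (f n)).length := by
          rw [List.length_cons] at g1
          exact (List.cons.inj g1).1
        have q2 : (pay x'.1).1 = qs C (sG C S (f n)).length := by
          rw [List.length_cons] at g2
          exact (List.cons.inj g2).1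
        have v1 := path_v hy hf (n + 1)
        have v2 := path_v hy hf' (n + 1)
        rw [hx, sv_cons, nv_dec hst, a2.1] at v1
        rw [hx', sv_cons, nv_dec hst, b2.1] at v2
        rw [q1] at v1
        rw [q2, ← v1] at v2
        have u : (pay x'.1).2 = (pay x.1).2 := List.append_cancel_right v2
        have hpay : pay x.1 = pay x'.1 := Prod.ext (q1.trans q2.symm) u.symm
        unfold pay at hpay
        have := congrArg Encodable.encode hpay
        rwa [Denumerable.encode_ofNat, Denumerable.encode_ofNat] at this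
    rw [← hp] at b3 b4
    have ht : x.2 = x'.2 := time_unique hy a3 a4 b3 b4
    rw [hx, hx', Prod.ext hp ht]

/-- the bits read off the path -/
theorem path_bit (hy : Hyp C S g) {f : ℕ → Node} (hf : IsPath C S f) {n m : ℕ} (h : m < n) :
    bit C S (f n) m = decide (0 < (g m).unpair.1) := by
  unfold bit
  have h1 : (st C S (f n)).2.2.2.1 = gl g (sv C S (f n)).length := path_v hy hf n
  have h2 := (values (hf n).2.1 (hy.spath 0)).1
  rw [(hf n).1] at h2
  rw [h1, gl_getD g _ (lt_of_lt_of_le h h2)]

end FDS.Tree
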