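import Pool.Agent.FDS.Defs

/-! Reduced words. -/

set_option autoImplicit false

set_option linter.unusedSectionVars false

namespace FDS.Words

open FDS

variable {α β γ : Type} [DecidableEq α] [DecidableEq β] [DecidableEq γ]

theorem red_nil : Red ([] : List α) := List.IsChain.nil

theorem red_tail {a : α} {l : List α} (h : Red (a :: l)) : Red l := List.IsChain.of_cons h

theorem cc_cons (c a : α) (l : List α) :
    cc c (a :: l) = if a = c then l else c :: a :: l := rfl

theorem cc_red (c : α) {l : List α} (h : Red l) : Red (cc c l) := by
  cases l with
  | nil => exact List.isChain_singleton c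
  | cons a l =>
    rw [cc_cons]
    split_ifs with hac
    · exact red_tail h
    · exact List.IsChain.cons_cons (fun h => hac h.symm) h

theorem cc_cc (c : α) {l : List α} (h : Red l) : cc c (cc c l) = l := by
  cases l with
  | nil => simp [cc]
  | cons a l =>
    by_cases hac : a = c
    · subst hac
      have h1 : cc a (a :: l) = l := by simp [cc]
      rw [h1]
      cases l with
      | nil => simp [cc]
      | cons b l =>
        have hne : a ≠ b := by
          unfold Red at h
          rw [List.isChain_cons_cons] at h
          exact h.1
        simp [cc, Ne.symm hne]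
    · simp [cc, hac]

theorem app_red (x : List α) {w : List α} (h : Red w) : Red (app x w) := by
  induction x with
  | nil => exact h
  | cons c x ih => exact cc_red c ih

theorem app_cons (c : α) (x w : List α) : app (c :: x) w = cc c (app x w) := rfl

theorem app_nil_left (w : List α) : app [] w = w := rfl

theorem app_cc (c : α) (x : List α) {w : List α} (h : Red w) :
    app (cc c x) w = cc c (app x w) := by
  cases x with
  | nil => rfl
  | cons a x =>
    by_cases hac : a = c
    · subst hac
      have h1 : cc a (a :: x) = x := by simp [cc]
      rw [h1, app_cons, cc_cc a (app_red x h)]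
    · have h1 : cc c (a :: x) = c :: a :: x := by simp [cc, hac]
      rw [h1, app_cons]

theorem app_append (x y w : List α) : app (x ++ y) w = app x (app y w) := by
  unfold app
  rw [List.foldr_append]

theorem app_rev_cancel (x : List α) {w : List α} (h : Red w) : app x.reverse (app x w) = w := by
  induction x generalizing w with
  | nil => rfl
  | cons c x ih =>
    have h1 : app [c] (app (c :: x) w) = app x w := by
      show cc c (cc c (app x w)) = app x w
      exact cc_cc c (app_red x h)
    rw [List.reverse_cons, app_append, h1]
    exact ih h

theorem app_rev_cancel' (x : List α) {w : List α} (h : Red w) : app x (app x.reverse w) = w := by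
  have := app_rev_cancel x.reverse h
  rwa [List.reverse_reverse] at this

theorem app_nil {x : List α} (h : Red x) : app x [] = x := by
  induction x with
  | nil => rfl
  | cons c x ih =>
    rw [app_cons, ih (red_tail h)]
    cases x with
    | nil => rfl
    | cons b x =>
      have hne : c ≠ b := by
        unfold Red at h
        rw [List.isChain_cons_cons] at h
        exact h.1
      simp [cc, Ne.symm hne]

theorem app_app (x y : List α) {w : List α} (h : Red w) : app (app x y) w = app x (app y w) := by
  induction x with
  | nil => rfl
  | cons c x ih => rw [app_cons, app_cc c _ h, ih, app_cons]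

theorem mem_cc {c d : α} {l : List α} (h : d ∈ cc c l) : d = c ∨ d ∈ l := by
  cases l with
  | nil => simpa [cc] using h
  | cons a l =>
    rw [cc_cons] at h
    split_ifs at h with hac
    · exact Or.inr (List.mem_cons_of_mem _ h)
    · rw [List.mem_cons] at h
      exact h

theorem mem_app {c : α} {x w : List α} (h : c ∈ app x w) : c ∈ x ∨ c ∈ w := by
  induction x with
  | nil => exact Or.inr h
  | cons a x ih =>
    rw [app_cons] at h
    rcases mem_cc h with h | h
    · exact Or.inl (by rw [h]; exact List.mem_cons_self)
    · rcases ih h with h | h
      · exact Or.inl (List.mem_cons_of_mem _ h)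
      · exact Or.inr h

theorem rh_nil (h : α → Option β) : rh h [] = [] := rfl

theorem rh_cons (h : α → Option β) (c : α) (x : List α) :
    rh h (c :: x) = cco (h c) (rh h x) := rfl

theorem cco_red (b : Option β) {l : List β} (h : Red l) : Red (cco b l) := by
  cases b with
  | none => exact h
  | some b => exact cc_red b h

theorem cco_cco (b : Option β) {l : List β} (h : Red l) : cco b (cco b l) = l := by
  cases b with
  | none => rfl
  | some b => exact cc_cc b h

theorem rh_red (h : α → Option β) (x : List α) : Red (rh h x) := by
  induction x with
  | nil => exact red_nil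
  | cons c x ih => exact cco_red _ ih

theorem rh_cc (h : α → Option β) (c : α) (x : List α) :
    rh h (cc c x) = cco (h c) (rh h x) := by
  cases x with
  | nil => rfl
  | cons a x =>
    by_cases hac : a = c
    · subst hac
      have h1 : cc a (a :: x) = x := by simp [cc]
      rw [h1, rh_cons, cco_cco _ (rh_red h x)]
    · have h1 : cc c (a :: x) = c :: a :: x := by simp [cc, hac]
      rw [h1, rh_cons]

theorem rh_app (h : α → Option β) (x w : List α) :
    rh h (app x w) = app (x.filterMap h) (rh h w) := by
  induction x with
  | nil => rfl
  | cons c x ih =>
    rw [app_cons, rh_cc, ih]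
    cases hc : h c with
    | none => rw [List.filterMap_cons_none hc]; rfl
    | some b => rw [List.filterMap_cons_some hc]; rfl

theorem mem_rh {h : α → Option β} {x : List α} {b : β} (hb : b ∈ rh h x) :
    ∃ c ∈ x, h c = some b := by
  induction x with
  | nil => simp [rh] at hb
  | cons a x ih =>
    rw [rh_cons] at hb
    cases ha : h a with
    | none =>
      rw [ha] at hb
      obtain ⟨c, hc, hcb⟩ := ih hb
      exact ⟨c, List.mem_cons_of_mem _ hc, hcb⟩
    | some b' =>
      rw [ha] at hb
      rcases mem_cc hb with hb | hb
      · exact ⟨a, List.mem_cons_self, by rw [ha, hb]⟩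
      · obtain ⟨c, hc, hcb⟩ := ih hb
        exact ⟨c, List.mem_cons_of_mem _ hc, hcb⟩

/-- the homomorphism induced by a total map -/
theorem rh_some_inj {h : α → β} {x : List α} (hx : Red x)
    (hinj : ∀ c ∈ x, ∀ c' ∈ x, h c = h c' → c = c') :
    rh (fun c => some (h c)) x = x.map h := by
  induction x with
  | nil => rfl
  | cons c x ih =>
    rw [rh_cons, ih (red_tail hx) (fun a ha b hb => hinj a (List.mem_cons_of_mem _ ha) b
      (List.mem_cons_of_mem _ hb)), List.map_cons]
    cases x with
    | nil => rfl
    | cons b x =>
      have hne : c ≠ b := by
        unfold Red at hx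
        rw [List.isChain_cons_cons] at hx
        exact hx.1
      have hne' : h b ≠ h c := fun e => hne (hinj b (by simp) c (by simp) e).symm
      show cc (h c) (h b :: x.map h) = _
      simp [cc, hne']

theorem rh_rh (h : α → Option β) (h' : β → Option γ) (x : List α) :
    rh h' (rh h x) = rh (fun c => (h c).bind h') x := by
  induction x with
  | nil => rfl
  | cons c x ih =>
    rw [rh_cons, rh_cons, ← ih]
    cases hc : h c with
    | none => rfl
    | some b =>
      show rh h' (cc b (rh h x)) = cco (h' b) _
      rw [rh_cc]

theorem rh_congr {h h' : α → Option β} {x : List α} (H : ∀ c ∈ x, h c = h' c) :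
    rh h x = rh h' x := by
  induction x with
  | nil => rfl
  | cons c x ih =>
    rw [rh_cons, rh_cons, H c List.mem_cons_self,
      ih (fun a ha => H a (List.mem_cons_of_mem _ ha))]

/-- the identity map -/
theorem rh_id {x : List α} (hx : Red x) : rh some x = x := by
  have := rh_some_inj (h := fun c : α => c) hx (fun c _ c' _ e => e)
  simpa using this

/-- reversal of a reduced word is reduced -/
theorem red_reverse {x : List α} (hx : Red x) : Red x.reverse := by
  unfold Red at *
  rw [List.isChain_reverse]
  exact hx.imp (fun _ _ h => Ne.symm h)

/-- `w · w⁻¹ = 1` -/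
theorem app_reverse_self (x : List α) (hx : Red x) : app x.reverse x = [] := by
  have := app_rev_cancel x (w := []) red_nil
  rwa [app_nil hx] at this

end FDS.Words
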