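import Pool.Agent.FDS.Defs
import Pool.Agent.FDS.Words
import Pool.Agent.FDS.Tree
import Pool.Agent.FDS.Tool
import Pool.Agent.FDS.Prim

/-! The computable solution of the cocycle equation, and threads. -/

set_option autoImplicit false
set_option linter.unusedSectionVars false

namespace FDS.Crit

open FDS FDS.Words FDS.Tree

variable {C : ℕ → ℕ → ℕ → Bool} {S : List ℕ → Bool} {g : ℕ → ℕ}

/-! ### Restriction -/

theorem dn_dn (i j : ℕ) (c : Letter) : dn i (dn j c) = dn (j + i) c := by
  unfold dn
  rw [List.drop_drop]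

theorem dn_zero (c : Letter) : dn 0 c = c := by
  unfold dn
  rw [List.drop_zero]

theorem filterMap_some {α β : Type} (h : α → β) (x : List α) :
    x.filterMap (fun c => some (h c)) = x.map h := by
  induction x with
  | nil => rfl
  | cons a x ih => simp [ih]

theorem rho_app (i : ℕ) (x w : List Letter) :
    rho i (app x w) = app (x.map (dn i)) (rho i w) := by
  unfold rho
  rw [rh_app, filterMap_some]

theorem rho_red (i : ℕ) (w : List Letter) : Red (rho i w) := rh_red _ _

theorem rho_rho (i j : ℕ) (w : List Letter) : rho i (rho j w) = rho (j + i) w := by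
  unfold rho
  rw [rh_rh]
  apply rh_congr
  intro c _
  show some (dn i (dn j c)) = _
  rw [dn_dn]

theorem rho_zero {w : List Letter} (h : Red w) : rho 0 w = w := by
  unfold rho
  rw [rh_congr (h' := some), rh_id h]
  intro c _
  rw [dn_zero]

theorem rho_eq_app (i : ℕ) (w : List Letter) : rho i w = app (w.map (dn i)) [] := by
  induction w with
  | nil => rfl
  | cons c w ih =>
    rw [List.map_cons, app_cons, ← ih]
    rfl

theorem mem_rho {i : ℕ} {w : List Letter} {b : Letter} (h : b ∈ rho i w) :
    ∃ c ∈ w, dn i c = b := by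
  obtain ⟨c, hc, h1⟩ := mem_rh h
  exact ⟨c, hc, by simpa using h1⟩

/-! ### Valid letters -/

theorem VL_iff {k n : ℕ} {c : Letter} : VL C S k n c = true ↔
    Tr C S c.1 = true ∧ c.1.length = n ∧ c.2 + 1 < k := by
  unfold VL
  simp only [Bool.and_eq_true, decide_eq_true_eq]
  tauto

theorem VL_dn {k n i : ℕ} {c : Letter} (h : VL C S k (n + i) c = true) :
    VL C S k n (dn i c) = true := by
  rw [VL_iff] at *
  obtain ⟨h1, h2, h3⟩ := h
  refine ⟨Tr_drop h1 i, ?_, h3⟩
  show (c.1.drop i).length = n
  rw [List.length_drop, h2]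
  omega

/-! ### Codes -/

theorem le_encode_of_mem {α : Type} [Encodable α] {a : α} {l : List α} (h : a ∈ l) :
    Encodable.encode a ≤ Encodable.encode l := by
  induction l with
  | nil => simp at h
  | cons b l ih =>
    rw [Encodable.encode_list_cons]
    rw [List.mem_cons] at h
    rcases h with h | h
    · subst h
      exact (Nat.left_le_pair _ _).trans (Nat.le_succ _)
    · exact (ih h).trans ((Nat.right_le_pair _ _).trans (Nat.le_succ _))

theorem stm_le_encode (ξ : Node) : stm C S ξ ≤ Encodable.encode ξ := by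
  cases ξ with
  | nil => exact Nat.zero_le _
  | cons x ξ =>
    rw [stm_cons]
    refine le_trans ?_ (le_encode_of_mem (List.mem_cons_self (a := x) (l := ξ)))
    rw [Encodable.encode_prod_val]
    exact Nat.right_le_pair _ _

theorem encode_fst_le (c : Letter) : Encodable.encode c.1 ≤ Encodable.encode c := by
  rw [Encodable.encode_prod_val]
  exact Nat.left_le_pair _ _

/-! ### The composed walk -/

/-- the walk from level `n` to level `n + i`, seen at level `n` -/
def Wk (l : ℕ → List Letter) (n : ℕ) : ℕ → List Letter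
  | 0 => []
  | i + 1 => (l (n + i)).map (dn i) ++ Wk l n i

theorem walk_eq {l D : ℕ → List Letter} {n : ℕ} (hred : Red (D n))
    (hrec : ∀ j, n ≤ j → rho 1 (D (j + 1)) = app (l j) (D j)) (i : ℕ) :
    rho i (D (n + i)) = app (Wk l n i) (D n) := by
  induction i with
  | zero => exact rho_zero hred
  | succ i ih =>
    have e : rho (i + 1) (D (n + (i + 1))) = rho i (rho 1 (D (n + i + 1))) := by
      rw [rho_rho, add_comm 1 i, add_assoc]
    rw [e, hrec (n + i) (by omega), rho_app, ih, ← app_append]
    rfl

theorem exists_map_eq {α β : Type} {P : α → Prop} {φ : α → β} : ∀ {v : List β},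
    (∀ b ∈ v, ∃ c, P c ∧ φ c = b) → ∃ X : List α, (∀ c ∈ X, P c) ∧ X.map φ = v := by
  intro v
  induction v with
  | nil => intro _; exact ⟨[], by simp, rfl⟩
  | cons b v ih =>
    intro h
    obtain ⟨c, hc, hcb⟩ := h b List.mem_cons_self
    obtain ⟨X, hX, hXv⟩ := ih (fun b' hb' => h b' (List.mem_cons_of_mem _ hb'))
    refine ⟨c :: X, ?_, by rw [List.map_cons, hcb, hXv]⟩
    intro c' hc'
    rw [List.mem_cons] at hc'
    rcases hc' with h | h
    · rw [h]; exact hc
    · exact hX c' h

theorem map_inj_on {α β : Type} {P : α → Prop} {φ : α → β}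
    (hinj : ∀ a b, P a → P b → φ a = φ b → a = b) : ∀ {x y : List α},
    (∀ a ∈ x, P a) → (∀ a ∈ y, P a) → x.map φ = y.map φ → x = y := by
  intro x
  induction x with
  | nil =>
    intro y _ _ h
    cases y with
    | nil => rfl
    | cons b y => simp at h
  | cons a x ih =>
    intro y hx hy h
    cases y with
    | nil => simp at h
    | cons b y =>
      rw [List.map_cons, List.map_cons] at h
      injection h with h1 h2
      rw [hinj a b (hx a List.mem_cons_self) (hy b List.mem_cons_self) h1,
        ih (fun c hc => hx c (List.mem_cons_of_mem _ hc))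
          (fun c hc => hy c (List.mem_cons_of_mem _ hc)) h2]

theorem computable_Wk {l : ℕ → List Letter} (hl : Computable l) :
    Computable₂ (fun n i => Wk l n i) := by
  have h1 : Computable₂ (fun (p : ℕ × ℕ) (q : ℕ × List Letter) =>
      (l (p.1 + q.1)).map (dn q.1) ++ q.2) := by
    have hadd : Computable (fun z : (ℕ × ℕ) × (ℕ × List Letter) => z.1.1 + z.2.1) :=
      Primrec.nat_add.to_comp.comp (Computable.fst.comp Computable.fst)
        (Computable.fst.comp Computable.snd)
    have h2 : Computable (fun z : (ℕ × ℕ) × (ℕ × List Letter) =>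
        (l (z.1.1 + z.2.1)).map (dn z.2.1)) :=
      (Prim.primrec_mapdn.to_comp).comp (Computable.fst.comp Computable.snd) (hl.comp hadd)
    exact Computable.list_append.comp h2 (Computable.snd.comp Computable.snd)
  have h3 : Computable (fun p : ℕ × ℕ => (Nat.rec (motive := fun _ => List Letter) []
      (fun i w => (l (p.1 + i)).map (dn i) ++ w) p.2 : List Letter)) :=
    Computable.nat_rec (f := fun p : ℕ × ℕ => p.2) (g := fun _ => ([] : List Letter))
      (h := fun p q => (l (p.1 + q.1)).map (dn q.1) ++ q.2) Computable.snd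
      (Computable.const _) h1
  refine h3.of_eq ?_
  rintro ⟨n, i⟩
  show _ = Wk l n i
  induction i with
  | zero => rfl
  | succ i ih =>
    show (l (n + i)).map (dn i) ++ _ = (l (n + i)).map (dn i) ++ Wk l n i
    rw [← ih]

/-! ### The main lemma -/

theorem solve (hy : Hyp C S g) (hC : Primrec (fun p : ℕ × ℕ × ℕ => C p.1 p.2.1 p.2.2))
    (hS : Primrec S) (k e : ℕ) (he : ∀ n, ∃ t, C e n t = true)
    {l D : ℕ → List Letter} (hl : Computable l)
    (hel : ∀ n t, C e n t = true → Encodable.encode (l n) < t)
    (hlV : ∀ n, ∀ c ∈ l n, VL C S k n c = true) (hD : ∀ n, VW C S k n (D n))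
    (hrec : ∀ n, rho 1 (D (n + 1)) = app (l n) (D n)) :
    ∃ d w : ℕ → List Letter, Computable d ∧ (∀ n, VW C S k n (w n)) ∧
      (∀ n, rho 1 (w (n + 1)) = w n) ∧ ∀ n, D n = app (d n) (w n) := by
  classical
  obtain ⟨B, Gs, K₀, E, hE, hcode, hinj⟩ := criterion_tree hy e he
  -- deletion
  let del : ℕ → Letter → Option Letter := fun n c =>
    if sG C S (c.1.drop (n - (B + 1))) = Gs then none else some c
  let D' : ℕ → List Letter := fun n => rh (del n) (D n)
  have hD'red : ∀ n, Red (D' n) := fun n => rh_red _ _
  have hD'mem : ∀ n, ∀ c ∈ D' n, VL C S k n c = true ∧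
      sG C S (c.1.drop (n - (B + 1))) ≠ Gs := by
    intro n c hc
    obtain ⟨c', hc', h1⟩ := mem_rh hc
    simp only [del] at h1
    split_ifs at h1 with h2
    injection h1 with h1
    subst h1
    exact ⟨(hD n).2 _ hc', h2⟩
  have hD'rec : ∀ n, B + 1 ≤ n → rho 1 (D' (n + 1)) = app (l n) (D' n) := by
    intro n hn
    have e1 : rho 1 (D' (n + 1)) = rh (del n) (rho 1 (D (n + 1))) := by
      show rh (fun c => some (dn 1 c)) (rh (del (n + 1)) (D (n + 1))) =
        rh (del n) (rh (fun c => some (dn 1 c)) (D (n + 1)))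
      rw [rh_rh, rh_rh]
      apply rh_congr
      intro c _
      have e2 : (dn 1 c).1.drop (n - (B + 1)) = c.1.drop (n + 1 - (B + 1)) := by
        show (c.1.drop 1).drop (n - (B + 1)) = _
        rw [List.drop_drop]
        congr 1
        omega
      simp only [del]
      show _ = if sG C S ((dn 1 c).1.drop (n - (B + 1))) = Gs then none else some (dn 1 c)
      rw [e2]
      split_ifs with h3
      · rfl
      · rfl
    have e3 : (l n).filterMap (del n) = l n := by
      have : ∀ c ∈ l n, del n c = some c := by
        intro c hc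
        simp only [del]
        rw [if_neg]
        intro h4
        obtain ⟨h5, h6, -⟩ := VL_iff.1 (hlV n c hc)
        have h7 := hcode n hn c.1 h5 h6 h4
        have h8 := hel n _ h7
        have h9 := (stm_le_encode (C := C) (S := S) c.1).trans
          ((encode_fst_le c).trans (le_encode_of_mem hc))
        omega
      rw [List.filterMap_congr this]
      exact List.filterMap_some
    rw [e1, hrec n, rh_app, e3]
  -- the function `K`
  obtain ⟨K, hKc, hK⟩ : ∃ K : ℕ → ℕ, Computable K ∧ ∀ n, (n ≤ K n ∧ K₀ ≤ K n ∧ B + 1 ≤ K n) ∧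
      ∀ r ∈ E, C r n (K n) = true := by
    apply Tool.exists_choice (p := fun n K => (n ≤ K ∧ K₀ ≤ K ∧ B + 1 ≤ K) ∧
      ∀ r ∈ E, C r n K = true)
    · apply Tool.cp_and
      · apply Tool.cp_and
        · exact (Primrec.nat_le.comp Primrec.fst Primrec.snd).computablePred
        · apply Tool.cp_and
          · exact (Primrec.nat_le.comp (Primrec.const _) Primrec.snd).computablePred
          · exact (Primrec.nat_le.comp (Primrec.const _) Primrec.snd).computablePred
      · apply Tool.cp_forall_mem (p := fun (x : ℕ × ℕ) r => C r x.1 x.2 = true)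
          (l := fun _ => E) _ (Computable.const E)
        apply Computable.computablePred
        have : Primrec (fun a : (ℕ × ℕ) × ℕ => C a.2 a.1.1 a.1.2) :=
          hC.comp (Primrec.pair Primrec.snd (Primrec.pair (Primrec.fst.comp Primrec.fst)
            (Primrec.snd.comp Primrec.fst)))
        exact (this.to_comp).of_eq (fun a => by simp)
    · intro n
      have hfin : ∀ E' : List ℕ, (∀ r ∈ E', ∀ n, ∃ t, C r n t = true) →
          ∃ t, ∀ r ∈ E', C r n t = true := by
        intro E'
        induction E' with
        | nil => intro _; exact ⟨0, by simp⟩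
        | cons r E' ih =>
          intro h
          obtain ⟨t, ht⟩ := ih (fun r hr => h r (List.mem_cons_of_mem _ hr))
          obtain ⟨t', ht'⟩ := h r List.mem_cons_self n
          refine ⟨max t t', fun r' hr' => ?_⟩
          rw [List.mem_cons] at hr'
          rcases hr' with h1 | h1
          · rw [h1]; exact hy.cmono _ _ _ _ (le_max_right _ _) ht'
          · exact hy.cmono _ _ _ _ (le_max_left _ _) (ht r' h1)
      obtain ⟨t, ht⟩ := hfin E hE
      exact ⟨n + K₀ + (B + 1) + t, ⟨by omega, by omega, by omega⟩,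
        fun r hr => hy.cmono _ _ _ _ (by omega) (ht r hr)⟩
  -- the lifted words
  have hlw : ∀ n, rho (K n - (B + 1)) (D' (K n)) =
      app (Wk l (B + 1) (K n - (B + 1))) (D' (B + 1)) := by
    intro n
    have := walk_eq (l := l) (D := D') (n := B + 1) (hD'red _)
      (fun j hj => hD'rec j hj) (K n - (B + 1))
    rw [← this]
    congr 2
    have := (hK n).1.2.2
    omega
  obtain ⟨X, hXc, hX⟩ : ∃ X : ℕ → List Letter, Computable X ∧ ∀ n,
      (∀ c ∈ X n, VL C S k (K n) c = true ∧ sG C S (c.1.drop (K n - (B + 1))) ≠ Gs) ∧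
        (X n).map (dn (K n - (B + 1))) =
          app (Wk l (B + 1) (K n - (B + 1))) (D' (B + 1)) := by
    apply Tool.exists_choice (p := fun (n : ℕ) (X : List Letter) =>
      (∀ c ∈ X, VL C S k (K n) c = true ∧ sG C S (c.1.drop (K n - (B + 1))) ≠ Gs) ∧
        X.map (dn (K n - (B + 1))) = app (Wk l (B + 1) (K n - (B + 1))) (D' (B + 1)))
    · have hsub : Computable (fun n => K n - (B + 1)) :=
        Primrec.nat_sub.to_comp.comp hKc (Computable.const _)
      apply Tool.cp_and
      · apply Tool.cp_forall_mem (p := fun (x : ℕ × List Letter) c =>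
          VL C S k (K x.1) c = true ∧ sG C S (c.1.drop (K x.1 - (B + 1))) ≠ Gs)
          (l := fun x => x.2) _ Computable.snd
        apply Tool.cp_and
        · have h1 : Computable (fun x : (ℕ × List Letter) × Letter => VL C S k (K x.1.1) x.2) :=
            (Prim.primrec_VL hC hS k).to_comp.comp (hKc.comp (Computable.fst.comp
              Computable.fst)) Computable.snd
          exact Computable.computablePred (h1.of_eq (fun a => by simp))
        · have h1 : Computable (fun x : (ℕ × List Letter) × Letter =>
              sG C S (x.2.1.drop (K x.1.1 - (B + 1)))) := by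
            have h2 : Primrec (sG C S) :=
              Primrec.fst.comp (Primrec.snd.comp (Primrec.snd.comp (Prim.primrec_st hC hS)))
            exact h2.to_comp.comp (Primrec.list_drop.to_comp.comp
              (hsub.comp (Computable.fst.comp Computable.fst))
              (Computable.fst.comp Computable.snd))
          exact (Tool.cp_eq h1 (Computable.const Gs)).not
      · apply Tool.cp_eq
        · exact Prim.primrec_mapdn.to_comp.comp (hsub.comp Computable.fst) Computable.snd
        · exact Prim.primrec_app.to_comp.comp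
            ((computable_Wk hl).comp (Computable.const _) (hsub.comp Computable.fst))
            (Computable.const _)
    · intro n
      apply exists_map_eq (P := fun c => VL C S k (K n) c = true ∧
        sG C S (c.1.drop (K n - (B + 1))) ≠ Gs)
      intro b hb
      rw [← hlw n] at hb
      obtain ⟨c, hc, hcb⟩ := mem_rho hb
      exact ⟨c, hD'mem _ c hc, hcb⟩
  -- the computable solution above level `B + 1`
  let dfun : ℕ → List Letter := fun n =>
    app (Wk l n (K n - n)).reverse ((X n).map (dn (K n - n)))
  have hdc : Computable dfun := by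
    have hsub : Computable (fun n => K n - n) :=
      Primrec.nat_sub.to_comp.comp hKc Computable.id
    exact Prim.primrec_app.to_comp.comp
      (Computable.list_reverse.comp ((computable_Wk hl).comp Computable.id hsub))
      (Prim.primrec_mapdn.to_comp.comp hsub hXc)
  have hdD' : ∀ n, B + 1 ≤ n → dfun n = D' n := by
    intro n hn
    have hKn := (hK n).1.1
    -- letters coming from level `K n`
    let P : Letter → Prop := fun b => ∃ c : Letter, (VL C S k (K n) c = true ∧
      sG C S (c.1.drop (K n - (B + 1))) ≠ Gs) ∧ dn (K n - n) c = b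
    have hPinj : ∀ a b, P a → P b → dn (n - (B + 1)) a = dn (n - (B + 1)) b → a = b := by
      rintro a b ⟨c, ⟨hc1, hc2⟩, rfl⟩ ⟨c', ⟨hc1', hc2'⟩, rfl⟩ h
      rw [dn_dn, dn_dn] at h
      have e1 : K n - n + (n - (B + 1)) = K n - (B + 1) := by omega
      rw [e1] at h
      have h1 : c.1.drop (K n - (B + 1)) = c'.1.drop (K n - (B + 1)) := congrArg Prod.fst h
      have h2 : (dn (K n - (B + 1)) c).2 = (dn (K n - (B + 1)) c').2 := congrArg Prod.snd h
      obtain ⟨a1, a2, -⟩ := VL_iff.1 hc1
      obtain ⟨b1, b2, -⟩ := VL_iff.1 hc1'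
      have h3 := hinj n (K n) hn hKn (hK n).1.2.1 (hK n).2 c.1 c'.1 a1 b1 a2 b2 hc2 hc2' h1
      exact Prod.ext h3 h2
    have hu₀ : ∀ b ∈ rho (K n - n) (D' (K n)), P b := by
      intro b hb
      obtain ⟨c, hc, hcb⟩ := mem_rho hb
      exact ⟨c, hD'mem _ c hc, hcb⟩
    have hu₁ : ∀ b ∈ (X n).map (dn (K n - n)), P b := by
      intro b hb
      obtain ⟨c, hc, hcb⟩ := List.mem_map.1 hb
      exact ⟨c, (hX n).1 c hc, hcb⟩
    have hmap : (rho (K n - n) (D' (K n))).map (dn (n - (B + 1))) =
        ((X n).map (dn (K n - n))).map (dn (n - (B + 1))) := by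
      have e1 : K n - n + (n - (B + 1)) = K n - (B + 1) := by omega
      have e2 : (rho (K n - n) (D' (K n))).map (dn (n - (B + 1))) =
          rho (n - (B + 1)) (rho (K n - n) (D' (K n))) := by
        symm
        exact rh_some_inj (h := dn (n - (B + 1))) (rho_red _ _)
          (fun c hc c' hc' h => hPinj c c' (hu₀ c hc) (hu₀ c' hc') h)
      rw [e2, rho_rho, e1, hlw n, ← (hX n).2, List.map_map]
      congr 1
      funext c
      show _ = dn (n - (B + 1)) (dn (K n - n) c)
      rw [dn_dn, e1]
    have hu := map_inj_on hPinj hu₀ hu₁ hmap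
    show app (Wk l n (K n - n)).reverse ((X n).map (dn (K n - n))) = D' n
    rw [← hu]
    have h4 := walk_eq (l := l) (D := D') (n := n) (hD'red _)
      (fun j hj => hD'rec j (hn.trans hj)) (K n - n)
    rw [show n + (K n - n) = K n by omega] at h4
    rw [h4]
    exact app_rev_cancel _ (hD'red n)
  -- the thread
  let z : List Letter := app (D' (B + 1)).reverse (D (B + 1))
  let w : ℕ → List Letter := fun n =>
    if B + 1 ≤ n then app (D' n).reverse (D n) else rho (B + 1 - n) z
  let d : ℕ → List Letter := fun n => if B + 1 ≤ n then D' n else app (D n) (w n).reverse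
  have hwV : ∀ n, VW C S k n (w n) := by
    have hz : ∀ n, B + 1 ≤ n → VW C S k n (app (D' n).reverse (D n)) := by
      intro n _
      refine ⟨app_red _ (hD n).1, fun c hc => ?_⟩
      rcases mem_app hc with h | h
      · exact (hD'mem n c (List.mem_reverse.1 h)).1
      · exact (hD n).2 c h
    intro n
    by_cases hn : B + 1 ≤ n
    · simp only [w, if_pos hn]
      exact hz n hn
    · simp only [w, if_neg hn]
      refine ⟨rho_red _ _, fun c hc => ?_⟩
      obtain ⟨c', hc', rfl⟩ := mem_rho hc
      apply VL_dn
      rw [show n + (B + 1 - n) = B + 1 by omega]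
      exact (hz (B + 1) le_rfl).2 c' hc'
  refine ⟨d, w, ?_, hwV, ?_, ?_⟩
  · apply Tool.computable_eventually hdc (B + 1)
    intro n hn
    show (if B + 1 ≤ n then D' n else _) = _
    rw [if_pos hn, hdD' n hn]
  · intro n
    by_cases hn : B + 1 ≤ n
    · have hn' : B + 1 ≤ n + 1 := by omega
      have e1 : w n = app (D' n).reverse (D n) := if_pos hn
      have e2 : w (n + 1) = app (D' (n + 1)).reverse (D (n + 1)) := if_pos hn'
      have h1 : app ((D' (n + 1)).map (dn 1)) (w n) = rho 1 (D (n + 1)) := by
        have h2 : app ((D' (n + 1)).map (dn 1)) (w n) =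
            app (app ((D' (n + 1)).map (dn 1)) []) (w n) := by
          rw [app_app _ _ (hwV n).1]
          rfl
        rw [h2, ← rho_eq_app, hD'rec n hn, app_app _ _ (hwV n).1, e1,
          app_rev_cancel' _ (hD n).1, hrec n]
      rw [e2, rho_app, ← h1, List.map_reverse]
      exact app_rev_cancel _ (hwV n).1
    · by_cases hn' : B + 1 ≤ n + 1
      · have hB : n = B := by omega
        subst hB
        have e1 : w n = rho (n + 1 - n) z := if_neg hn
        have e2 : w (n + 1) = z := if_pos hn'
        rw [e1, e2]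
        congr 1
        omega
      · have e1 : w n = rho (B + 1 - n) z := if_neg hn
        have e2 : w (n + 1) = rho (B + 1 - (n + 1)) z := if_neg hn'
        rw [e1, e2, rho_rho]
        congr 1
        omega
  · intro n
    by_cases hn : B + 1 ≤ n
    · have e1 : w n = app (D' n).reverse (D n) := if_pos hn
      have e2 : d n = D' n := if_pos hn
      rw [e1, e2, app_rev_cancel' _ (hD n).1]
    · have e2 : d n = app (D n) (w n).reverse := if_neg hn
      rw [e2, app_app _ _ (hwV n).1, app_reverse_self _ (hwV n).1, app_nil (hD n).1]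

/-! ### Threads -/

theorem thread_letters (hy : Hyp C S g) {f : ℕ → Node} (hf : IsPath C S f) {k : ℕ}
    {w : ℕ → List Letter} (hw : ∀ n, VW C S k n (w n)) (hrec : ∀ n, rho 1 (w (n + 1)) = w n)
    (n : ℕ) : ∀ c ∈ w n, c.1 = f n := by
  intro c hc
  -- extend `c` upwards
  have hstep : ∀ m, ∀ c : {c : Letter // c ∈ w m}, ∃ c' : {c : Letter // c ∈ w (m + 1)},
      dn 1 c'.1 = c.1 := by
    rintro m ⟨c, hc⟩
    rw [← hrec m] at hc
    obtain ⟨c', hc', h⟩ := mem_rho hc
    exact ⟨⟨c', hc'⟩, h⟩
  choose up hup using hstep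
  let U : ∀ i : ℕ, {c : Letter // c ∈ w (n + i)} := fun i =>
    Nat.rec ⟨c, hc⟩ (fun i x => up (n + i) x) i
  have hU : ∀ i, dn 1 (U (i + 1)).1 = (U i).1 := fun i => hup (n + i) (U i)
  have hU' : ∀ i j, ((U (i + j)).1.1).drop j = (U i).1.1 := by
    intro i j
    induction j with
    | zero => rw [List.drop_zero]; rfl
    | succ j ih =>
      have h1 : (U (i + (j + 1))).1.1.drop 1 = (U (i + j)).1.1 :=
        congrArg Prod.fst (hU (i + j))
      have h2 : (U (i + (j + 1))).1.1.drop (j + 1) =
          ((U (i + (j + 1))).1.1.drop 1).drop j := by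
        rw [List.drop_drop, add_comm 1 j]
      rw [h2, h1, ih]
  have hlen : ∀ i, (U i).1.1.length = n + i := fun i =>
    (VL_iff.1 ((hw (n + i)).2 _ (U i).2)).2.1
  have hT : ∀ i, Tr C S (U i).1.1 = true := fun i =>
    (VL_iff.1 ((hw (n + i)).2 _ (U i).2)).1
  -- the path through `c`
  have hpath : IsPath C S (fun m => (U m).1.1.drop (n + m - m)) := by
    intro m
    refine ⟨?_, Tr_drop (hT m) _, ?_⟩
    · rw [List.length_drop, hlen]
      omega
    · show ((U (m + 1)).1.1.drop (n + (m + 1) - (m + 1))).tail = (U m).1.1.drop (n + m - m)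
      rw [List.tail_drop, show n + (m + 1) - (m + 1) + 1 = 1 + (n + m - m) by omega,
        ← List.drop_drop]
      congr 1
      exact hU' m 1
  have heq := path_unique hy hf hpath
  have h2 : f n = (U n).1.1.drop (n + n - n) := congrFun heq n
  rw [h2]
  have h3 := hU' 0 n
  rw [Nat.zero_add] at h3
  rw [show n + n - n = n by omega, h3]
  rfl

theorem thread_form (hy : Hyp C S g) {f : ℕ → Node} (hf : IsPath C S f) {k : ℕ}
    {w : ℕ → List Letter} (hw : ∀ n, VW C S k n (w n)) (hrec : ∀ n, rho 1 (w (n + 1)) = w n) :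
    ∃ js : List ℕ, (∀ j ∈ js, j + 1 < k) ∧ ∀ n, w n = js.map (fun j => (f n, j)) := by
  have hlet := thread_letters hy hf hw hrec
  refine ⟨(w 0).map Prod.snd, ?_, ?_⟩
  · intro j hj
    obtain ⟨c, hc, rfl⟩ := List.mem_map.1 hj
    exact (VL_iff.1 ((hw 0).2 c hc)).2.2
  · have h1 : ∀ n, w n = ((w n).map Prod.snd).map (fun j => (f n, j)) := by
      intro n
      rw [List.map_map]
      symm
      have : ∀ c ∈ w n, ((fun j => (f n, j)) ∘ Prod.snd) c = c := by
        intro c hc
        show (f n, c.2) = c
        rw [← hlet n c hc]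
      rw [List.map_congr_left this, List.map_id']
    have h2 : ∀ n, (w n).map Prod.snd = (w 0).map Prod.snd := by
      intro n
      induction n with
      | zero => rfl
      | succ n ih =>
        rw [← ih, ← hrec n]
        have h3 : rho 1 (w (n + 1)) = (w (n + 1)).map (dn 1) := by
          apply rh_some_inj (hw (n + 1)).1
          intro c hc c' hc' h
          have h4 : (dn 1 c).2 = (dn 1 c').2 := congrArg Prod.snd h
          exact Prod.ext ((hlet _ c hc).trans (hlet _ c' hc').symm) h4
        rw [h3, List.map_map]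
        rfl
    intro n
    rw [← h2 n]
    exact h1 n

end FDS.Crit
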