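import Pool.Agent.FDS.Defs
import Pool.Agent.FDS.Words
import Pool.Agent.FDS.Tree
import Pool.Agent.FDS.Crit

/-! Gadgets: positions, transpositions, coordinates. -/

set_option autoImplicit false
set_option linter.unusedSectionVars false

namespace FDS.Coord

open FDS FDS.Words FDS.Tree FDS.Crit

variable {C : ℕ → ℕ → ℕ → Bool} {S : List ℕ → Bool} {g : ℕ → ℕ} {k : ℕ}

theorem sw_sw (b : Bool) (m j a : ℕ) : sw k b m j (sw k b m j a) = a := by
  unfold sw
  split_ifs with h1 h2 h3 h4 h5 <;> simp_all

theorem pos_le {b : Bool} {m i : ℕ} (hi : i < k) : pos k b m i ≤ k := by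
  unfold pos
  split_ifs
  · exact le_rfl
  · exact hi.le

theorem pos_inj {b : Bool} {m i i' : ℕ} (hi : i < k) (hi' : i' < k)
    (h : pos k b m i = pos k b m i') : i = i' := by
  unfold pos at h
  split_ifs at h with h1 h2 h2
  · exact h1.1.symm.trans h2.1
  · omega
  · omega
  · exact h

theorem sw_le {b : Bool} {m j a : ℕ} (hj : j + 1 < k) (ha : a ≤ k) : sw k b m j a ≤ k := by
  unfold sw
  split_ifs
  · exact pos_le hj
  · exact pos_le (by omega)
  · exact ha

/-- index version -/
def swi (j i : ℕ) : ℕ := if i = j then j + 1 else if i = j + 1 then j else i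

theorem swi_lt {j i : ℕ} (hj : j + 1 < k) (hi : i < k) : swi j i < k := by
  unfold swi
  split_ifs <;> omega

theorem sw_pos {b : Bool} {m j i : ℕ} (hj : j + 1 < k) (hi : i < k) :
    sw k b m j (pos k b m i) = pos k b m (swi j i) := by
  unfold sw swi
  by_cases h1 : i = j
  · rw [if_pos (by rw [h1]), if_pos h1]
  · rw [if_neg (fun h => h1 (pos_inj hi (by omega) h)), if_neg h1]
    by_cases h2 : i = j + 1
    · rw [if_pos (by rw [h2]), if_pos h2]
    · rw [if_neg (fun h => h2 (pos_inj hi hj h)), if_neg h2]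

theorem coord_nil (m a : ℕ) : coord C S k m [] a = a := rfl

theorem coord_cons (m : ℕ) (c : Letter) (w : List Letter) (a : ℕ) :
    coord C S k m (c :: w) a = sw k (bit C S c.1 m) m c.2 (coord C S k m w a) := rfl

theorem coord_cc (m : ℕ) (c : Letter) (w : List Letter) (a : ℕ) :
    coord C S k m (cc c w) a = sw k (bit C S c.1 m) m c.2 (coord C S k m w a) := by
  cases w with
  | nil => rfl
  | cons b w =>
    rw [cc_cons]
    split_ifs with h
    · subst h
      rw [coord_cons, sw_sw]
    · rfl

theorem coord_app (m : ℕ) (x w : List Letter) (a : ℕ) :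
    coord C S k m (app x w) a = coord C S k m x (coord C S k m w a) := by
  induction x with
  | nil => rfl
  | cons c x ih => rw [app_cons, coord_cc, ih, coord_cons]

theorem coord_append (m : ℕ) (x y : List Letter) (a : ℕ) :
    coord C S k m (x ++ y) a = coord C S k m x (coord C S k m y a) := by
  unfold coord
  rw [List.foldr_append]

theorem coord_reverse (m : ℕ) (x : List Letter) (a : ℕ) :
    coord C S k m x.reverse (coord C S k m x a) = a := by
  induction x generalizing a with
  | nil => rfl
  | cons c x ih =>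
    rw [List.reverse_cons, coord_append, coord_cons, coord_cons, coord_nil, sw_sw, ih]

theorem coord_reverse' (m : ℕ) (x : List Letter) (a : ℕ) :
    coord C S k m x (coord C S k m x.reverse a) = a := by
  have := coord_reverse (C := C) (S := S) (k := k) m x.reverse a
  rwa [List.reverse_reverse] at this

theorem coord_le {m a : ℕ} {x : List Letter} (hx : ∀ c ∈ x, c.2 + 1 < k) (ha : a ≤ k) :
    coord C S k m x a ≤ k := by
  induction x with
  | nil => exact ha
  | cons c x ih =>
    rw [coord_cons]
    exact sw_le (hx c List.mem_cons_self) (ih (fun c' hc' => hx c' (List.mem_cons_of_mem _ hc')))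

/-! ### Words on the path -/

/-- the word at level `n` given by the thread `js` -/
def uw (f : ℕ → Node) (js : List ℕ) (n : ℕ) : List Letter := js.map (fun j => (f n, j))

theorem uw_reverse (f : ℕ → Node) (js : List ℕ) (n : ℕ) :
    (uw f js n).reverse = uw f js.reverse n := by
  unfold uw
  rw [List.map_reverse]

theorem uw_VW {f : ℕ → Node} (hf : IsPath C S f) {js : List ℕ} (hjs : ∀ j ∈ js, j + 1 < k)
    (hred : Red js) (n : ℕ) : VW C S k n (uw f js n) := by
  refine ⟨?_, ?_⟩
  · unfold uw Red
    rw [List.isChain_map]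
    exact hred.imp (fun a b h h' => h (congrArg Prod.snd h'))
  · intro c hc
    obtain ⟨j, hj, rfl⟩ := List.mem_map.1 hc
    exact VL_iff.2 ⟨(hf n).2.1, (hf n).1, hjs j hj⟩

theorem uw_rho {f : ℕ → Node} (hf : IsPath C S f) {js : List ℕ} (hred : Red js) (n : ℕ) :
    rho 1 (uw f js (n + 1)) = uw f js n := by
  have hdn : ∀ j, dn 1 (f (n + 1), j) = (f n, j) := by
    intro j
    show ((f (n + 1)).drop 1, j) = _
    rw [List.drop_one, (hf n).2.2]
  have hred' : Red (uw f js (n + 1)) := by
    unfold uw Red
    rw [List.isChain_map]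
    exact hred.imp (fun a b h h' => h (congrArg Prod.snd h'))
  have h1 : rho 1 (uw f js (n + 1)) = (uw f js (n + 1)).map (dn 1) := by
    apply rh_some_inj hred'
    intro c hc c' hc' h
    obtain ⟨j, hj, rfl⟩ := List.mem_map.1 hc
    obtain ⟨j', hj', rfl⟩ := List.mem_map.1 hc'
    rw [hdn, hdn] at h
    have h2 : j = j' := congrArg Prod.snd h
    rw [h2]
  rw [h1]
  unfold uw
  rw [List.map_map]
  apply List.map_congr_left
  intro j _
  exact hdn j

theorem coord_uw (hy : Hyp C S g) {f : ℕ → Node} (hf : IsPath C S f) {js : List ℕ}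
    (hjs : ∀ j ∈ js, j + 1 < k) (m : ℕ) {i : ℕ} (hi : i < k) :
    coord C S k m (uw f js (m + 1)) (pos k (decide (0 < (g m).unpair.1)) m i) =
      pos k (decide (0 < (g m).unpair.1)) m (js.foldr swi i) := by
  have key : ∀ js : List ℕ, (∀ j ∈ js, j + 1 < k) → js.foldr swi i < k ∧
      coord C S k m (uw f js (m + 1)) (pos k (decide (0 < (g m).unpair.1)) m i) =
        pos k (decide (0 < (g m).unpair.1)) m (js.foldr swi i) := by
    intro js
    induction js with
    | nil => intro _; exact ⟨hi, rfl⟩
    | cons j js ih =>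
      intro h
      obtain ⟨h1, h2⟩ := ih (fun j' hj' => h j' (List.mem_cons_of_mem _ hj'))
      have hj := h j List.mem_cons_self
      refine ⟨swi_lt hj h1, ?_⟩
      show coord C S k m ((f (m + 1), j) :: uw f js (m + 1)) _ = _
      rw [coord_cons, h2]
      show sw k (bit C S (f (m + 1)) m) m j _ = _
      rw [path_bit hy hf (Nat.lt_succ_self m), sw_pos hj h1]
      rfl
  exact (key js hjs).2

theorem foldr_swi_lt {js : List ℕ} (hjs : ∀ j ∈ js, j + 1 < k) {i : ℕ} (hi : i < k) :
    js.foldr swi i < k := by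
  induction js with
  | nil => exact hi
  | cons j js ih =>
    exact swi_lt (hjs j List.mem_cons_self) (ih (fun j' hj' => hjs j' (List.mem_cons_of_mem _ hj')))

/-- the thread moving `0` to `i` -/
def js (i : ℕ) : List ℕ := (List.range i).reverse

theorem js_succ (i : ℕ) : js (i + 1) = i :: js i := by
  unfold js
  rw [List.range_succ, List.reverse_append]
  rfl

theorem js_lt {i : ℕ} (hi : i < k) : ∀ j ∈ js i, j + 1 < k := by
  intro j hj
  unfold js at hj
  rw [List.mem_reverse, List.mem_range] at hj
  omega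

theorem js_red (i : ℕ) : Red (js i) := by
  induction i with
  | zero => exact red_nil
  | succ i ih =>
    rw [js_succ]
    cases i with
    | zero => exact List.isChain_singleton _
    | succ i =>
      rw [js_succ] at ih ⊢
      exact List.IsChain.cons_cons (by omega) ih

theorem js_foldr (i : ℕ) : (js i).foldr swi 0 = i := by
  induction i with
  | zero => rfl
  | succ i ih =>
    rw [js_succ, List.foldr_cons, ih]
    unfold swi
    rw [if_pos rfl]

/-! ### The relations -/

theorem mem_Rel {Z : Set ℕ} {i m a : ℕ} [Decidable (m ∈ Z)] :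
    gad m a ∈ Rel k Z i ↔ a = pos k (decide (m ∈ Z)) m i := by
  have h0 : gad m a ∈ Rel k Z i ↔
      ((m % k = i ∧ ((m ∈ Z ∧ a = k) ∨ (m ∉ Z ∧ a = i))) ∨ (m % k ≠ i ∧ a = i)) := by
    constructor
    · rintro ⟨m', a', h, h'⟩
      have h1 : m = m' ∧ a = a' := by
        have := Sum.inr.inj (Sum.inr.inj h)
        exact ⟨congrArg Prod.fst this, congrArg Prod.snd this⟩
      rw [h1.1, h1.2]
      exact h'
    · intro h
      exact ⟨m, a, rfl, h⟩
  rw [h0]
  unfold pos
  by_cases hm : m % k = i <;> by_cases hz : m ∈ Z <;> simp [hm, hz]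

theorem not_mem_Rel {Z : Set ℕ} {i : ℕ} {x : El} (hx : ∀ m a, x = gad m a → k < a)
    (hi : i < k) : x ∉ Rel k Z i := by
  rintro ⟨m, a, h, h'⟩
  have := hx m a h
  rcases h' with ⟨-, ⟨-, h⟩ | ⟨-, h⟩⟩ | ⟨-, h⟩ <;> omega

end FDS.Coord
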