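import Pool.Agent.FDS.Defs
import Pool.Agent.FDS.Words
import Pool.Agent.FDS.Tree
import Pool.Agent.FDS.Tool
import Pool.Agent.FDS.Prim
import Pool.Agent.FDS.Crit
import Pool.Agent.FDS.Coord

/-! Analysis of an arbitrary constructivization. -/

set_option autoImplicit false
set_option maxHeartbeats 400000
set_option linter.unusedSectionVars false

namespace FDS.Anal

open FDS FDS.Words FDS.Tree FDS.Crit FDS.Coord

variable {C : ℕ → ℕ → ℕ → Bool} {S : List ℕ → Bool} {g : ℕ → ℕ} {k : ℕ}

theorem anal_VW_nil (n : ℕ) : VW C S k n [] :=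
  ⟨red_nil, fun c hc => absurd hc (by simp)⟩

theorem anal_VW_cc {n : ℕ} {c : Letter} {w : List Letter} (hc : VL C S k n c = true)
    (hw : VW C S k n w) : VW C S k n (cc c w) := by
  refine ⟨cc_red c hw.1, fun c' hc' => ?_⟩
  rcases mem_cc hc' with h | h
  · rw [h]; exact hc
  · exact hw.2 c' h

/-- elements of index `3 n` are valid words of level `n` -/
theorem anal_idx_ver {n : ℕ} {x : El} (h : idx C S k x = 3 * n) :
    ∃ w, VW C S k n w ∧ x = ver n w := by
  rcases x with i | ⟨n', w⟩ | ⟨m, a⟩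
  · exfalso
    have h1 : idx C S k (Sum.inl i) = 2 := rfl
    rw [h1] at h
    omega
  · have h1 : idx C S k (Sum.inr (Sum.inl (n', w))) =
        if VW C S k n' w then 3 * n' else 2 := rfl
    rw [h1] at h
    split_ifs at h with h2
    · have h3 : n' = n := by omega
      subst h3
      exact ⟨w, h2, rfl⟩
    · omega
  · exfalso
    have h1 : idx C S k (Sum.inr (Sum.inr (m, a))) = if a ≤ k then 3 * m + 1 else 2 := rfl
    rw [h1] at h
    split_ifs at h with h2 <;> omega

/-- elements of index `1 mod 3` are gadget elements -/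
theorem anal_idx_gad {x : El} (h : idx C S k x % 3 = 1) :
    ∃ m a, a ≤ k ∧ x = gad m a ∧ idx C S k x = 3 * m + 1 := by
  rcases x with i | ⟨n', w⟩ | ⟨m, a⟩
  · exfalso
    have h1 : idx C S k (Sum.inl i) = 2 := rfl
    rw [h1] at h
    omega
  · exfalso
    have h1 : idx C S k (Sum.inr (Sum.inl (n', w))) =
        if VW C S k n' w then 3 * n' else 2 := rfl
    rw [h1] at h
    split_ifs at h with h2 <;> omega
  · have h1 : idx C S k (Sum.inr (Sum.inr (m, a))) = if a ≤ k then 3 * m + 1 else 2 := rfl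
    by_cases ha : a ≤ k
    · exact ⟨m, a, ha, rfl, by rw [h1, if_pos ha]⟩
    · exfalso
      rw [h1, if_neg ha] at h
      omega

theorem anal_idx_gad_val {m a : ℕ} (ha : a ≤ k) : idx C S k (gad m a) = 3 * m + 1 := by
  show (if a ≤ k then 3 * m + 1 else 2) = _
  rw [if_pos ha]

/-- `fCoord` always returns a label. -/
theorem anal_fCoord_lab (x y : El) : ∃ j, fCoord C S k x y = lab j := by
  rcases x with i | ⟨n, w⟩ | ⟨m, a⟩
  · exact ⟨0, rfl⟩
  · rcases y with i | ⟨n', w'⟩ | ⟨m, a⟩
    · exact ⟨0, rfl⟩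
    · exact ⟨0, rfl⟩
    · have h : fCoord C S k (Sum.inr (Sum.inl (n, w))) (Sum.inr (Sum.inr (m, a))) =
          if n = m + 1 ∧ VW C S k n w ∧ a ≤ k then lab (coord C S k m w a) else lab 0 := rfl
      rw [h]
      split_ifs
      · exact ⟨_, rfl⟩
      · exact ⟨0, rfl⟩
  · exact ⟨0, rfl⟩

theorem anal_lab_inj {i j : ℕ} (h : lab i = lab j) : i = j := Sum.inl.inj h

/-- Every constructivization `ν` of the algebra sees one of the relations `Rel k Z i`:
there is a computable `F` with `ν y ∈ Rel k Z 0 ↔ F y ∈ Rel k Z i`, onto all pairs `(m, a)`,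
`a ≤ k`. -/
theorem analysis (hy : Hyp C S g) (hC : Primrec (fun p : ℕ × ℕ × ℕ => C p.1 p.2.1 p.2.2))
    (hS : Primrec S)
    (hU : ∀ c : ℕ → ℕ, Computable c → ∃ e, (∀ n, ∃ t, C e n t = true) ∧
      ∀ n t, C e n t = true → c n < t)
    (hk : 0 < k) {Z : Set ℕ} (hZ : ∀ m, m ∈ Z ↔ 0 < (g m).unpair.1)
    {ν : ℕ → El} (hν : IsConstr (Phi C S k) ν) :
    ∃ i < k, ∃ F : ℕ → ℕ × ℕ, Computable F ∧
      (∀ y, ν y ∈ Rel k Z 0 ↔ gad (F y).1 (F y).2 ∈ Rel k Z i) ∧
      ∀ m a, a ≤ k → ∃ y, F y = (m, a) := by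
  classical
  obtain ⟨hsurj, heq, hphi⟩ := hν
  -- Step 0: the operation on names
  obtain ⟨P, hPc, hP⟩ : ∃ P : ℕ × ℕ × ℕ → ℕ, Computable P ∧
      ∀ p : ℕ × ℕ × ℕ, Phi C S k (ν p.1) (ν p.2.1) (ν p.2.2) = ν (P p) := by
    apply Tool.exists_choice (p := fun (p : ℕ × ℕ × ℕ) (d : ℕ) =>
      Phi C S k (ν p.1) (ν p.2.1) (ν p.2.2) = ν d)
    · refine Tool.cp_comp (f := fun x : (ℕ × ℕ × ℕ) × ℕ => (x.1.1, x.1.2.1, x.1.2.2, x.2))
        hphi ?_
      exact (Computable.fst.comp Computable.fst).pair
        ((Computable.fst.comp (Computable.snd.comp Computable.fst)).pair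
          ((Computable.snd.comp (Computable.snd.comp Computable.fst)).pair Computable.snd))
    · intro p
      obtain ⟨d, hd⟩ := hsurj (Phi C S k (ν p.1) (ν p.2.1) (ν p.2.2))
      exact ⟨d, hd.symm⟩
  have hP' : ∀ a b c : ℕ, ν (P (a, b, c)) = Phi C S k (ν a) (ν b) (ν c) := fun a b c =>
    (hP (a, b, c)).symm
  -- Step 1: names of labels
  obtain ⟨z0, hz0⟩ := hsurj (lab 0)
  obtain ⟨lam, hlamc, hlam⟩ : ∃ lam : ℕ → ℕ, Computable lam ∧ ∀ i, ν (lam i) = lab i := by
    have hstep : Computable₂ (fun (_ : ℕ) (q : ℕ × ℕ) => P (z0, q.2, z0)) :=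
      hPc.comp ((Computable.const z0).pair
        ((Computable.snd.comp Computable.snd).pair (Computable.const z0)))
    have hrec := Computable.nat_rec (f := fun n : ℕ => n) (g := fun _ : ℕ => z0)
      (h := fun _ q => P (z0, q.2, z0)) Computable.id (Computable.const z0) hstep
    refine ⟨_, hrec, ?_⟩
    intro i
    induction i with
    | zero => exact hz0
    | succ i ih =>
      show ν (P (z0, _, z0)) = _
      rw [hP', ih, hz0]
      rfl
  -- Step 2: indices
  obtain ⟨ih, hihc, hih⟩ : ∃ ih : ℕ → ℕ, Computable ih ∧ ∀ y, ih y = idx C S k (ν y) := by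
    obtain ⟨f, hf, hf'⟩ := Tool.exists_choice
      (p := fun (y : ℕ) (j : ℕ) => ν (P (lam 1, y, y)) = ν (lam j))
      (Tool.cp_comp (f := fun x : ℕ × ℕ => (P (lam 1, x.1, x.1), lam x.2)) heq
        ((hPc.comp ((Computable.const _).pair (Computable.fst.pair Computable.fst))).pair
          (hlamc.comp Computable.snd)))
      (fun y => ⟨idx C S k (ν y), by rw [hP', hlam, hlam]; rfl⟩)
    refine ⟨f, hf, fun y => ?_⟩
    have h := hf' y
    rw [hP', hlam, hlam] at h
    have h2 : lab (idx C S k (ν y)) = lab (f y) := h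
    exact (anal_lab_inj h2).symm
  -- Step 3: base points
  obtain ⟨b, hbc, hb⟩ : ∃ b : ℕ → ℕ, Computable b ∧ ∀ n, ih (b n) = 3 * n := by
    apply Tool.exists_choice (p := fun (n : ℕ) (y : ℕ) => ih y = 3 * n)
    · exact Tool.cp_eq (hihc.comp Computable.snd)
        (Primrec.nat_mul.to_comp.comp (Computable.const 3) Computable.fst)
    · intro n
      obtain ⟨y, hy⟩ := hsurj (ver n [])
      refine ⟨y, ?_⟩
      rw [hih, hy]
      show (if VW C S k n [] then 3 * n else 2) = _
      rw [if_pos (anal_VW_nil n)]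
  have hD0 : ∀ n, ∃ w, VW C S k n w ∧ ν (b n) = ver n w := fun n =>
    anal_idx_ver (by rw [← hih, hb])
  choose D hD hbD using hD0
  -- Step 4: walks
  let walk : List Letter → ℕ → ℕ := fun z y =>
    z.foldr (fun c s => P (lam 2, s, lam (Encodable.encode c))) y
  have hwalk : ∀ (z : List Letter) (y n : ℕ) (w : List Letter), ν y = ver n w →
      VW C S k n w → (∀ c ∈ z, VL C S k n c = true) →
      ν (walk z y) = ver n (app z w) ∧ VW C S k n (app z w) := by
    intro z y n w hyw hw
    induction z with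
    | nil => intro _; exact ⟨hyw, hw⟩
    | cons c z ihz =>
      intro hz
      obtain ⟨h1, h2⟩ := ihz (fun c' hc' => hz c' (List.mem_cons_of_mem _ hc'))
      have hc := hz c List.mem_cons_self
      refine ⟨?_, ?_⟩
      · show ν (P (lam 2, walk z y, lam (Encodable.encode c))) = _
        rw [hP', h1, hlam, hlam, app_cons]
        show (if VW C S k n (app z w) ∧
          VL C S k n (Denumerable.ofNat Letter (Encodable.encode c)) = true then
          ver n (cc (Denumerable.ofNat Letter (Encodable.encode c)) (app z w)) else lab 0) = _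
        rw [Denumerable.ofNat_encode, if_pos ⟨h2, hc⟩]
      · rw [app_cons]
        exact anal_VW_cc hc h2
  have hwalkc : Computable₂ walk := by
    have hh : Computable₂ (fun (_ : List Letter × ℕ) (q : Letter × ℕ) =>
        P (lam 2, q.2, lam (Encodable.encode q.1))) :=
      hPc.comp ((Computable.const _).pair ((Computable.snd.comp Computable.snd).pair
        (hlamc.comp (Computable.encode.comp (Computable.fst.comp Computable.snd)))))
    exact Tool.computable_foldr (f := fun p : List Letter × ℕ => p.1) (g := fun p => p.2)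
      (h := fun _ q => P (lam 2, q.2, lam (Encodable.encode q.1)))
      Computable.fst Computable.snd hh
  obtain ⟨l, hlc, hl⟩ : ∃ l : ℕ → List Letter, Computable l ∧ ∀ n,
      (∀ c ∈ l n, VL C S k n c = true) ∧
        ν (walk (l n) (b n)) = ν (P (lam 3, b (n + 1), z0)) := by
    apply Tool.exists_choice (p := fun (n : ℕ) (z : List Letter) =>
      (∀ c ∈ z, VL C S k n c = true) ∧ ν (walk z (b n)) = ν (P (lam 3, b (n + 1), z0)))
    · apply Tool.cp_and
      · apply Tool.cp_forall_mem (p := fun (x : ℕ × List Letter) c => VL C S k x.1 c = true)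
          (l := fun x => x.2) _ Computable.snd
        apply Computable.computablePred
        have h1 : Computable (fun x : (ℕ × List Letter) × Letter => VL C S k x.1.1 x.2) :=
          (Prim.primrec_VL hC hS k).to_comp.comp (Computable.fst.comp Computable.fst)
            Computable.snd
        exact h1.of_eq (fun a => by simp)
      · refine Tool.cp_comp (f := fun x : ℕ × List Letter =>
          (walk x.2 (b x.1), P (lam 3, b (x.1 + 1), z0))) heq ?_
        refine (hwalkc.comp Computable.snd (hbc.comp Computable.fst)).pair ?_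
        exact hPc.comp ((Computable.const _).pair
          ((hbc.comp (Primrec.succ.to_comp.comp Computable.fst)).pair (Computable.const _)))
    · intro n
      have hrho : ∀ c ∈ rho 1 (D (n + 1)), VL C S k n c = true := by
        intro c hc
        obtain ⟨c', hc', rfl⟩ := mem_rho hc
        exact VL_dn ((hD (n + 1)).2 c' hc')
      have hz : ∀ c ∈ rho 1 (D (n + 1)) ++ (D n).reverse, VL C S k n c = true := by
        intro c hc
        rcases List.mem_append.1 hc with h | h
        · exact hrho c h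
        · exact (hD n).2 c (List.mem_reverse.1 h)
      refine ⟨rho 1 (D (n + 1)) ++ (D n).reverse, hz, ?_⟩
      rw [(hwalk _ _ n (D n) (hbD n) (hD n) hz).1, hP', hlam, hbD (n + 1)]
      have h1 : app (rho 1 (D (n + 1)) ++ (D n).reverse) (D n) = rho 1 (D (n + 1)) := by
        rw [app_append, app_reverse_self _ (hD n).1, app_nil (rho_red _ _)]
      rw [h1]
      show _ = if VW C S k (n + 1) (D (n + 1)) then ver n (rho 1 (D (n + 1))) else lab 0
      rw [if_pos (hD (n + 1))]
  have hrec : ∀ n, rho 1 (D (n + 1)) = app (l n) (D n) := by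
    intro n
    have h := (hl n).2
    rw [(hwalk _ _ n (D n) (hbD n) (hD n) (hl n).1).1, hP', hlam, hbD (n + 1)] at h
    have h2 : ver n (app (l n) (D n)) =
        if VW C S k (n + 1) (D (n + 1)) then ver n (rho 1 (D (n + 1))) else lab 0 := h
    rw [if_pos (hD (n + 1))] at h2
    have h3 := Sum.inl.inj (Sum.inr.inj h2)
    exact (congrArg Prod.snd h3).symm
  -- Step 5: the computable solution
  obtain ⟨e, he, hel⟩ := hU (fun n => Encodable.encode (l n)) (Computable.encode.comp hlc)
  obtain ⟨d, w, hdc, hwV, hwrec, hdw⟩ := Crit.solve hy hC hS k e he hlc hel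
    (fun n => (hl n).1) hD hrec
  obtain ⟨f, hf⟩ := exists_path hy
  obtain ⟨js, hjs, hwjs⟩ := thread_form hy hf hwV hwrec
  have hwuw : ∀ n, w n = uw f js n := hwjs
  -- Step 6: decoding
  have hdiv : Computable (fun y : ℕ => ih y / 3) :=
    Primrec.nat_div.to_comp.comp hihc (Computable.const 3)
  have hdiv1 : Computable (fun y : ℕ => ih y / 3 + 1) := Primrec.succ.to_comp.comp hdiv
  have hb1 : Computable (fun y : ℕ => b (ih y / 3 + 1)) := hbc.comp hdiv1
  obtain ⟨lc, hlcc, hlc'⟩ : ∃ lc : ℕ → ℕ, Computable lc ∧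
      ∀ y, ν (P (lam 4, b (ih y / 3 + 1), y)) = ν (lam (lc y)) := by
    apply Tool.exists_choice (p := fun (y : ℕ) (j : ℕ) =>
      ν (P (lam 4, b (ih y / 3 + 1), y)) = ν (lam j))
    · refine Tool.cp_comp (f := fun x : ℕ × ℕ =>
        (P (lam 4, b (ih x.1 / 3 + 1), x.1), lam x.2)) heq ?_
      have h1 : Computable (fun x : ℕ × ℕ => b (ih x.1 / 3 + 1)) := hb1.comp Computable.fst
      have h2 : Computable (fun x : ℕ × ℕ => (lam 4, b (ih x.1 / 3 + 1), x.1)) :=
        (Computable.const _).pair (h1.pair Computable.fst)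
      exact (hPc.comp h2).pair (hlamc.comp Computable.snd)
    · intro y
      rw [hP', hlam]
      obtain ⟨j, hj⟩ := anal_fCoord_lab (C := C) (S := S) (k := k) (ν (b (ih y / 3 + 1))) (ν y)
      refine ⟨j, ?_⟩
      rw [hlam]
      exact hj
  let F : ℕ → ℕ × ℕ := fun y =>
    if ih y % 3 = 1 then
      (ih y / 3, coord C S k (ih y / 3) (d (ih y / 3 + 1)).reverse (lc y))
    else (0, k + 1)
  have hFc : Computable F := by
    apply Tool.computable_ite
    · exact Tool.cp_eq (Primrec.nat_mod.to_comp.comp hihc (Computable.const 3))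
        (Computable.const 1)
    · refine hdiv.pair ?_
      have h1 : Computable (fun p : ℕ × List Letter × ℕ => coord C S k p.1 p.2.1 p.2.2) :=
        (Prim.primrec_coord hC hS k).to_comp
      have h2 : Computable (fun y : ℕ => (d (ih y / 3 + 1)).reverse) :=
        Computable.list_reverse.comp (hdc.comp hdiv1)
      have h3 : Computable (fun y : ℕ => (ih y / 3, (d (ih y / 3 + 1)).reverse, lc y)) :=
        hdiv.pair (h2.pair hlcc)
      exact Computable.comp
        (f := fun p : ℕ × List Letter × ℕ => coord C S k p.1 p.2.1 p.2.2)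
        (g := fun y : ℕ => (ih y / 3, (d (ih y / 3 + 1)).reverse, lc y)) h1 h3
    · exact Computable.const _
  have hFval : ∀ y m a, a ≤ k → ν y = gad m a → F y = (m, coord C S k m (w (m + 1)) a) := by
    intro y m a ha hya
    have h1 : ih y = 3 * m + 1 := by rw [hih, hya, anal_idx_gad_val ha]
    have h2 : ih y % 3 = 1 := by omega
    have h3 : ih y / 3 = m := by omega
    have h4 : lc y = coord C S k m (D (m + 1)) a := by
      have h := hlc' y
      rw [h3, hP', hlam, hlam, hbD, hya] at h
      have h5 : (if m + 1 = m + 1 ∧ VW C S k (m + 1) (D (m + 1)) ∧ a ≤ k then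
        lab (coord C S k m (D (m + 1)) a) else lab 0) = lab (lc y) := h
      rw [if_pos ⟨rfl, hD (m + 1), ha⟩] at h5
      exact (anal_lab_inj h5).symm
    show (if ih y % 3 = 1 then
      (ih y / 3, coord C S k (ih y / 3) (d (ih y / 3 + 1)).reverse (lc y))
      else (0, k + 1)) = _
    rw [if_pos h2, h3, h4, hdw (m + 1), coord_app, coord_reverse]
  have hFother : ∀ y, ih y % 3 ≠ 1 → F y = (0, k + 1) := fun y h => if_neg h
  have hwle : ∀ m a, a ≤ k → coord C S k m (w (m + 1)).reverse a ≤ k := by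
    intro m a ha
    apply coord_le _ ha
    intro c hc
    exact (VL_iff.1 ((hwV (m + 1)).2 c (List.mem_reverse.1 hc))).2.2
  refine ⟨js.foldr swi 0, foldr_swi_lt hjs hk, F, hFc, ?_, ?_⟩
  · intro y
    by_cases h1 : ih y % 3 = 1
    · obtain ⟨m, a, ha, hya, -⟩ := anal_idx_gad (C := C) (S := S) (k := k) (x := ν y)
        (by rw [← hih]; exact h1)
      rw [hFval y m a ha hya, hya]
      show gad m a ∈ Rel k Z 0 ↔ gad m (coord C S k m (w (m + 1)) a) ∈ Rel k Z (js.foldr swi 0)
      rw [mem_Rel, mem_Rel]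
      have hdec : decide (m ∈ Z) = decide (0 < (g m).unpair.1) := by
        simp only [hZ m]
      rw [hdec, ← coord_uw hy hf hjs m hk, ← hwuw]
      constructor
      · intro h; rw [h]
      · intro h
        have h2 := congrArg (coord C S k m (w (m + 1)).reverse) h
        rwa [coord_reverse, coord_reverse] at h2
    · rw [hFother y h1]
      constructor
      · intro h
        exfalso
        obtain ⟨m, a, hya, hrel⟩ := h
        by_cases ha : a ≤ k
        · apply h1
          rw [hih, hya, anal_idx_gad_val ha]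
          omega
        · rcases hrel with ⟨-, ⟨-, h⟩ | ⟨-, h⟩⟩ | ⟨-, h⟩ <;> omega
      · intro h
        exfalso
        have h' : gad 0 (k + 1) ∈ Rel k Z (js.foldr swi 0) := h
        rw [mem_Rel] at h'
        have := pos_le (k := k) (b := decide (0 ∈ Z)) (m := 0) (foldr_swi_lt hjs hk)
        omega
  · intro m a ha
    obtain ⟨y, hy'⟩ := hsurj (gad m (coord C S k m (w (m + 1)).reverse a))
    refine ⟨y, ?_⟩
    rw [hFval y m _ (hwle m a ha) hy', coord_reverse']

end FDS.Anal
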