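import Pool.Agent.FDS.Defs
import Pool.Agent.FDS.Words
import Pool.Agent.FDS.Tree
import Pool.Agent.FDS.Tool
import Pool.Agent.FDS.Prim
import Pool.Agent.FDS.Crit
import Pool.Agent.FDS.Coord

/-! Automorphisms of the algebra and the realization of all the relations. -/

set_option autoImplicit false
set_option linter.unusedSectionVars false

namespace FDS.Auto

open FDS FDS.Words FDS.Tree FDS.Crit FDS.Coord

variable {C : ℕ → ℕ → ℕ → Bool} {S : List ℕ → Bool} {g : ℕ → ℕ} {k : ℕ}

/-- the standard constructivization -/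
def nu0 (z : ℕ) : El := (Encodable.decode (α := El) z).getD (lab 0)

theorem nu0_surj : Function.Surjective nu0 := by
  intro x
  refine ⟨Encodable.encode x, ?_⟩
  unfold nu0
  rw [Encodable.encodek]
  rfl

theorem nu0_comp : Computable nu0 :=
  Primrec.to_comp (Primrec.option_getD.comp Primrec.decode (Primrec.const _))

/-- the automorphism given by the thread `s` -/
def hh (C : ℕ → ℕ → ℕ → Bool) (S : List ℕ → Bool) (k : ℕ) (f : ℕ → Node) (s : List ℕ) : El → El
  | Sum.inl i => Sum.inl i
  | Sum.inr (Sum.inl (n, w)) => if VW C S k n w then ver n (app w (uw f s n)) else ver n w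
  | Sum.inr (Sum.inr (m, a)) =>
      if a ≤ k then gad m (coord C S k m (uw f s (m + 1)).reverse a) else gad m a

section

variable {f : ℕ → Node} {s : List ℕ}

theorem VW_app {n : ℕ} {w u : List Letter} (hw : VW C S k n w) (hu : VW C S k n u) :
    VW C S k n (app w u) := by
  refine ⟨app_red _ hu.1, fun c hc => ?_⟩
  rcases mem_app hc with h | h
  · exact hw.2 c h
  · exact hu.2 c h

theorem hh_lab (i : ℕ) : hh C S k f s (lab i) = lab i := rfl

theorem hh_ver {n : ℕ} {w : List Letter} (h : VW C S k n w) :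
    hh C S k f s (ver n w) = ver n (app w (uw f s n)) := if_pos h

theorem hh_ver' {n : ℕ} {w : List Letter} (h : ¬ VW C S k n w) :
    hh C S k f s (ver n w) = ver n w := if_neg h

theorem hh_gad {m a : ℕ} (h : a ≤ k) :
    hh C S k f s (gad m a) = gad m (coord C S k m (uw f s (m + 1)).reverse a) := if_pos h

theorem hh_gad' {m a : ℕ} (h : ¬ a ≤ k) : hh C S k f s (gad m a) = gad m a := if_neg h

theorem uw_lt (hs : ∀ j ∈ s, j + 1 < k) (n : ℕ) : ∀ c ∈ (uw f s n).reverse, c.2 + 1 < k := by
  intro c hc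
  rw [List.mem_reverse] at hc
  obtain ⟨j, hj, rfl⟩ := List.mem_map.1 hc
  exact hs j hj

theorem hh_hh (hf : IsPath C S f) (hs : ∀ j ∈ s, j + 1 < k) (hred : Red s) (x : El) :
    hh C S k f s.reverse (hh C S k f s x) = x := by
  rcases x with i | ⟨n, w⟩ | ⟨m, a⟩
  · rfl
  · by_cases hw : VW C S k n w
    · have hu := uw_VW hf hs hred n
      show hh C S k f s.reverse (hh C S k f s (ver n w)) = ver n w
      rw [hh_ver hw, hh_ver (VW_app hw hu), ← uw_reverse]
      congr 1
      have hr : Red (uw f s n).reverse := red_reverse hu.1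
      rw [app_app _ _ hr]
      have h1 := app_reverse_self (uw f s n).reverse hr
      rw [List.reverse_reverse] at h1
      rw [h1, app_nil hw.1]
    · show hh C S k f s.reverse (hh C S k f s (ver n w)) = ver n w
      rw [hh_ver' hw, hh_ver' hw]
  · by_cases ha : a ≤ k
    · show hh C S k f s.reverse (hh C S k f s (gad m a)) = gad m a
      rw [hh_gad ha, hh_gad (coord_le (uw_lt hs _) ha), ← uw_reverse, List.reverse_reverse]
      rw [coord_reverse']
    · show hh C S k f s.reverse (hh C S k f s (gad m a)) = gad m a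
      rw [hh_gad' ha, hh_gad' ha]

theorem hh_inj (hf : IsPath C S f) (hs : ∀ j ∈ s, j + 1 < k) (hred : Red s) :
    Function.Injective (hh C S k f s) :=
  Function.LeftInverse.injective (hh_hh hf hs hred)

theorem hh_surj (hf : IsPath C S f) (hs : ∀ j ∈ s, j + 1 < k) (hred : Red s) :
    Function.Surjective (hh C S k f s) := by
  intro x
  refine ⟨hh C S k f s.reverse x, ?_⟩
  have := hh_hh (s := s.reverse) hf (by simpa using hs) (red_reverse hred) x
  rwa [List.reverse_reverse] at this

theorem idx_hh (hf : IsPath C S f) (hs : ∀ j ∈ s, j + 1 < k) (hred : Red s) (x : El) :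
    idx C S k (hh C S k f s x) = idx C S k x := by
  rcases x with i | ⟨n, w⟩ | ⟨m, a⟩
  · rfl
  · by_cases hw : VW C S k n w
    · show idx C S k (hh C S k f s (ver n w)) = idx C S k (ver n w)
      rw [hh_ver hw]
      show (if VW C S k n (app w (uw f s n)) then 3 * n else 2) = if VW C S k n w then 3 * n else 2
      rw [if_pos hw, if_pos (VW_app hw (uw_VW hf hs hred n))]
    · show idx C S k (hh C S k f s (ver n w)) = idx C S k (ver n w)
      rw [hh_ver' hw]
  · by_cases ha : a ≤ k
    · show idx C S k (hh C S k f s (gad m a)) = idx C S k (gad m a)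
      rw [hh_gad ha]
      show (if _ ≤ k then 3 * m + 1 else 2) = if a ≤ k then 3 * m + 1 else 2
      rw [if_pos ha, if_pos (coord_le (uw_lt hs _) ha)]
    · show idx C S k (hh C S k f s (gad m a)) = idx C S k (gad m a)
      rw [hh_gad' ha]

theorem VW_iff_hh (hf : IsPath C S f) (hs : ∀ j ∈ s, j + 1 < k) (hred : Red s) {n : ℕ}
    {w : List Letter} (hw : VW C S k n w) : VW C S k n (app w (uw f s n)) :=
  VW_app hw (uw_VW hf hs hred n)

theorem fSucc_hh (x : El) : fSucc (hh C S k f s x) = hh C S k f s (fSucc x) := by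
  rcases x with i | ⟨n, w⟩ | ⟨m, a⟩
  · rfl
  · by_cases hw : VW C S k n w
    · show fSucc (hh C S k f s (ver n w)) = _
      rw [hh_ver hw]
      rfl
    · show fSucc (hh C S k f s (ver n w)) = _
      rw [hh_ver' hw]
      rfl
  · by_cases ha : a ≤ k
    · show fSucc (hh C S k f s (gad m a)) = _
      rw [hh_gad ha]
      rfl
    · show fSucc (hh C S k f s (gad m a)) = _
      rw [hh_gad' ha]
      rfl

theorem fMul_ver (n : ℕ) (w : List Letter) (c : ℕ) : fMul C S k (ver n w) (lab c) =
    if VW C S k n w ∧ VL C S k n (Denumerable.ofNat Letter c) = true then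
      ver n (cc (Denumerable.ofNat Letter c) w) else lab 0 := rfl

theorem fMul_other {x y : El} (h : ¬ ∃ n w c, x = ver n w ∧ y = lab c) :
    fMul C S k x y = lab 0 := by
  rcases x with i | ⟨n, w⟩ | ⟨m, a⟩
  · rfl
  · rcases y with i' | ⟨n', w'⟩ | ⟨m', a'⟩
    · exact absurd ⟨n, w, i', rfl, rfl⟩ h
    · rfl
    · rfl
  · rfl

theorem hh_is_ver {x : El} {n : ℕ} {w : List Letter} (h : hh C S k f s x = ver n w) :
    ∃ w', x = ver n w' := by
  rcases x with i | ⟨n', w'⟩ | ⟨m, a⟩
  · exact absurd h (by simp [hh, ver])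
  · unfold hh at h
    simp only at h
    split_ifs at h
    · have := congrArg Prod.fst (Sum.inl.inj (Sum.inr.inj h))
      exact ⟨w', by rw [← (show n' = n from this)]; rfl⟩
    · have := congrArg Prod.fst (Sum.inl.inj (Sum.inr.inj h))
      exact ⟨w', by rw [← (show n' = n from this)]; rfl⟩
  · unfold hh at h
    simp only at h
    split_ifs at h
    · exact absurd h (by simp [gad, ver])
    · exact absurd h (by simp [gad, ver])

theorem hh_is_lab {x : El} {i : ℕ} (h : hh C S k f s x = lab i) : x = lab i := by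
  rcases x with i' | ⟨n', w'⟩ | ⟨m, a⟩
  · exact h
  · unfold hh at h
    simp only at h
    split_ifs at h <;> exact absurd h (by simp [lab, ver])
  · unfold hh at h
    simp only at h
    split_ifs at h <;> exact absurd h (by simp [gad, lab])

theorem hh_is_gad {x : El} {m a : ℕ} (h : hh C S k f s x = gad m a) : ∃ a', x = gad m a' := by
  rcases x with i | ⟨n', w'⟩ | ⟨m', a'⟩
  · exact absurd h (by simp [hh, gad])
  · unfold hh at h
    simp only at h
    split_ifs at h <;> exact absurd h (by simp [gad, ver])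
  · unfold hh at h
    simp only at h
    split_ifs at h
    · have := congrArg Prod.fst (Sum.inr.inj (Sum.inr.inj h))
      exact ⟨a', by rw [← (show m' = m from this)]; rfl⟩
    · have := congrArg Prod.fst (Sum.inr.inj (Sum.inr.inj h))
      exact ⟨a', by rw [← (show m' = m from this)]; rfl⟩

theorem fMul_hh (hf : IsPath C S f) (hs : ∀ j ∈ s, j + 1 < k) (hred : Red s) (x y : El) :
    fMul C S k (hh C S k f s x) (hh C S k f s y) = hh C S k f s (fMul C S k x y) := by
  by_cases h : ∃ n w c, x = ver n w ∧ y = lab c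
  · obtain ⟨n, w, c, rfl, rfl⟩ := h
    rw [hh_lab, fMul_ver]
    have hu := uw_VW hf hs hred n
    by_cases hw : VW C S k n w
    · rw [hh_ver hw, fMul_ver]
      by_cases hc : VL C S k n (Denumerable.ofNat Letter c) = true
      · rw [if_pos ⟨VW_app hw hu, hc⟩, if_pos ⟨hw, hc⟩]
        have hw' : VW C S k n (cc (Denumerable.ofNat Letter c) w) := by
          refine ⟨cc_red _ hw.1, fun c' hc' => ?_⟩
          rcases mem_cc hc' with h | h
          · rw [h]; exact hc
          · exact hw.2 c' h
        rw [hh_ver hw', app_cc _ _ hu.1]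
      · rw [if_neg (fun h => hc h.2), if_neg (fun h => hc h.2)]
        rfl
    · rw [hh_ver' hw, fMul_ver, if_neg (fun h => hw h.1)]
      rfl
  · rw [fMul_other h, fMul_other]
    · rfl
    · rintro ⟨n, w, c, h1, h2⟩
      obtain ⟨w', hw'⟩ := hh_is_ver h1
      exact h ⟨n, w', c, hw', hh_is_lab h2⟩

theorem fDown_hh (hf : IsPath C S f) (hs : ∀ j ∈ s, j + 1 < k) (hred : Red s) (x : El) :
    fDown C S k (hh C S k f s x) = hh C S k f s (fDown C S k x) := by
  rcases x with i | ⟨n, w⟩ | ⟨m, a⟩
  · rfl
  · show fDown C S k (hh C S k f s (ver n w)) = hh C S k f s (fDown C S k (ver n w))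
    cases n with
    | zero =>
      by_cases hw : VW C S k 0 w
      · rw [hh_ver hw]
        rfl
      · rw [hh_ver' hw]
        rfl
    | succ n =>
      have e : ∀ w, fDown C S k (ver (n + 1) w) =
          if VW C S k (n + 1) w then ver n (rho 1 w) else lab 0 := fun w => rfl
      by_cases hw : VW C S k (n + 1) w
      · have hu := uw_VW hf hs hred (n + 1)
        rw [hh_ver hw, e, e, if_pos hw, if_pos (VW_app hw hu), hh_ver]
        · rw [rho_app, uw_rho hf hred, rho_eq_app, app_app _ _ (uw_VW hf hs hred n).1]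
          rfl
        · refine ⟨rho_red _ _, fun c hc => ?_⟩
          obtain ⟨c', hc', rfl⟩ := mem_rho hc
          exact VL_dn (hw.2 c' hc')
      · rw [hh_ver' hw, e, if_neg hw]
        rfl
  · by_cases ha : a ≤ k
    · show fDown C S k (hh C S k f s (gad m a)) = _
      rw [hh_gad ha]
      rfl
    · show fDown C S k (hh C S k f s (gad m a)) = _
      rw [hh_gad' ha]
      rfl

theorem fCoord_gad (n : ℕ) (w : List Letter) (m a : ℕ) : fCoord C S k (ver n w) (gad m a) =
    if n = m + 1 ∧ VW C S k n w ∧ a ≤ k then lab (coord C S k m w a) else lab 0 := rfl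

theorem fCoord_other {x y : El} (h : ¬ ∃ n w m a, x = ver n w ∧ y = gad m a) :
    fCoord C S k x y = lab 0 := by
  rcases x with i | ⟨n, w⟩ | ⟨m, a⟩
  · rfl
  · rcases y with i' | ⟨n', w'⟩ | ⟨m', a'⟩
    · rfl
    · rfl
    · exact absurd ⟨n, w, m', a', rfl, rfl⟩ h
  · rfl

theorem fCoord_hh (hf : IsPath C S f) (hs : ∀ j ∈ s, j + 1 < k) (hred : Red s) (x y : El) :
    fCoord C S k (hh C S k f s x) (hh C S k f s y) = hh C S k f s (fCoord C S k x y) := by
  by_cases h : ∃ n w m a, x = ver n w ∧ y = gad m a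
  · obtain ⟨n, w, m, a, rfl, rfl⟩ := h
    rw [fCoord_gad]
    have hu := uw_VW hf hs hred n
    by_cases ha : a ≤ k
    · by_cases hw : VW C S k n w
      · rw [hh_ver hw, hh_gad ha, fCoord_gad]
        by_cases hn : n = m + 1
        · subst hn
          rw [if_pos ⟨rfl, VW_app hw hu, coord_le (uw_lt hs _) ha⟩, if_pos ⟨rfl, hw, ha⟩,
            hh_lab, coord_app, coord_reverse']
        · rw [if_neg (fun h => hn h.1), if_neg (fun h => hn h.1)]
          rfl
      · rw [hh_ver' hw, hh_gad ha, fCoord_gad, if_neg (fun h => hw h.2.1),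
          if_neg (fun h => hw h.2.1)]
        rfl
    · rw [hh_gad' ha, if_neg (fun h => ha h.2.2)]
      by_cases hw : VW C S k n w
      · rw [hh_ver hw, fCoord_gad, if_neg (fun h => ha h.2.2)]
        rfl
      · rw [hh_ver' hw, fCoord_gad, if_neg (fun h => ha h.2.2)]
        rfl
  · rw [fCoord_other h, fCoord_other]
    · rfl
    · rintro ⟨n, w, m, a, h1, h2⟩
      obtain ⟨w', hw'⟩ := hh_is_ver h1
      obtain ⟨a', ha'⟩ := hh_is_gad h2
      exact h ⟨n, w', m, a', hw', ha'⟩

theorem Phi_other {x y z : El} (h : ∀ i, x ≠ lab i) : Phi C S k x y z = lab 0 := by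
  rcases x with i | x
  · exact absurd rfl (h i)
  · rfl

theorem Phi_hh (hf : IsPath C S f) (hs : ∀ j ∈ s, j + 1 < k) (hred : Red s) (x y z : El) :
    Phi C S k (hh C S k f s x) (hh C S k f s y) (hh C S k f s z) =
      hh C S k f s (Phi C S k x y z) := by
  by_cases h : ∀ i, x ≠ lab i
  · rw [Phi_other h, Phi_other (fun i hi => h i (hh_is_lab hi))]
    rfl
  · push Not at h
    obtain ⟨i, rfl⟩ := h
    rw [hh_lab]
    rcases i with _ | _ | _ | _ | _ | i
    · exact fSucc_hh y
    · show lab (idx C S k (hh C S k f s y)) = hh C S k f s (lab (idx C S k y))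
      rw [idx_hh hf hs hred]
      rfl
    · exact fMul_hh hf hs hred y z
    · exact fDown_hh hf hs hred y
    · exact fCoord_hh hf hs hred y z
    · rfl

/-- `h ∘ nu0` is a constructivization -/
theorem constr_hh (hC : Primrec (fun p : ℕ × ℕ × ℕ => C p.1 p.2.1 p.2.2)) (hS : Primrec S)
    (hf : IsPath C S f) (hs : ∀ j ∈ s, j + 1 < k) (hred : Red s) :
    IsConstr (Phi C S k) (fun z => hh C S k f s (nu0 z)) := by
  refine ⟨(hh_surj hf hs hred).comp nu0_surj, ?_, ?_⟩
  · have h1 : ComputablePred (fun p : ℕ × ℕ => nu0 p.1 = nu0 p.2) :=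
      Tool.cp_eq (nu0_comp.comp Computable.fst) (nu0_comp.comp Computable.snd)
    exact h1.of_eq (fun p => ((hh_inj hf hs hred).eq_iff).symm)
  · have hP : Computable (fun p : ℕ × ℕ × ℕ × ℕ =>
        Phi C S k (nu0 p.1) (nu0 p.2.1) (nu0 p.2.2.1)) := by
      have := (Prim.primrec_Phi hC hS k).to_comp
      exact this.comp ((nu0_comp.comp Computable.fst).pair
        ((nu0_comp.comp (Computable.fst.comp Computable.snd)).pair
          (nu0_comp.comp (Computable.fst.comp (Computable.snd.comp Computable.snd)))))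
    have h1 : ComputablePred (fun p : ℕ × ℕ × ℕ × ℕ =>
        Phi C S k (nu0 p.1) (nu0 p.2.1) (nu0 p.2.2.1) = nu0 p.2.2.2) :=
      Tool.cp_eq hP (nu0_comp.comp (Computable.snd.comp (Computable.snd.comp Computable.snd)))
    refine h1.of_eq (fun p => ?_)
    rw [Phi_hh hf hs hred]
    exact ((hh_inj hf hs hred).eq_iff).symm

end

/-- The `i`-th relation is seen by a constructivization. -/
theorem realize (hy : Hyp C S g) (hC : Primrec (fun p : ℕ × ℕ × ℕ => C p.1 p.2.1 p.2.2))
    (hS : Primrec S) {Z : Set ℕ} (hZ : ∀ m, m ∈ Z ↔ 0 < (g m).unpair.1) {i : ℕ} (hi : i < k) :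
    ∃ ν : ℕ → El, IsConstr (Phi C S k) ν ∧ ∀ z, ν z ∈ Rel k Z 0 ↔ nu0 z ∈ Rel k Z i := by
  classical
  obtain ⟨f, hf⟩ := exists_path hy
  refine ⟨_, constr_hh hC hS hf (js_lt hi) (js_red i), ?_⟩
  intro z
  have hdec : ∀ m, decide (m ∈ Z) = decide (0 < (g m).unpair.1) := fun m => by
    simp only [hZ m]
  rcases nu0 z with l | ⟨n, w⟩ | ⟨m, a⟩
  · constructor
    · rintro ⟨m, a, h, -⟩
      exact absurd h (by simp [hh, gad])
    · rintro ⟨m, a, h, -⟩
      exact absurd h (by simp [gad])
  · constructor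
    · rintro ⟨m, a, h, -⟩
      obtain ⟨a', ha'⟩ := hh_is_gad h
      exact absurd ha' (by simp [gad])
    · rintro ⟨m, a, h, -⟩
      exact absurd h (by simp [gad])
  · show hh C S k f (js i) (gad m a) ∈ Rel k Z 0 ↔ gad m a ∈ Rel k Z i
    by_cases ha : a ≤ k
    · rw [hh_gad ha, mem_Rel, mem_Rel, hdec]
      have h1 := coord_uw hy hf (js_lt hi) m (i := 0) (by omega)
      rw [js_foldr] at h1
      constructor
      · intro h
        rw [← h1, ← h, coord_reverse']
      · intro h
        rw [h, ← h1, coord_reverse]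
    · rw [hh_gad' ha]
      constructor
      · intro h
        exact absurd h (not_mem_Rel (by
          intro m' a' h'
          have := congrArg Prod.snd (Sum.inr.inj (Sum.inr.inj h'))
          have h'' : a = a' := this
          omega) (by omega))
      · intro h
        exact absurd h (not_mem_Rel (by
          intro m' a' h'
          have := congrArg Prod.snd (Sum.inr.inj (Sum.inr.inj h'))
          have h'' : a = a' := this
          omega) hi)

end FDS.Auto
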