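import Pool.Agent.FDS.Defs

/-! The universal convergence predicate `Cv e n t`: for all `k ≤ n` the `e`-th partial
computable function converges at `k` within `t` steps (`evaln t`) to a value `< t`. -/

set_option autoImplicit false

namespace FDS.Conv

open Nat.Partrec (Code)
open Nat.Partrec.Code

/-- for all `k ≤ n`, `evaln t e k` is defined and `< t` -/
def Cv (e n t : ℕ) : Bool :=
  decide (∀ k < n + 1, ∃ x < t, evaln t (Denumerable.ofNat Code e) k = some x)

theorem exists_iff_getD (t : ℕ) (o : Option ℕ) : (∃ x < t, o = some x) ↔ o.getD t < t := by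
  cases o with
  | none => simp
  | some x => simp

theorem Cv_primrec : Primrec (fun p : ℕ × ℕ × ℕ => Cv p.1 p.2.1 p.2.2) := by
  have h1 : PrimrecRel (fun (k : ℕ) (p : ℕ × ℕ) =>
      ∃ x < p.2, evaln p.2 (Denumerable.ofNat Code p.1) k = some x) := by
    have h2 : Primrec (fun q : ℕ × (ℕ × ℕ) =>
        evaln q.2.2 (Denumerable.ofNat Code q.2.1) q.1) := by
      refine primrec_evaln.comp (Primrec.pair (Primrec.pair ?_ ?_) ?_)
      · exact Primrec.snd.comp Primrec.snd
      · exact (Primrec.ofNat Code).comp (Primrec.fst.comp Primrec.snd)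
      · exact Primrec.fst
    have h3 : Primrec (fun q : ℕ × (ℕ × ℕ) =>
        (evaln q.2.2 (Denumerable.ofNat Code q.2.1) q.1).getD q.2.2) :=
      Primrec.option_getD.comp h2 (Primrec.snd.comp Primrec.snd)
    have h4 : PrimrecPred (fun q : ℕ × (ℕ × ℕ) =>
        (evaln q.2.2 (Denumerable.ofNat Code q.2.1) q.1).getD q.2.2 < q.2.2) :=
      Primrec.nat_lt.comp h3 (Primrec.snd.comp Primrec.snd)
    refine PrimrecPred.of_eq h4 ?_
    intro q
    exact (exists_iff_getD _ _).symm
  have h6 : PrimrecPred (fun p : ℕ × ℕ × ℕ => ∀ k < p.2.1 + 1, ∃ x < p.2.2,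
      evaln p.2.2 (Denumerable.ofNat Code p.1) k = some x) :=
    (h1.forall_mem_list.comp (f := fun p : ℕ × ℕ × ℕ => List.range (p.2.1 + 1))
      (g := fun p : ℕ × ℕ × ℕ => (p.1, p.2.2))
      (Primrec.list_range.comp (Primrec.succ.comp (Primrec.fst.comp Primrec.snd)))
      (Primrec.pair Primrec.fst (Primrec.snd.comp Primrec.snd))).of_eq (by simp)
  obtain ⟨D, hD⟩ := h6
  refine hD.of_eq ?_
  intro p
  unfold Cv
  simp only [decide_eq_decide]

theorem Cv_iff (e n t : ℕ) : Cv e n t = true ↔
    ∀ k < n + 1, ∃ x < t, evaln t (Denumerable.ofNat Code e) k = some x := by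
  unfold Cv
  simp only [decide_eq_true_eq]

theorem Cv_mono (e n t t' : ℕ) (h : t ≤ t') (hc : Cv e n t = true) : Cv e n t' = true := by
  rw [Cv_iff] at hc ⊢
  intro k hk
  obtain ⟨x, hx, he⟩ := hc k hk
  refine ⟨x, lt_of_lt_of_le hx h, ?_⟩
  exact evaln_mono h he

theorem Cv_anti (e n m t : ℕ) (h : m ≤ n) (hc : Cv e n t = true) : Cv e m t = true := by
  rw [Cv_iff] at hc ⊢
  intro k hk
  exact hc k (by omega)

/-- every computable function has an index -/
theorem Cv_index {c : ℕ → ℕ} (hc : Computable c) :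
    ∃ e, (∀ n, ∃ t, Cv e n t = true) ∧ ∀ n t, Cv e n t = true → c n < t := by
  have hp : Nat.Partrec (fun n => (Part.some (c n))) := by
    have : Partrec (fun n => (Part.some (c n))) := hc
    exact Partrec.nat_iff.1 this
  obtain ⟨code, hcode⟩ := exists_code.1 hp
  refine ⟨Encodable.encode code, ?_, ?_⟩
  · intro n
    induction n with
    | zero =>
      have h0 : c 0 ∈ eval code 0 := by rw [hcode]; simp
      obtain ⟨k, hk⟩ := evaln_complete.1 h0
      refine ⟨max k (c 0 + 1), ?_⟩
      rw [Cv_iff]
      intro j hj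
      have : j = 0 := by omega
      subst this
      refine ⟨c 0, by omega, ?_⟩
      rw [Denumerable.ofNat_encode]
      exact evaln_mono (le_max_left _ _) hk
    | succ n ih =>
      obtain ⟨t, ht⟩ := ih
      have h0 : c (n + 1) ∈ eval code (n + 1) := by rw [hcode]; simp
      obtain ⟨k, hk⟩ := evaln_complete.1 h0
      refine ⟨max t (max k (c (n + 1) + 1)), ?_⟩
      rw [Cv_iff] at ht ⊢
      intro j hj
      rcases Nat.lt_or_ge j (n + 1) with h | h
      · obtain ⟨x, hx, he⟩ := ht j h
        exact ⟨x, lt_of_lt_of_le hx (le_max_left _ _), evaln_mono (le_max_left _ _) he⟩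
      · have : j = n + 1 := by omega
        subst this
        refine ⟨c (n + 1), by omega, ?_⟩
        rw [Denumerable.ofNat_encode]
        exact evaln_mono ((le_max_left _ _).trans (le_max_right _ _)) hk
  · intro n t ht
    rw [Cv_iff] at ht
    obtain ⟨x, hx, he⟩ := ht n (by omega)
    rw [Denumerable.ofNat_encode] at he
    have := evaln_sound (k := t) (c := code) (n := n) (x := x) he
    rw [hcode] at this
    have hx2 : x = c n := by simpa using this
    omega

end FDS.Conv
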