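import Pool.Agent.FDS.Stmt

/-!
Definitions for MP_c11ecb_lc (finite degree spectra).

* Statement level (`IsConstr`, `degSet`, `DgSp`, `IsSigma`): see Stmt.lean.
* Words in involutions, written backwards (`cc`, `app`, `rh`).
* The tree of nodes (`st`, `Tr`), for a convergence predicate `C` and a tree `S` with a
  unique path.
* The algebra `Phi` on `El` and the relations `Rel k ... i`.
-/

set_option autoImplicit false

namespace FDS

/-! ### Words -/

section Words

variable {α β : Type} [DecidableEq α] [DecidableEq β]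

/-- Multiply the word `l` (written backwards, last letter first) by the involution `c`. -/
def cc (c : α) : List α → List α
  | [] => [c]
  | a :: l => if a = c then l else c :: a :: l

/-- Reduced words. -/
def Red (l : List α) : Prop := l.IsChain (· ≠ ·)

/-- Multiply the word `w` by the letters of `x`. -/
def app (x w : List α) : List α := x.foldr cc w

/-- Multiplication by an optional letter. -/
def cco : Option β → List β → List β
  | none, l => l
  | some b, l => cc b l

/-- The homomorphism induced by a partial map of letters. -/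
def rh (h : α → Option β) (x : List α) : List β := x.foldr (fun c y => cco (h c) y) []

end Words

/-! ### Nodes -/

/-- A node: list of entries (payload, time), last entry first. -/
abbrev Node := List (ℕ × ℕ)

/-- State of a node: validity, level, decisions `G` (last first; `0` = total, `m + 1` = stuck
at `m`), values `v` (last first), last time. -/
abbrev State := Bool × ℕ × List ℕ × List ℕ × ℕ

/-- all `total` decisions of `G` have converged at level `n` by time `t` -/
def fok (C : ℕ → ℕ → ℕ → Bool) (n t : ℕ) : List ℕ → Bool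
  | [] => true
  | q :: G => (if q = 0 then C G.length n t else true) && fok C n t G

/-- no `stuck` decision of `G` has been refuted by time `t` -/
def wok (C : ℕ → ℕ → ℕ → Bool) (t : ℕ) : List ℕ → Bool
  | [] => true
  | q :: G => (if q = 0 then true else !C G.length (q - 1) t) && wok C t G

/-- is the node at level `L` with decisions `G` inside a stem? -/
def inStem (L : ℕ) (G : List ℕ) : Bool := decide (L < G.headI)

/-- the payload of a decision entry -/
def pay (p : ℕ) : ℕ × List ℕ := Denumerable.ofNat (ℕ × List ℕ) p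

/-- new decision list -/
def nG (L : ℕ) (G : List ℕ) (p : ℕ) : List ℕ := if inStem L G then G else (pay p).1 :: G

/-- new value list -/
def nv (L : ℕ) (G v : List ℕ) (p : ℕ) : List ℕ := if inStem L G then v else (pay p).2 ++ v

/-- the condition on a new time `t'` at level `L + 1` -/
def good (C : ℕ → ℕ → ℕ → Bool) (L : ℕ) (G : List ℕ) (t p t' : ℕ) : Bool :=
  decide (t < t') && fok C (L + 1) t' (nG L G p) &&
    (inStem L G || decide ((pay p).1 < 2) || C G.length ((pay p).1 - 2) t')

/-- the condition on the payload -/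
def okpay (S : List ℕ → Bool) (L : ℕ) (G v : List ℕ) (p : ℕ) : Bool :=
  if inStem L G then decide (p = 0)
  else decide ((nv L G v p).length = max (max v.length (L + 1)) (pay p).1) && S (nv L G v p)

/-- one entry -/
def nxt (C : ℕ → ℕ → ℕ → Bool) (S : List ℕ → Bool) (x : ℕ × ℕ) (s : State) : State :=
  (s.1 && okpay S s.2.1 s.2.2.1 s.2.2.2.1 x.1 &&
      (good C s.2.1 s.2.2.1 s.2.2.2.2 x.1 x.2 &&
        !good C s.2.1 s.2.2.1 s.2.2.2.2 x.1 (x.2 - 1) &&
        wok C x.2 (nG s.2.1 s.2.2.1 x.1)),
    s.2.1 + 1, nG s.2.1 s.2.2.1 x.1, nv s.2.1 s.2.2.1 s.2.2.2.1 x.1, x.2)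

/-- the state of a node -/
def st (C : ℕ → ℕ → ℕ → Bool) (S : List ℕ → Bool) (ξ : Node) : State :=
  ξ.foldr (nxt C S) (true, 0, [], [], 0)

/-- the tree -/
def Tr (C : ℕ → ℕ → ℕ → Bool) (S : List ℕ → Bool) (ξ : Node) : Bool := (st C S ξ).1

/-- the list `[g (n-1), …, g 0]` -/
def gl (g : ℕ → ℕ) : ℕ → List ℕ
  | 0 => []
  | n + 1 => g n :: gl g n

/-- the standing assumptions: `C` is monotone in time and antitone in the level; `S` is a tree
(of lists written backwards) with the unique path `g` -/
structure Hyp (C : ℕ → ℕ → ℕ → Bool) (S : List ℕ → Bool) (g : ℕ → ℕ) : Prop where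
  cmono : ∀ e n t t', t ≤ t' → C e n t = true → C e n t' = true
  canti : ∀ e n m t, m ≤ n → C e n t = true → C e m t = true
  spre : ∀ a v, S (a :: v) = true → S v = true
  spath : ∀ n, S (gl g n) = true
  suniq : ∀ h : ℕ → ℕ, (∀ n, S (gl h n) = true) → h = g

/-! ### Letters and the algebra -/

abbrev Letter := Node × ℕ

/-- letters of level `n` -/
def VL (C : ℕ → ℕ → ℕ → Bool) (S : List ℕ → Bool) (k n : ℕ) (c : Letter) : Bool :=
  Tr C S c.1 && decide (c.1.length = n) && decide (c.2 + 1 < k)

/-- valid words of level `n` -/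
def VW (C : ℕ → ℕ → ℕ → Bool) (S : List ℕ → Bool) (k n : ℕ) (w : List Letter) : Prop :=
  Red w ∧ ∀ c ∈ w, VL C S k n c = true

/-- restrict a letter by `i` levels -/
def dn (i : ℕ) (c : Letter) : Letter := (c.1.drop i, c.2)

/-- restriction of words by `i` levels -/
def rho (i : ℕ) (w : List Letter) : List Letter := rh (fun c => some (dn i c)) w

/-- the bit for gadget `m` read off a node -/
def bit (C : ℕ → ℕ → ℕ → Bool) (S : List ℕ → Bool) (ξ : Node) (m : ℕ) : Bool :=
  decide (0 < ((st C S ξ).2.2.2.1.reverse.getD m 0).unpair.1)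

/-- the position of the `i`-th marker in gadget `m` if its bit is `b` -/
def pos (k : ℕ) (b : Bool) (m i : ℕ) : ℕ := if m % k = i ∧ b = true then k else i

/-- the transposition by which a letter acts on gadget `m` -/
def sw (k : ℕ) (b : Bool) (m j a : ℕ) : ℕ :=
  if a = pos k b m j then pos k b m (j + 1) else if a = pos k b m (j + 1) then pos k b m j else a

/-- the coordinate of `a` in the frame `w` -/
def coord (C : ℕ → ℕ → ℕ → Bool) (S : List ℕ → Bool) (k m : ℕ) (w : List Letter) (a : ℕ) : ℕ :=
  w.foldr (fun c b => sw k (bit C S c.1 m) m c.2 b) a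

/-- elements: labels, words, gadget elements -/
abbrev El := ℕ ⊕ ((ℕ × List Letter) ⊕ (ℕ × ℕ))

def lab (i : ℕ) : El := Sum.inl i
def ver (n : ℕ) (w : List Letter) : El := Sum.inr (Sum.inl (n, w))
def gad (m a : ℕ) : El := Sum.inr (Sum.inr (m, a))

section Algebra

variable (C : ℕ → ℕ → ℕ → Bool) (S : List ℕ → Bool) (k : ℕ)

instance (n : ℕ) (w : List Letter) : Decidable (VW C S k n w) := by
  unfold VW Red; infer_instance

/-- index of an element -/
def idx : El → ℕ
  | Sum.inl _ => 2
  | Sum.inr (Sum.inl (n, w)) => if VW C S k n w then 3 * n else 2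
  | Sum.inr (Sum.inr (m, a)) => if a ≤ k then 3 * m + 1 else 2

/-- successor of labels -/
def fSucc : El → El
  | Sum.inl i => lab (i + 1)
  | _ => lab 0

/-- multiplication of a word by a letter -/
def fMul : El → El → El
  | Sum.inr (Sum.inl (n, w)), Sum.inl c =>
      if VW C S k n w ∧ VL C S k n (Denumerable.ofNat Letter c) = true then
        ver n (cc (Denumerable.ofNat Letter c) w) else lab 0
  | _, _ => lab 0

/-- restriction of a word to the previous level -/
def fDown : El → El
  | Sum.inr (Sum.inl (n + 1, w)) => if VW C S k (n + 1) w then ver n (rho 1 w) else lab 0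
  | _ => lab 0

/-- the coordinate of a gadget element in a frame -/
def fCoord : El → El → El
  | Sum.inr (Sum.inl (n, w)), Sum.inr (Sum.inr (m, a)) =>
      if n = m + 1 ∧ VW C S k n w ∧ a ≤ k then lab (coord C S k m w a) else lab 0
  | _, _ => lab 0

/-- the ternary operation -/
def Phi : El → El → El → El
  | Sum.inl 0, x, _ => fSucc x
  | Sum.inl 1, x, _ => lab (idx C S k x)
  | Sum.inl 2, x, y => fMul C S k x y
  | Sum.inl 3, x, _ => fDown C S k x
  | Sum.inl 4, x, y => fCoord C S k x y
  | _, _, _ => lab 0

/-- the `i`-th relation: the `i`-th markers -/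
def Rel (k : ℕ) (Z : Set ℕ) (i : ℕ) : Set El :=
  {x | ∃ m a, x = gad m a ∧
    ((m % k = i ∧ ((m ∈ Z ∧ a = k) ∨ (m ∉ Z ∧ a = i))) ∨ (m % k ≠ i ∧ a = i))}

end Algebra

end FDS
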