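import Pool.Agent.FDS.Defs

/-! Turing degrees of sets: one-question reductions. -/

set_option autoImplicit false

namespace FDS.Deg

open FDS

/-- The reduction at the level of characteristic functions. -/
theorem chi_reducible {X Y : Set ℕ} {g : ℕ → ℕ} (hg : Computable g) {h : ℕ → Bool → Bool}
    (hh : Computable₂ h)
    (H : ∀ x, x ∈ X ↔ ((g x ∈ Y ∧ h x true = true) ∨ (g x ∉ Y ∧ h x false = true))) :
    TuringReducible (chi X) (chi Y) := by
  classical
  have hF : Computable (fun n : ℕ => bif h n.unpair.1 (decide (n.unpair.2 = 1)) then 1 else 0) := by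
    refine Computable.cond ?_ (Computable.const 1) (Computable.const 0)
    refine hh.comp (Computable.fst.comp Computable.unpair) ?_
    have h1 : Primrec (fun n : ℕ => decide (n.unpair.2 = 1)) :=
      (Primrec.eq.comp (Primrec.snd.comp Primrec.unpair) (Primrec.const 1)).decide
    exact h1.to_comp
  have hF' : Nat.RecursiveIn {chi Y} (fun n : ℕ => (Part.some
      (bif h n.unpair.1 (decide (n.unpair.2 = 1)) then 1 else 0) : Part ℕ)) :=
    Nat.Partrec.recursiveIn (Partrec.nat_iff.1 hF)
  have hg' : Nat.RecursiveIn {chi Y} (fun n : ℕ => (Part.some (g n) : Part ℕ)) :=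
    Nat.Partrec.recursiveIn (Partrec.nat_iff.1 hg)
  have hid : Nat.RecursiveIn {chi Y} (fun n : ℕ => (Part.some n : Part ℕ)) :=
    Nat.Partrec.recursiveIn (Partrec.nat_iff.1 Computable.id)
  have hY : Nat.RecursiveIn {chi Y} (chi Y) := Nat.RecursiveIn.oracle _ rfl
  have hG := Nat.RecursiveIn.pair hid (Nat.RecursiveIn.comp hY hg')
  have hK := Nat.RecursiveIn.comp hF' hG
  rw [TuringReducible, RecursiveIn.iff_nat]
  refine Nat.RecursiveIn.of_eq hK ?_
  intro n
  have e : (Part.some (g n) >>= chi Y) = chi Y (g n) := Part.bind_some _ _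
  rw [e]
  simp only [chi]
  by_cases h1 : g n ∈ Y
  · have : (n ∈ X) ↔ h n true = true := by
      rw [H n]; simp [h1]
    by_cases h2 : h n true = true
    · simp [this, h1, h2, Seq.seq]
    · simp [this, h1, h2, Seq.seq]
  · have : (n ∈ X) ↔ h n false = true := by
      rw [H n]; simp [h1]
    by_cases h2 : h n false = true
    · simp [this, h1, h2, Seq.seq]
    · simp [this, h1, h2, Seq.seq]

/-- If membership in `X` at `x` is computed from `x` and the answer to the one question
`g x ∈ Y`, then `X` is Turing reducible to `Y`. -/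
theorem degSet_le {X Y : Set ℕ} {g : ℕ → ℕ} (hg : Computable g) {h : ℕ → Bool → Bool}
    (hh : Computable₂ h)
    (H : ∀ x, x ∈ X ↔ ((g x ∈ Y ∧ h x true = true) ∨ (g x ∉ Y ∧ h x false = true))) :
    degSet X ≤ degSet Y :=
  chi_reducible hg hh H

end FDS.Deg
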