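import Pool.Agent.FDS.Defs

/-! Arithmetical sets are coded by the unique path of a primitive recursive tree. -/

set_option autoImplicit false

namespace FDS.Sigma

open FDS

/-- the tree of all lists all of whose nonempty suffixes pass the test -/
def Sall (chk : ℕ → List ℕ → Bool) : List ℕ → Bool
  | [] => true
  | a :: v => chk a v && Sall chk v

theorem primrec_Sall {chk : ℕ → List ℕ → Bool} (h : Primrec₂ chk) : Primrec (Sall chk) := by
  have h1 : Primrec₂ (fun (_ : List ℕ) (p : ℕ × List ℕ × Bool) => chk p.1 p.2.1 && p.2.2) := by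
    refine Primrec₂.comp Primrec.and ?_ ?_
    · exact h.comp (Primrec.fst.comp Primrec.snd)
        (Primrec.fst.comp (Primrec.snd.comp Primrec.snd))
    · exact Primrec.snd.comp (Primrec.snd.comp Primrec.snd)
  refine (Primrec.list_rec Primrec.id (Primrec.const true) h1).of_eq fun l => ?_
  show (List.recOn l true fun b l IH => chk b l && IH : Bool) = Sall chk l
  induction l with
  | nil => rfl
  | cons a l ih => simp only [Sall, ← ih]

theorem Sall_gl {chk : ℕ → List ℕ → Bool} {h : ℕ → ℕ} :
    (∀ n, Sall chk (gl h n) = true) ↔ ∀ n, chk (h n) (gl h n) = true := by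
  constructor
  · intro H n
    have := H (n + 1)
    simp only [gl, Sall, Bool.and_eq_true] at this
    exact this.1
  · intro H n
    induction n with
    | zero => rfl
    | succ n ih => simp only [gl, Sall, Bool.and_eq_true]; exact ⟨H n, ih⟩

theorem gl_length (h : ℕ → ℕ) (n : ℕ) : (gl h n).length = n := by
  induction n with
  | zero => rfl
  | succ n ih => simp [gl, ih]

theorem gl_map (h f : ℕ → ℕ) (n : ℕ) : (gl h n).map f = gl (fun m => f (h m)) n := by
  induction n with
  | zero => rfl
  | succ n ih => simp [gl, ih]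

theorem gl_getD (h : ℕ → ℕ) (n x : ℕ) (hx : x < n) : (gl h n).reverse.getD x 0 = h x := by
  induction n with
  | zero => omega
  | succ n ih =>
    simp only [gl, List.reverse_cons]
    rcases Nat.lt_succ_iff_lt_or_eq.mp hx with h1 | h1
    · rw [List.getD_append _ _ _ _ (by simp [gl_length, h1])]
      exact ih h1
    · subst h1
      rw [List.getD_append_right _ _ _ _ (by simp [gl_length])]
      simp [gl_length]

open Nat.Partrec (Code)
open Nat.Partrec.Code

/-- the test at the bottom level -/
def chk0 (c : Code) (a : ℕ) (v : List ℕ) : Bool :=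
  decide (evaln a.unpair.2 c v.length = some a.unpair.1) &&
    decide (evaln (a.unpair.2 - 1) c v.length = none)

theorem primrec_chk0 (c : Code) : Primrec₂ (chk0 c) := by
  have hl : Primrec fun p : ℕ × List ℕ => p.2.length := Primrec.list_length.comp Primrec.snd
  have h1 : Primrec fun p : ℕ × List ℕ => p.1.unpair.2 :=
    Primrec.snd.comp (Primrec.unpair.comp Primrec.fst)
  have h0 : Primrec fun p : ℕ × List ℕ => p.1.unpair.1 :=
    Primrec.fst.comp (Primrec.unpair.comp Primrec.fst)
  have h2 : Primrec fun p : ℕ × List ℕ => p.1.unpair.2 - 1 :=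
    Primrec.nat_sub.comp h1 (Primrec.const 1)
  have e1 : Primrec fun p : ℕ × List ℕ => evaln p.1.unpair.2 c p.2.length :=
    primrec_evaln.comp (Primrec.pair (Primrec.pair h1 (Primrec.const c)) hl)
  have e2 : Primrec fun p : ℕ × List ℕ => evaln (p.1.unpair.2 - 1) c p.2.length :=
    primrec_evaln.comp (Primrec.pair (Primrec.pair h2 (Primrec.const c)) hl)
  have e3 : Primrec fun p : ℕ × List ℕ => (some p.1.unpair.1 : Option ℕ) :=
    Primrec.option_some.comp h0
  have d1 : Primrec fun p : ℕ × List ℕ =>
      decide (evaln p.1.unpair.2 c p.2.length = some p.1.unpair.1) :=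
    (Primrec.eq.comp e1 e3).decide
  have d2 : Primrec fun p : ℕ × List ℕ =>
      decide (evaln (p.1.unpair.2 - 1) c p.2.length = (none : Option ℕ)) :=
    (Primrec.eq.comp e2 (Primrec.const none)).decide
  exact Primrec.and.comp d1 d2

/-- the computable case -/
theorem exists_tree_zero {X : Set ℕ} (h : ComputablePred (fun x => x ∈ X)) :
    ∃ (S : List ℕ → Bool) (g : ℕ → ℕ), Primrec S ∧ (∀ a v, S (a :: v) = true → S v = true) ∧
      (∀ n, S (gl g n) = true) ∧ (∀ h : ℕ → ℕ, (∀ n, S (gl h n) = true) → h = g) ∧
      ∀ m, m ∈ X ↔ 0 < (g m).unpair.1 := by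
  obtain ⟨hdec, hcomp⟩ := h
  have hf : Computable (fun x : ℕ => if x ∈ X then 1 else 0) := by
    have := (Primrec.cond (Primrec.id (α := Bool)) (Primrec.const 1) (Primrec.const 0)).to_comp.comp
      hcomp
    refine this.of_eq fun x => ?_
    by_cases hx : x ∈ X <;> simp [hx]
  obtain ⟨c, hc⟩ := exists_code.1 (Partrec.nat_iff.1 hf.partrec)
  have hev : ∀ m, (if m ∈ X then 1 else 0) ∈ eval c m := by
    intro m
    rw [hc]
    exact Part.mem_some _
  have hval : ∀ k m x, x ∈ evaln k c m → x = (if m ∈ X then 1 else 0) := by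
    intro k m x hx
    have := evaln_sound hx
    exact Part.mem_unique this (hev m)
  have hex : ∀ m, ∃ k, (if m ∈ X then 1 else 0) ∈ evaln k c m := fun m =>
    evaln_complete.1 (hev m)
  classical
  -- least time
  refine ⟨Sall (chk0 c), fun m => Nat.pair (if m ∈ X then 1 else 0) (Nat.find (hex m)),
    primrec_Sall (primrec_chk0 c), ?_, ?_, ?_, ?_⟩
  · intro a v hav
    simp only [Sall, Bool.and_eq_true] at hav
    exact hav.2
  · rw [Sall_gl]
    intro m
    have h1 := Nat.find_spec (hex m)
    simp only [chk0, Nat.unpair_pair, gl_length, Bool.and_eq_true, decide_eq_true_eq]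
    refine ⟨h1, ?_⟩
    by_contra hne
    obtain ⟨x, hx⟩ := Option.ne_none_iff_exists'.1 hne
    have hx' := hval _ _ _ hx
    subst hx'
    have h2 : Nat.find (hex m) ≤ Nat.find (hex m) - 1 := Nat.find_min' (hex m) hx
    have h0 : Nat.find (hex m) = 0 := by omega
    rw [h0] at h1
    simp [evaln] at h1
  · intro g hg
    rw [Sall_gl] at hg
    funext m
    have h1 := hg m
    simp only [chk0, gl_length, Bool.and_eq_true, decide_eq_true_eq] at h1
    have h2 := hval _ _ _ h1.1
    have h3 : (g m).unpair.2 = Nat.find (hex m) := by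
      symm
      rw [Nat.find_eq_iff]
      constructor
      · have := h1.1
        rw [h2] at this
        exact this
      · intro k hk hk2
        have h4 : k ≤ (g m).unpair.2 - 1 := by omega
        have h5 := evaln_mono h4 hk2
        rw [h1.2] at h5
        simp at h5
    calc g m = Nat.pair (g m).unpair.1 (g m).unpair.2 := (Nat.pair_unpair _).symm
      _ = _ := by rw [h3, h2]
  · intro m
    simp only [Nat.unpair_pair]
    by_cases hm : m ∈ X <;> simp [hm]

/-- the test at a higher level -/
def chkS (S : List ℕ → Bool) (a : ℕ) (v : List ℕ) : Bool :=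
  S ((a :: v).map (fun q => q.unpair.2)) &&
    (decide (a.unpair.2.unpair.1 = 0) &&
      !(decide (((a :: v).reverse.getD v.length.unpair.1 0).unpair.1 = 0)) &&
      decide (((a :: v).reverse.getD v.length.unpair.1 0).unpair.1 ≤ v.length.unpair.2 + 1) ||
    !(decide (a.unpair.2.unpair.1 = 0)) &&
      !(decide (((a :: v).reverse.getD v.length.unpair.1 0).unpair.1 = v.length.unpair.2 + 1)))

theorem primrec_chkS {S : List ℕ → Bool} (hS : Primrec S) : Primrec₂ (chkS S) := by
  have hl : Primrec fun p : ℕ × List ℕ => p.2.length := Primrec.list_length.comp Primrec.snd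
  have hx : Primrec fun p : ℕ × List ℕ => p.2.length.unpair.1 :=
    Primrec.fst.comp (Primrec.unpair.comp hl)
  have hy : Primrec fun p : ℕ × List ℕ => p.2.length.unpair.2 + 1 :=
    Primrec.succ.comp (Primrec.snd.comp (Primrec.unpair.comp hl))
  have hu : Primrec fun p : ℕ × List ℕ => (p.1 :: p.2) :=
    Primrec.list_cons.comp Primrec.fst Primrec.snd
  have hb : Primrec fun p : ℕ × List ℕ => p.1.unpair.2.unpair.1 :=
    Primrec.fst.comp (Primrec.unpair.comp (Primrec.snd.comp (Primrec.unpair.comp Primrec.fst)))
  have hw : Primrec fun p : ℕ × List ℕ =>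
      ((p.1 :: p.2).reverse.getD p.2.length.unpair.1 0).unpair.1 :=
    Primrec.fst.comp (Primrec.unpair.comp
      ((Primrec.list_getD 0).comp (Primrec.list_reverse.comp hu) hx))
  have hm : Primrec fun p : ℕ × List ℕ => (p.1 :: p.2).map (fun q => q.unpair.2) := by
    refine Primrec.list_map hu ?_
    exact (Primrec.snd.comp (Primrec.unpair.comp Primrec.snd)).to₂
  have d0 : Primrec fun p : ℕ × List ℕ => decide (p.1.unpair.2.unpair.1 = 0) :=
    (Primrec.eq.comp hb (Primrec.const 0)).decide
  have d1 : Primrec fun p : ℕ × List ℕ =>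
      decide (((p.1 :: p.2).reverse.getD p.2.length.unpair.1 0).unpair.1 = 0) :=
    (Primrec.eq.comp hw (Primrec.const 0)).decide
  have d2 : Primrec fun p : ℕ × List ℕ =>
      decide (((p.1 :: p.2).reverse.getD p.2.length.unpair.1 0).unpair.1 ≤
        p.2.length.unpair.2 + 1) :=
    (Primrec.nat_le.comp hw hy).decide
  have d3 : Primrec fun p : ℕ × List ℕ =>
      decide (((p.1 :: p.2).reverse.getD p.2.length.unpair.1 0).unpair.1 =
        p.2.length.unpair.2 + 1) :=
    (Primrec.eq.comp hw hy).decide
  exact Primrec.and.comp (hS.comp hm) (Primrec.or.comp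
    (Primrec.and.comp (Primrec.and.comp d0 (Primrec.not.comp d1)) d2)
    (Primrec.and.comp (Primrec.not.comp d0) (Primrec.not.comp d3)))

theorem chkS_gl {S : List ℕ → Bool} {h : ℕ → ℕ} {z : ℕ} :
    chkS S (h z) (gl h z) = true ↔
      S (gl (fun m => (h m).unpair.2) (z + 1)) = true ∧
      (((h z).unpair.2.unpair.1 = 0 ∧ (h z.unpair.1).unpair.1 ≠ 0 ∧
        (h z.unpair.1).unpair.1 ≤ z.unpair.2 + 1) ∨
      ((h z).unpair.2.unpair.1 ≠ 0 ∧ (h z.unpair.1).unpair.1 ≠ z.unpair.2 + 1)) := by
  have hx : (gl h (z + 1)).reverse.getD z.unpair.1 0 = h z.unpair.1 :=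
    gl_getD h (z + 1) _ (Nat.lt_succ_of_le (Nat.unpair_left_le z))
  have hgl : h z :: gl h z = gl h (z + 1) := rfl
  simp only [chkS, hgl, gl_length, hx, gl_map, Bool.and_eq_true, Bool.or_eq_true,
    Bool.not_eq_true', decide_eq_true_eq, decide_eq_false_iff_not, ne_eq, and_assoc]

/-- `S` (lists written backwards, last value first) is a primitive recursive tree with the
unique path `g`, and `g` codes the characteristic function of `X`: `m ∈ X` iff the first
component of `g m` is positive. Proof by induction on `n`.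
`n = 0`: `g m = pair (if m ∈ X then 1 else 0) (least time at which a code for the characteristic
function of X converges at m)`.
`n → n + 1`: `X = {x | ∃ y, pair x y ∈ Y}`, `Yᶜ` coded by `g'`; `g x = pair w (g' x)` with
`w = 0` if `x ∉ X` and `w = y + 1` for the least `y` with `pair x y ∈ Y` otherwise; the tree
checks all pairs with `pair x y < length`, `x < length`. -/
theorem exists_tree {n : ℕ} {X : Set ℕ} (h : IsSigma n X) :
    ∃ (S : List ℕ → Bool) (g : ℕ → ℕ), Primrec S ∧ (∀ a v, S (a :: v) = true → S v = true) ∧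
      (∀ n, S (gl g n) = true) ∧ (∀ h : ℕ → ℕ, (∀ n, S (gl h n) = true) → h = g) ∧
      ∀ m, m ∈ X ↔ 0 < (g m).unpair.1 := by
  induction n generalizing X with
  | zero => exact exists_tree_zero h
  | succ n ih =>
    obtain ⟨Y, hY, hXY⟩ := h
    obtain ⟨S, g, hS, hpre, hpath, huniq, hcode⟩ := ih hY
    have hcode' : ∀ m, m ∈ Y ↔ (g m).unpair.1 = 0 := by
      intro m
      have := hcode m
      rw [Set.mem_compl_iff] at this
      constructor
      · intro hm
        by_contra hne
        exact (this.2 (Nat.pos_of_ne_zero hne)) hm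
      · intro h0
        by_contra hne
        have := this.1 hne
        omega
    classical
    -- the witness function
    let w : ℕ → ℕ := fun x => if hx : ∃ y, Nat.pair x y ∈ Y then Nat.find hx + 1 else 0
    have hw0 : ∀ x, (¬ ∃ y, Nat.pair x y ∈ Y) → w x = 0 := fun x hx => dif_neg hx
    have hw1 : ∀ x, (hx : ∃ y, Nat.pair x y ∈ Y) → w x = Nat.find hx + 1 := fun x hx => dif_pos hx
    refine ⟨Sall (chkS S), fun x => Nat.pair (w x) (g x), primrec_Sall (primrec_chkS hS),
      ?_, ?_, ?_, ?_⟩
    · intro a v hav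
      simp only [Sall, Bool.and_eq_true] at hav
      exact hav.2
    · rw [Sall_gl]
      intro z
      refine (chkS_gl (h := fun x => Nat.pair (w x) (g x))).2 ?_
      simp only [Nat.unpair_pair]
      refine ⟨hpath (z + 1), ?_⟩
      by_cases hz : z ∈ Y
      · left
        refine ⟨(hcode' z).1 hz, ?_⟩
        have hex : ∃ y, Nat.pair z.unpair.1 y ∈ Y := ⟨z.unpair.2, by rwa [Nat.pair_unpair]⟩
        rw [hw1 _ hex]
        refine ⟨by omega, ?_⟩
        have := Nat.find_min' hex (m := z.unpair.2) (by rwa [Nat.pair_unpair])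
        omega
      · right
        refine ⟨fun h0 => hz ((hcode' z).2 h0), ?_⟩
        by_cases hex : ∃ y, Nat.pair z.unpair.1 y ∈ Y
        · rw [hw1 _ hex]
          intro heq
          have h1 : Nat.find hex = z.unpair.2 := by omega
          have h2 := Nat.find_spec hex
          rw [h1, Nat.pair_unpair] at h2
          exact hz h2
        · rw [hw0 _ hex]
          omega
    · intro f hf
      rw [Sall_gl] at hf
      have hg : (fun m => (f m).unpair.2) = g := by
        apply huniq
        intro n
        cases n with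
        | zero => exact hpath 0
        | succ z => exact (chkS_gl.1 (hf z)).1
      have hg' : ∀ m, (f m).unpair.2 = g m := fun m => congrFun hg m
      have hcond : ∀ z, (((f z).unpair.2.unpair.1 = 0 ∧ (f z.unpair.1).unpair.1 ≠ 0 ∧
        (f z.unpair.1).unpair.1 ≤ z.unpair.2 + 1) ∨
        ((f z).unpair.2.unpair.1 ≠ 0 ∧ (f z.unpair.1).unpair.1 ≠ z.unpair.2 + 1)) := fun z =>
        (chkS_gl.1 (hf z)).2
      simp only [hg'] at hcond
      have hw : ∀ x, (f x).unpair.1 = w x := by
        intro x
        by_cases hex : ∃ y, Nat.pair x y ∈ Y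
        · rw [hw1 _ hex]
          have h1 := Nat.find_spec hex
          have h2 := hcond (Nat.pair x (Nat.find hex))
          simp only [Nat.unpair_pair] at h2
          rcases h2 with ⟨_, h3, h4⟩ | ⟨h3, _⟩
          · obtain ⟨y, hy⟩ := Nat.exists_eq_succ_of_ne_zero h3
            have h5 := hcond (Nat.pair x y)
            simp only [Nat.unpair_pair] at h5
            have h6 : Nat.pair x y ∈ Y := by
              rw [hcode']
              rcases h5 with ⟨h5, _⟩ | ⟨_, h5⟩
              · exact h5
              · exact absurd hy h5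
            have h7 := Nat.find_min' hex h6
            omega
          · exact absurd ((hcode' _).1 h1) h3
        · rw [hw0 _ hex]
          by_contra hne
          obtain ⟨y, hy⟩ := Nat.exists_eq_succ_of_ne_zero hne
          have h5 := hcond (Nat.pair x y)
          simp only [Nat.unpair_pair] at h5
          rcases h5 with ⟨h5, _⟩ | ⟨_, h5⟩
          · exact hex ⟨y, (hcode' _).2 h5⟩
          · exact absurd hy h5
      funext x
      rw [← hw x, ← hg' x, Nat.pair_unpair]
    · intro m
      simp only [Nat.unpair_pair]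
      rw [hXY]
      by_cases hex : ∃ y, Nat.pair m y ∈ Y
      · rw [hw1 _ hex]
        simp only [hex, Nat.succ_pos]
      · rw [hw0 _ hex]
        simp [hex]

/-- joins, general form -/
theorem isSigma_join_gen {n k : ℕ} (A : ℕ → Set ℕ) (hA : ∀ i < k, IsSigma n (A i))
    {h s : ℕ → ℕ} (hh : Computable h) (hs : Computable s) (hsk : ∀ z, s z < k) :
    IsSigma n {z | h z ∈ A (s z)} := by
  induction n generalizing A h s with
  | zero =>
    -- choose computable characteristic functions
    have h1 : ∀ i, ∃ f : ℕ → Bool, Computable f ∧ (i < k → ∀ x, f x = true ↔ x ∈ A i) := by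
      intro i
      by_cases hi : i < k
      · obtain ⟨hdec, hcomp⟩ := hA i hi
        exact ⟨fun x => decide (x ∈ A i), hcomp, fun _ x => by simp⟩
      · exact ⟨fun _ => false, Computable.const false, fun h => absurd h hi⟩
    choose f hf hfA using h1
    have h2 : ∀ j, ∃ F : ℕ → Bool, Computable F ∧ ∀ z, s z < j → F z = f (s z) (h z) := by
      intro j
      induction j with
      | zero => exact ⟨fun _ => false, Computable.const false, fun z hz => absurd hz (by omega)⟩
      | succ j ihj =>
        obtain ⟨F, hF, hFz⟩ := ihj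
        refine ⟨fun z => bif decide (s z = j) then f j (h z) else F z, ?_, ?_⟩
        · refine Computable.cond ?_ ((hf j).comp hh) hF
          have : Computable₂ (fun a b : ℕ => decide (a = b)) :=
            (Primrec.eq (α := ℕ)).decide.to_comp
          exact this.comp hs (Computable.const j)
        · intro z hz
          by_cases hzj : s z = j
          · simp [hzj]
          · have : s z < j := by omega
            simp [hzj, hFz z this]
    obtain ⟨F, hF, hFz⟩ := h2 k
    classical
    show ComputablePred (fun x => x ∈ {z | h z ∈ A (s z)})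
    refine ⟨inferInstance, hF.of_eq fun z => ?_⟩
    have h3 := hfA (s z) (hsk z) (h z)
    rw [hFz z (hsk z)]
    by_cases h4 : h z ∈ A (s z)
    · have : (z ∈ {z | h z ∈ A (s z)}) := h4
      simp only [this, decide_true]
      exact h3.2 h4
    · have : ¬ (z ∈ {z | h z ∈ A (s z)}) := h4
      simp only [this, decide_false]
      by_contra h5
      exact h4 (h3.1 (by simpa using h5))
  | succ n ih =>
    have h1 : ∀ i, ∃ Y : Set ℕ, i < k → (IsSigma n Yᶜ ∧ ∀ x, x ∈ A i ↔ ∃ y, Nat.pair x y ∈ Y) := by
      intro i
      by_cases hi : i < k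
      · obtain ⟨Y, hY⟩ := hA i hi
        exact ⟨Y, fun _ => hY⟩
      · exact ⟨∅, fun h => absurd h hi⟩
    choose Y hY using h1
    have hp : Computable (fun u : ℕ => u.unpair.1) :=
      Computable.fst.comp Computable.unpair
    have hq : Computable (fun u : ℕ => u.unpair.2) :=
      Computable.snd.comp Computable.unpair
    have h2 : IsSigma n {u | Nat.pair (h u.unpair.1) u.unpair.2 ∈ (fun i => (Y i)ᶜ) (s u.unpair.1)} := by
      refine ih (fun i => (Y i)ᶜ) (fun i hi => (hY i hi).1) ?_ (hs.comp hp)
        (fun z => hsk _)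
      exact Primrec₂.natPair.to_comp.comp (hh.comp hp) hq
    refine ⟨{u | Nat.pair (h u.unpair.1) u.unpair.2 ∈ Y (s u.unpair.1)}, h2, ?_⟩
    intro x
    have h3 := (hY (s x) (hsk x)).2 (h x)
    have h4 : (∃ y, Nat.pair x y ∈ {u | Nat.pair (h u.unpair.1) u.unpair.2 ∈ Y (s u.unpair.1)}) ↔
        ∃ y, Nat.pair (h x) y ∈ Y (s x) := by
      refine exists_congr fun y => ?_
      show Nat.pair (h (Nat.pair x y).unpair.1) (Nat.pair x y).unpair.2 ∈
        Y (s (Nat.pair x y).unpair.1) ↔ _
      rw [Nat.unpair_pair]
    rw [h4]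
    exact h3

/-- joins (generalise to `{z | h z ∈ A (s z)}` with `s z < k` for computable `h, s`, and use
induction on `n`) -/
theorem isSigma_join {n k : ℕ} (hk : 0 < k) (A : ℕ → Set ℕ) (h : ∀ i < k, IsSigma n (A i)) :
    IsSigma n {m | m / k ∈ A (m % k)} := by
  refine isSigma_join_gen A h ?_ ?_ (fun z => Nat.mod_lt _ hk)
  · exact (Primrec.nat_div.comp Primrec.id (Primrec.const k)).to_comp
  · exact (Primrec.nat_mod.comp Primrec.id (Primrec.const k)).to_comp

end FDS.Sigma
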