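import Pool.Agent.FDS.Defs
import Pool.Agent.FDS.Deg
import Pool.Agent.FDS.Conv
import Pool.Agent.FDS.Sigma
import Pool.Agent.FDS.Auto
import Pool.Agent.FDS.Anal

/-! Assembly. -/

set_option autoImplicit false
set_option linter.unusedSectionVars false

namespace FDS.Main

open FDS FDS.Auto FDS.Coord

/-- A set that sees the relation `Rel k Z i` through a computable map onto the pairs `(m, a)`,
`a ≤ k`, has the degree of `A i`. -/
theorem deg_eq {k : ℕ} {A : ℕ → Set ℕ} {i : ℕ} (hi : i < k) {X : Set ℕ} {F : ℕ → ℕ × ℕ}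
    (hF : Computable F)
    (h1 : ∀ y, y ∈ X ↔ gad (F y).1 (F y).2 ∈ Rel k {m | m / k ∈ A (m % k)} i)
    (h2 : ∀ m a, a ≤ k → ∃ y, F y = (m, a)) : degSet X = degSet (A i) := by
  classical
  have hF1 : Computable (fun y => (F y).1) := Computable.fst.comp hF
  have hF2 : Computable (fun y => (F y).2) := Computable.snd.comp hF
  apply le_antisymm
  · -- one question to `A i`
    have hg : Computable (fun y => (F y).1 / k) :=
      Primrec.nat_div.to_comp.comp hF1 (Computable.const k)
    have hh : Computable₂ (fun (y : ℕ) (b : Bool) =>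
        if (F y).1 % k = i ∧ b = true then decide ((F y).2 = k) else decide ((F y).2 = i)) := by
      apply Tool.computable_ite
      · apply Tool.cp_and
        · exact Tool.cp_eq (Primrec.nat_mod.to_comp.comp (hF1.comp Computable.fst)
            (Computable.const k)) (Computable.const i)
        · exact Tool.cp_eq Computable.snd (Computable.const true)
      · exact (Tool.cp_eq (hF2.comp Computable.fst) (Computable.const k)).decide
      · exact (Tool.cp_eq (hF2.comp Computable.fst) (Computable.const i)).decide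
    apply Deg.degSet_le hg hh
    intro y
    rw [h1, mem_Rel]
    unfold pos
    by_cases hm : (F y).1 % k = i
    · by_cases hz : (F y).1 / k ∈ A i
      · have hz' : (F y).1 ∈ {m | m / k ∈ A (m % k)} := by
          show (F y).1 / k ∈ A ((F y).1 % k)
          rw [hm]; exact hz
        simp [hm, hz]
      · have hz' : (F y).1 ∉ {m | m / k ∈ A (m % k)} := by
          show ¬ ((F y).1 / k ∈ A ((F y).1 % k))
          rw [hm]; exact hz
        simp [hm, hz]
    · simp [hm]
      tauto
  · -- one question to `X`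
    obtain ⟨G, hG, hGF⟩ := Tool.exists_choice (α := ℕ) (β := ℕ)
      (p := fun q y => F y = (k * q + i, k))
      (Tool.cp_eq (hF.comp Computable.snd)
        ((Primrec.pair (Primrec.nat_add.comp (Primrec.nat_mul.comp (Primrec.const k) Primrec.fst)
          (Primrec.const i)) (Primrec.const k)).to_comp))
      (fun q => h2 _ _ le_rfl)
    have hh : Computable₂ (fun (_ : ℕ) (b : Bool) => b) := Computable.snd
    apply Deg.degSet_le hG hh
    intro q
    rw [h1, hGF, mem_Rel]
    have hm : (k * q + i) % k = i := by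
      rw [Nat.mul_add_mod, Nat.mod_eq_of_lt hi]
    have hd : (k * q + i) / k = q := by
      rw [Nat.mul_add_div (by omega), Nat.div_eq_of_lt hi, Nat.add_zero]
    have hz : (k * q + i) ∈ {m | m / k ∈ A (m % k)} ↔ q ∈ A i := by
      show (k * q + i) / k ∈ A ((k * q + i) % k) ↔ _
      rw [hm, hd]
    unfold pos
    simp only [hm, true_and, decide_eq_true_eq, hz]
    by_cases hq : q ∈ A i
    · simp [hq]
    · simp [hq]
      omega

/-- the standard map -/
def F0 (k : ℕ) (z : ℕ) : ℕ × ℕ :=
  match nu0 z with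
  | Sum.inr (Sum.inr p) => p
  | _ => (0, k + 1)

theorem F0_comp (k : ℕ) : Computable (F0 k) := by
  have h : Computable (fun z => (Sum.casesOn (nu0 z) (fun _ => (0, k + 1))
      (fun y => Sum.casesOn y (fun _ => (0, k + 1)) (fun p => p)) : ℕ × ℕ)) := by
    apply Computable.sumCasesOn nu0_comp
    · exact Computable.const _
    · apply Computable.sumCasesOn Computable.snd
      · exact Computable.const _
      · exact Computable.snd
  refine h.of_eq (fun z => ?_)
  unfold F0
  rcases nu0 z with i | ⟨n, w⟩ | ⟨m, a⟩ <;> rfl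

theorem main (n : ℕ) (D : Set TuringDegree) (hfin : D.Finite) (hne : D.Nonempty)
    (hD : ∀ d ∈ D, ∃ X : Set ℕ, IsSigma n X ∧ d = degSet X) :
    ∃ (A : Type) (Φ : A → A → A → A) (R : Set A), DgSp Φ R = D := by
  classical
  -- list the degrees
  obtain ⟨k, A, hk, hA, hDA⟩ : ∃ (k : ℕ) (A : ℕ → Set ℕ), 0 < k ∧ (∀ i < k, IsSigma n (A i)) ∧
      ∀ d, d ∈ D ↔ ∃ i < k, d = degSet (A i) := by
    obtain ⟨l, hl⟩ : ∃ l : List TuringDegree, ∀ d, d ∈ D ↔ d ∈ l :=
      ⟨hfin.toFinset.toList, fun d => by simp⟩
    choose! X hX1 hX2 using hD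
    obtain ⟨d₀, hd₀⟩ := hne
    refine ⟨l.length, fun i => X (l.getD i d₀), ?_, ?_, ?_⟩
    · exact List.length_pos_of_mem ((hl d₀).1 hd₀)
    · intro i hi
      apply hX1
      rw [hl, List.getD_eq_getElem _ _ hi]
      exact List.getElem_mem hi
    · intro d
      constructor
      · intro hd
        obtain ⟨i, hi, hdi⟩ := List.mem_iff_getElem.1 ((hl d).1 hd)
        refine ⟨i, hi, ?_⟩
        show d = degSet (X (l.getD i d₀))
        rw [List.getD_eq_getElem _ _ hi, hdi]
        exact hX2 d hd
      · rintro ⟨i, hi, rfl⟩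
        have hmem : l.getD i d₀ ∈ D := by
          rw [hl, List.getD_eq_getElem _ _ hi]
          exact List.getElem_mem hi
        show degSet (X (l.getD i d₀)) ∈ D
        rw [← hX2 _ hmem]
        exact hmem
  -- the tree coding the sets
  obtain ⟨S, g, hS, hpre, hpath, huniq, hZ⟩ := Sigma.exists_tree (Sigma.isSigma_join hk A hA)
  have hy : Hyp Conv.Cv S g := ⟨Conv.Cv_mono, Conv.Cv_anti, hpre, hpath, huniq⟩
  refine ⟨El, Phi Conv.Cv S k, Rel k {m | m / k ∈ A (m % k)} 0, ?_⟩
  ext d
  rw [hDA]
  constructor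
  · rintro ⟨ν, hν, rfl⟩
    obtain ⟨i, hi, F, hF, h1, h2⟩ := Anal.analysis hy Conv.Cv_primrec hS
      (fun c hc => Conv.Cv_index hc) hk hZ hν
    exact ⟨i, hi, deg_eq hi hF h1 h2⟩
  · rintro ⟨i, hi, rfl⟩
    obtain ⟨ν, hν, h⟩ := realize (k := k) hy Conv.Cv_primrec hS hZ hi
    refine ⟨ν, hν, (deg_eq hi (F0_comp k) ?_ ?_).symm⟩
    · intro z
      show ν z ∈ Rel k {m | m / k ∈ A (m % k)} 0 ↔ _
      rw [h z]
      unfold F0
      rcases nu0 z with l | ⟨n', w⟩ | ⟨m, a⟩
      · constructor
        · rintro ⟨m, a, h', -⟩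
          exact absurd h' (by simp [gad])
        · intro h'
          exact absurd h' (not_mem_Rel (by
            intro m' a' h''
            have h3 : k + 1 = a' := congrArg Prod.snd (Sum.inr.inj (Sum.inr.inj h''))
            omega) hi)
      · constructor
        · rintro ⟨m, a, h', -⟩
          exact absurd h' (by simp [gad])
        · intro h'
          exact absurd h' (not_mem_Rel (by
            intro m' a' h''
            have h3 : k + 1 = a' := congrArg Prod.snd (Sum.inr.inj (Sum.inr.inj h''))
            omega) hi)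
      · rfl
    · intro m a _
      obtain ⟨z, hz⟩ := nu0_surj (gad m a)
      refine ⟨z, ?_⟩
      unfold F0
      rw [hz]
      rfl

end FDS.Main
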