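import Mathlib

/-!
Definitions used in the statement for MP_c11ecb_lc (finite degree spectra).
-/

set_option autoImplicit false

namespace FDS

/-- `ν` is a constructivization of the algebra `(A, Φ)` with one ternary operation: it is onto,
and equality and the graph of `Φ`, pulled back along `ν`, are computable. -/
def IsConstr {A : Type} (Φ : A → A → A → A) (ν : ℕ → A) : Prop :=
  Function.Surjective ν ∧ ComputablePred (fun p : ℕ × ℕ => ν p.1 = ν p.2) ∧
    ComputablePred (fun p : ℕ × ℕ × ℕ × ℕ => Φ (ν p.1) (ν p.2.1) (ν p.2.2.1) = ν p.2.2.2)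

/-- The characteristic function of `X`. -/
noncomputable def chi (X : Set ℕ) : ℕ →. ℕ := fun n =>
  haveI := Classical.propDecidable (n ∈ X)
  Part.some (if n ∈ X then 1 else 0)

/-- The Turing degree of a set of natural numbers. -/
noncomputable def degSet (X : Set ℕ) : TuringDegree :=
  toAntisymmetrization TuringReducible (chi X)

/-- The degree spectrum of the unary relation `R` on the algebra `(A, Φ)`. -/
def DgSp {A : Type} (Φ : A → A → A → A) (R : Set A) : Set TuringDegree :=
  {d | ∃ ν : ℕ → A, IsConstr Φ ν ∧ d = degSet (ν ⁻¹' R)}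

/-- `Σ⁰ₙ` sets of natural numbers (`Σ⁰₀` = computable). -/
def IsSigma : ℕ → Set ℕ → Prop
  | 0, X => ComputablePred (fun x => x ∈ X)
  | n + 1, X => ∃ Y : Set ℕ, IsSigma n Yᶜ ∧ ∀ x, x ∈ X ↔ ∃ y, Nat.pair x y ∈ Y

end FDS
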